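import Mathlib
import Pool.Agent.H13.W.Graph
import Pool.Agent.H33.Q1.Tile

set_option autoImplicit false
open Finset

/-! # The strand graph in tile coordinates

`Al w x y` : the tile `(x, y)` is in the state {W-N, S-E} (`w` : open labels), otherwise it is in the state
{W-S, N-E}. `TJ_iff_al`, `TJ_iff_be` : what a natural tile joins; `ladder_v` : **the strand along a vertical
line between two solid regions of different colours** (also through deleted rows), `ladder_h` : horizontal. -/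

namespace Pool.Agent.H21.W

open Pool.Agent.H75.Perc Pool.Agent.H75.TwoArm Pool.Agent.H13.W Pool.Agent.H33.Q1

/-- state {W-N, S-E} of the tile `(x, y)` -/
def Al (w : Finset (ℤ × ℤ)) (x y : ℤ) : Prop := lt (x, y) ∈ w ↔ (x + y) % 2 = 0

lemma eE_lt (x y : ℤ) : eE (lt (x, y)) = eW (lt (x + 1, y)) := by
  unfold eE eW lt; refine Prod.ext ?_ ?_ <;> simp only <;> ring

lemma eN_lt (x y : ℤ) : eN (lt (x, y)) = eS (lt (x, y + 1)) := by
  unfold eN eS lt; refine Prod.ext ?_ ?_ <;> simp only <;> ring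

lemma lt_even {x y : ℤ} (h : (x + y) % 2 = 0) : (lt (x, y)).1 % 2 = 0 ∧ (lt (x, y)).2 % 2 = 1 := by
  unfold lt; simp only; omega

lemma lt_odd' {x y : ℤ} (h : (x + y) % 2 = 1) : (lt (x, y)).1 % 2 = 1 ∧ (lt (x, y)).2 % 2 = 0 := by
  unfold lt; simp only; omega

variable {Λ D : Set (ℤ × ℤ)} {w : Finset (ℤ × ℤ)} {e c d : ℤ × ℤ} {x y : ℤ}

/-- exploration step at an even tile (first coordinate even) -/
lemma nx_even (he : e.1 % 2 = 0) (he2 : e.2 % 2 = 1) :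
    lab (eN e) = e ∧ lab (eS e) = e ∧
      (e ∈ w → nx w (eN e) = eW e ∧ nx w (eS e) = eE e) ∧
      (e ∉ w → nx w (eN e) = eE e ∧ nx w (eS e) = eW e) := by
  obtain ⟨a, b⟩ := e
  simp only at he he2
  have h1 : (b + 1) % 2 = 0 := by omega
  have h2 : (a + 1) % 2 = 1 := by omega
  have l1 : lab (eN (a, b)) = (a, b) := by unfold lab eN; simp [h1, he]
  have l2 : lab (eS (a, b)) = (a, b) := by unfold lab eS; simp [he2, h2]
  refine ⟨l1, l2, fun hw => ?_, fun hw => ?_⟩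
  · unfold nx
    rw [l1, l2, if_pos hw, if_pos hw]
    unfold nxO eN eS eW eE
    simp [h1, he, he2, h2]
  · unfold nx
    rw [l1, l2, if_neg hw, if_neg hw]
    unfold nxC eN eS eW eE
    simp [h1, he, he2, h2]

/-- exploration step at an odd tile -/
lemma nx_odd (he : e.1 % 2 = 1) (he2 : e.2 % 2 = 0) :
    lab (eW e) = e ∧ lab (eE e) = e ∧
      (e ∈ w → nx w (eW e) = eS e ∧ nx w (eE e) = eN e) ∧
      (e ∉ w → nx w (eW e) = eN e ∧ nx w (eE e) = eS e) := by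
  obtain ⟨a, b⟩ := e
  simp only at he he2
  have h1 : (b + 1) % 2 = 1 := by omega
  have h2 : (a + 1) % 2 = 0 := by omega
  have l1 : lab (eW (a, b)) = (a, b) := by unfold lab eW; simp [he, he2]
  have l2 : lab (eE (a, b)) = (a, b) := by unfold lab eE; simp [h1, h2]
  refine ⟨l1, l2, fun hw => ?_, fun hw => ?_⟩
  · unfold nx
    rw [l1, l2, if_pos hw, if_pos hw]
    unfold nxO eN eS eW eE
    simp [h1, he, he2, h2]
  · unfold nx
    rw [l1, l2, if_neg hw, if_neg hw]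
    unfold nxC eN eS eW eE
    simp [h1, he, he2, h2]

/-- the tile `(x, y)` in the state {W-N, S-E} -/
lemma TJ_al (hD : lt (x, y) ∉ D) (h : Al w x y) :
    TJ D w (lt (x, y)) (eW (lt (x, y))) (eN (lt (x, y))) ∧
      TJ D w (lt (x, y)) (eS (lt (x, y))) (eE (lt (x, y))) := by
  unfold Al at h
  rcases Int.emod_two_eq_zero_or_one (x + y) with hp | hp
  · obtain ⟨h1, h2⟩ := lt_even hp
    obtain ⟨l1, l2, l3, -⟩ := nx_even (w := w) h1 h2
    obtain ⟨k1, k2⟩ := l3 (h.2 hp)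
    exact ⟨Or.inr ⟨hD, Or.inr ⟨l1, k1⟩⟩, Or.inr ⟨hD, Or.inl ⟨l2, k2⟩⟩⟩
  · obtain ⟨h1, h2⟩ := lt_odd' hp
    obtain ⟨l1, l2, -, l3⟩ := nx_odd (w := w) h1 h2
    obtain ⟨k1, k2⟩ := l3 (fun hm => by have := h.1 hm; omega)
    exact ⟨Or.inr ⟨hD, Or.inl ⟨l1, k1⟩⟩, Or.inr ⟨hD, Or.inr ⟨l2, k2⟩⟩⟩

/-- the tile `(x, y)` in the state {W-S, N-E} -/
lemma TJ_be (hD : lt (x, y) ∉ D) (h : ¬ Al w x y) :
    TJ D w (lt (x, y)) (eW (lt (x, y))) (eS (lt (x, y))) ∧
      TJ D w (lt (x, y)) (eN (lt (x, y))) (eE (lt (x, y))) := by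
  unfold Al at h
  rcases Int.emod_two_eq_zero_or_one (x + y) with hp | hp
  · obtain ⟨h1, h2⟩ := lt_even hp
    obtain ⟨l1, l2, -, l3⟩ := nx_even (w := w) h1 h2
    obtain ⟨k1, k2⟩ := l3 (fun hm => h ⟨fun _ => hp, fun _ => hm⟩)
    exact ⟨Or.inr ⟨hD, Or.inr ⟨l2, k2⟩⟩, Or.inr ⟨hD, Or.inl ⟨l1, k1⟩⟩⟩
  · obtain ⟨h1, h2⟩ := lt_odd' hp
    obtain ⟨l1, l2, l3, -⟩ := nx_odd (w := w) h1 h2
    have hm : lt (x, y) ∈ w := by
      by_contra hm
      exact h ⟨fun k => absurd k hm, fun k => by omega⟩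
    obtain ⟨k1, k2⟩ := l3 hm
    exact ⟨Or.inr ⟨hD, Or.inl ⟨l1, k1⟩⟩, Or.inr ⟨hD, Or.inr ⟨l2, k2⟩⟩⟩

/-- a deleted tile -/
lemma TJ_del (hD : lt (x, y) ∈ D) :
    TJ D w (lt (x, y)) (eS (lt (x, y))) (eN (lt (x, y))) :=
  Or.inl ⟨hD, lt_odd _, Or.inl ⟨rfl, rfl⟩⟩

lemma sides_ne (e : ℤ × ℤ) : eW e ≠ eS e ∧ eW e ≠ eE e ∧ eW e ≠ eN e ∧ eS e ≠ eE e ∧ eS e ≠ eN e ∧
    eE e ≠ eN e := by
  unfold eW eS eE eN
  simp [Prod.ext_iff]

/-- **what a tile in the state {W-N, S-E} joins** -/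
lemma TJ_iff_al (hD : lt (x, y) ∉ D) (h : Al w x y) : TJ D w (lt (x, y)) c d ↔
    (c = eW (lt (x, y)) ∧ d = eN (lt (x, y))) ∨ (c = eN (lt (x, y)) ∧ d = eW (lt (x, y))) ∨
    (c = eS (lt (x, y)) ∧ d = eE (lt (x, y))) ∨ (c = eE (lt (x, y)) ∧ d = eS (lt (x, y))) := by
  obtain ⟨t1, t2⟩ := TJ_al hD h
  constructor
  · intro ht
    rcases side_cases c ht.label with rfl | rfl | rfl | rfl
    · exact Or.inl ⟨rfl, ht.unique t1⟩
    · exact Or.inr (Or.inr (Or.inr ⟨rfl, ht.unique t2.symm⟩))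
    · exact Or.inr (Or.inr (Or.inl ⟨rfl, ht.unique t2⟩))
    · exact Or.inr (Or.inl ⟨rfl, ht.unique t1.symm⟩)
  · rintro (⟨rfl, rfl⟩ | ⟨rfl, rfl⟩ | ⟨rfl, rfl⟩ | ⟨rfl, rfl⟩)
    · exact t1
    · exact t1.symm
    · exact t2
    · exact t2.symm

/-- **what a tile in the state {W-S, N-E} joins** -/
lemma TJ_iff_be (hD : lt (x, y) ∉ D) (h : ¬ Al w x y) : TJ D w (lt (x, y)) c d ↔
    (c = eW (lt (x, y)) ∧ d = eS (lt (x, y))) ∨ (c = eS (lt (x, y)) ∧ d = eW (lt (x, y))) ∨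
    (c = eN (lt (x, y)) ∧ d = eE (lt (x, y))) ∨ (c = eE (lt (x, y)) ∧ d = eN (lt (x, y))) := by
  obtain ⟨t1, t2⟩ := TJ_be hD h
  constructor
  · intro ht
    rcases side_cases c ht.label with rfl | rfl | rfl | rfl
    · exact Or.inl ⟨rfl, ht.unique t1⟩
    · exact Or.inr (Or.inr (Or.inr ⟨rfl, ht.unique t2.symm⟩))
    · exact Or.inr (Or.inl ⟨rfl, ht.unique t1.symm⟩)
    · exact Or.inr (Or.inr (Or.inl ⟨rfl, ht.unique t2⟩))
  · rintro (⟨rfl, rfl⟩ | ⟨rfl, rfl⟩ | ⟨rfl, rfl⟩ | ⟨rfl, rfl⟩)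
    · exact t1
    · exact t1.symm
    · exact t2
    · exact t2.symm

/-- what a deleted tile joins -/
lemma TJ_iff_del (hD : lt (x, y) ∈ D) : TJ D w (lt (x, y)) c d ↔
    (c = eS (lt (x, y)) ∧ d = eN (lt (x, y))) ∨ (c = eN (lt (x, y)) ∧ d = eS (lt (x, y))) := by
  constructor
  · rintro (⟨-, -, h | h⟩ | ⟨h, -⟩)
    · exact Or.inl h
    · exact Or.inr ⟨h.2, h.1⟩
    · exact absurd hD h
  · rintro (⟨rfl, rfl⟩ | ⟨rfl, rfl⟩)
    · exact TJ_del hD
    · exact (TJ_del hD).symm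

/-- a solid region of colour `p`: the state alternates -/
lemma al_solid {p : Bool} (h : lt (x, y) ∈ w ↔ p = true) : Al w x y ↔ (p = true ↔ (x + y) % 2 = 0) := by
  unfold Al; rw [h]

/-- the two tiles on both sides of a line between two colours are in the same state -/
lemma al_interface {p : Bool} (h1 : lt (x - 1, y) ∈ w ↔ p = true) (h2 : lt (x, y) ∈ w ↔ p = false) :
    Al w (x - 1) y ↔ Al w x y := by
  unfold Al
  rw [h1, h2]
  cases p
  · simp only [Bool.false_eq_true, false_iff, true_iff]; omega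
  · simp only [Bool.true_eq_false, false_iff, true_iff]; omega

/-! ### Ladders -/

/-- the horizontal side below the tiles `(x - 1, y)`, `(x, y)` which is used by the interface along the
vertical line `x`: `t = true` : left tile in the state {W-N, S-E} -/
def lad (x y : ℤ) (t : Bool) : ℤ × ℤ := if t then eS (lt (x - 1, y)) else eS (lt (x, y))

/-- one step of the interface through a row of natural tiles -/
lemma lad_step {x y : ℤ} {t : Bool} (h1 : lt (x - 1, y) ∈ Λ) (h2 : lt (x, y) ∈ Λ)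
    (d1 : lt (x - 1, y) ∉ D) (d2 : lt (x, y) ∉ D) (a1 : Al w (x - 1) y ↔ t = true)
    (a2 : Al w x y ↔ t = true) : (SG Λ D w).Reachable (lad x y t) (lad x (y + 1) (!t)) := by
  have e1 : eE (lt (x - 1, y)) = eW (lt (x, y)) := by rw [eE_lt, sub_add_cancel]
  cases t
  · have n1 : ¬ Al w (x - 1) y := fun h => by simpa using a1.1 h
    have n2 : ¬ Al w x y := fun h => by simpa using a2.1 h
    have s1 : (SG Λ D w).Adj (eS (lt (x, y))) (eW (lt (x, y))) := ⟨_, h2, (TJ_be d2 n2).1.symm⟩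
    have s2 : (SG Λ D w).Adj (eE (lt (x - 1, y))) (eN (lt (x - 1, y))) :=
      ⟨_, h1, (TJ_be d1 n1).2.symm⟩
    rw [e1] at s2
    unfold lad
    simp only [Bool.not_false, if_true, Bool.false_eq_true, if_false]
    rw [← eN_lt]
    exact s1.reachable.trans s2.reachable
  · have s1 : (SG Λ D w).Adj (eS (lt (x - 1, y))) (eE (lt (x - 1, y))) :=
      ⟨_, h1, (TJ_al d1 (a1.2 rfl)).2⟩
    have s2 : (SG Λ D w).Adj (eW (lt (x, y))) (eN (lt (x, y))) := ⟨_, h2, (TJ_al d2 (a2.2 rfl)).1⟩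
    rw [e1] at s1
    unfold lad
    simp only [Bool.not_true, if_true, Bool.false_eq_true, if_false]
    rw [← eN_lt]
    exact s1.reachable.trans s2.reachable

/-- one step of the interface through a deleted row -/
lemma lad_del {x y : ℤ} {t : Bool} (h1 : lt (x - 1, y) ∈ Λ) (h2 : lt (x, y) ∈ Λ)
    (d1 : lt (x - 1, y) ∈ D) (d2 : lt (x, y) ∈ D) :
    (SG Λ D w).Reachable (lad x y t) (lad x (y + 1) t) := by
  have s1 : (SG Λ D w).Adj (eS (lt (x - 1, y))) (eN (lt (x - 1, y))) := ⟨_, h1, TJ_del d1⟩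
  have s2 : (SG Λ D w).Adj (eS (lt (x, y))) (eN (lt (x, y))) := ⟨_, h2, TJ_del d2⟩
  cases t
  · unfold lad
    simp only [Bool.false_eq_true, if_false]
    rw [← eN_lt]; exact s2.reachable
  · unfold lad
    simp only [if_true]
    rw [← eN_lt]; exact s1.reachable

/-- the state of the row `y` at the interface with left colour `p` -/
def ladt (p : Bool) (x y : ℤ) : Bool := p == decide ((x + y) % 2 = 1)

lemma ladt_succ (p : Bool) (x y : ℤ) : ladt p x (y + 1) = !ladt p x y := by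
  unfold ladt
  have : decide ((x + (y + 1)) % 2 = 1) = !decide ((x + y) % 2 = 1) := by
    by_cases h : (x + y) % 2 = 1
    · have h' : ¬ (x + (y + 1)) % 2 = 1 := by omega
      simp [h, h']
    · have h' : (x + (y + 1)) % 2 = 1 := by omega
      simp [h, h']
  rw [this]
  cases p <;> cases decide ((x + y) % 2 = 1) <;> rfl

lemma ladt_not (p : Bool) (x y : ℤ) : ladt (!p) x y = !ladt p x y := by
  unfold ladt
  cases p <;> cases decide ((x + y) % 2 = 1) <;> rfl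

lemma ladt_true {p : Bool} {x y : ℤ} : ladt p x y = true ↔ (p = true ↔ (x + y) % 2 = 1) := by
  unfold ladt
  by_cases h : (x + y) % 2 = 1
  · simp [h]
  · cases p <;> simp [h]

lemma al_ladt {p : Bool} {x y : ℤ} (h : lt (x - 1, y) ∈ w ↔ p = true) :
    Al w (x - 1) y ↔ ladt p x y = true := by
  rw [ladt_true]
  unfold Al
  rw [h]
  have : (x - 1 + y) % 2 = 0 ↔ (x + y) % 2 = 1 := by omega
  rw [this]

/-- **The strand along a vertical line** `x` between the colours `p` (left) and `!p` (right), rows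
`y1 ≤ y < y2` -/
theorem ladder_v {p : Bool} {x y1 y2 : ℤ} (h12 : y1 ≤ y2)
    (hΛ : ∀ y, y1 ≤ y → y < y2 → lt (x - 1, y) ∈ Λ ∧ lt (x, y) ∈ Λ)
    (hD : ∀ y, y1 ≤ y → y < y2 → lt (x - 1, y) ∉ D ∧ lt (x, y) ∉ D)
    (hw : ∀ y, y1 ≤ y → y < y2 → (lt (x - 1, y) ∈ w ↔ p = true) ∧ (lt (x, y) ∈ w ↔ p = false)) :
    (SG Λ D w).Reachable (lad x y1 (ladt p x y1)) (lad x y2 (ladt p x y2)) := by
  obtain ⟨n, rfl⟩ : ∃ n : ℕ, y2 = y1 + n := ⟨(y2 - y1).toNat, by omega⟩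
  clear h12
  induction n with
  | zero => simp
  | succ n ih =>
    have h0 := ih (fun y h1 h2 => hΛ y h1 (by push_cast; omega))
      (fun y h1 h2 => hD y h1 (by push_cast; omega)) (fun y h1 h2 => hw y h1 (by push_cast; omega))
    have hy1 : y1 ≤ y1 + (n : ℤ) := by omega
    have hy2 : y1 + (n : ℤ) < y1 + ((n + 1 : ℕ) : ℤ) := by push_cast; omega
    obtain ⟨l1, l2⟩ := hΛ _ hy1 hy2
    obtain ⟨d1, d2⟩ := hD _ hy1 hy2
    obtain ⟨w1, w2⟩ := hw _ hy1 hy2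
    have a1 : Al w (x - 1) (y1 + n) ↔ ladt p x (y1 + n) = true := al_ladt w1
    have a2 := (al_interface w1 w2).symm.trans a1
    have h1 := lad_step (Λ := Λ) (D := D) l1 l2 d1 d2 a1 a2
    have e : y1 + ((n + 1 : ℕ) : ℤ) = (y1 + n) + 1 := by push_cast; ring
    rw [e, ladt_succ]
    exact h0.trans h1

end Pool.Agent.H21.W
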