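import Mathlib
import Pool.Agent.H54.W.Make
import Pool.Agent.H45.W.Sym
import Pool.Agent.H21.W.TileSG
import Pool.Agent.H29.W.RoomG

set_option autoImplicit false
open Finset

/-! # A world which contains a room

`C : CD` coarse data of helper54, `n` tiles per cell. Tile coordinates of the room: rows `0 ≤ y < n H`.

* `RP` tiles of the room, `RL1` tiles with a common side with the room, `RDg` diagonal tiles at the convex
  corners whose two walls are closed (colour `false`; at the other convex corners the inner strands do not touch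
  the diagonal tile or end there), `RT` all of them; `fillC` colours of the tiles outside.
* `LR, DR, WR0` : the room graph `SG LR (DR x0 r) (WR0 ∪ ω)`, string = row `r`, `x0 ≤ x`.
* `RoomIn C n s cr x0 r Λ D w` : the world `(Λ, D, w)` contains the room, moved by `s` rows (`s` even).
* `RoomIn.reach` : reachability in the part of the room is that of the room graph (shift `tr (-s) s`).
* `RoomIn.split` : `SG Λ D (w ∪ ω) = SG (part of the room) ⊔ SG (rest)`; the rest does not see `ω`. -/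

namespace Pool.Agent.H21.W

open Pool.Agent.H75.Perc Pool.Agent.H75.TwoArm Pool.Agent.H13.W Pool.Agent.H33.Q1
open Pool.Agent.H54.W (CD)
open Pool.Agent.H45.W (tr trS trF symPair_even)

section Room

variable (C : CD) (n : ℤ)

/-- tiles of the room -/
def RP (x y : ℤ) : Prop := 0 ≤ y ∧ y < n * C.H ∧ n * C.A (y / n) ≤ x ∧ x < n * C.W

instance (x y : ℤ) : Decidable (RP C n x y) := by unfold RP; infer_instance

/-- colours of the tiles outside -/
def fillC (cr : ℤ → Bool) (x y : ℤ) : Bool :=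
  if y < 0 then C.CB else if n * C.H ≤ y then C.CT
  else if x < n * C.A (y / n) then C.CL (y / n) else cr y

/-- tiles with a common side with the room -/
def RL1 (x y : ℤ) : Prop :=
  ¬ RP C n x y ∧ (RP C n (x + 1) y ∨ RP C n (x - 1) y ∨ RP C n x (y + 1) ∨ RP C n x (y - 1))

/-- diagonal tiles at convex corners whose walls are closed -/
def RDg (cr : ℤ → Bool) (x y : ℤ) : Prop :=
  ¬ RP C n x y ∧ ¬ RL1 C n x y ∧ ∃ i j : ℤ, (i = 1 ∨ i = -1) ∧ (j = 1 ∨ j = -1) ∧
    RP C n (x + i) (y + j) ∧ fillC C n cr (x + i) y = false ∧ fillC C n cr x (y + j) = false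

/-- tiles of the room graph -/
def RT (cr : ℤ → Bool) (x y : ℤ) : Prop := RP C n x y ∨ RL1 C n x y ∨ RDg C n cr x y

variable {C n} {cr : ℤ → Bool} {x y x0 r s : ℤ}

lemma RT.near (h : RT C n cr x y) : ∃ i j : ℤ, -1 ≤ i ∧ i ≤ 1 ∧ -1 ≤ j ∧ j ≤ 1 ∧
    RP C n (x + i) (y + j) := by
  rcases h with h | ⟨-, h | h | h | h⟩ | ⟨-, -, i, j, hi, hj, h, -⟩
  · exact ⟨0, 0, by simpa using h⟩
  · exact ⟨1, 0, by simpa using h⟩
  · exact ⟨-1, 0, by simpa [sub_eq_add_neg] using h⟩
  · exact ⟨0, 1, by simpa using h⟩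
  · exact ⟨0, -1, by simpa [sub_eq_add_neg] using h⟩
  · exact ⟨i, j, by omega, by omega, by omega, by omega, h⟩

lemma RP.box (hn : 0 < n) (h : RP C n x y) : 0 ≤ y ∧ y < n * C.H ∧ n * C.LO ≤ x ∧ x < n * C.W := by
  obtain ⟨h1, h2, h3, h4⟩ := h
  have hr := Pool.Agent.H54.W.CD.row_of (C := C) hn h1 h2
  have h5 := C.lo _ hr.1 hr.2
  have : n * C.LO ≤ n * C.A (y / n) := by nlinarith
  exact ⟨h1, h2, by linarith, h4⟩

lemma RT.box (hn : 0 < n) (h : RT C n cr x y) : -1 ≤ y ∧ y ≤ n * C.H ∧ n * C.LO - 1 ≤ x ∧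
    x ≤ n * C.W := by
  obtain ⟨i, j, h1, h2, h3, h4, h5⟩ := h.near
  have := h5.box hn
  omega

variable (C n cr)

/-- labels of the room graph -/
def LR : Set (ℤ × ℤ) := {e | ∃ x y, e = lt (x, y) ∧ RT C n cr x y}

/-- labels of the string -/
def DR (x0 r : ℤ) : Set (ℤ × ℤ) := lt '' {p | p.2 = r ∧ x0 ≤ p.1}

open Classical in
/-- open labels around the room -/
noncomputable def WR0 : Finset (ℤ × ℤ) :=
  ((Icc (n * C.LO - 1) (n * C.W) ×ˢ Icc (-1) (n * C.H)).filter fun t =>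
    RT C n cr t.1 t.2 ∧ ¬ RP C n t.1 t.2 ∧ fillC C n cr t.1 t.2 = true).image lt

open Classical in
/-- labels of the room -/
noncomputable def ER : Finset (ℤ × ℤ) :=
  ((Icc (n * C.LO) (n * C.W) ×ˢ Icc 0 (n * C.H)).filter fun t => RP C n t.1 t.2).image lt

variable {C n cr}

lemma mem_LR : lt (x, y) ∈ LR C n cr ↔ RT C n cr x y := by
  constructor
  · rintro ⟨x', y', h1, h2⟩
    have := lt_inj h1
    simp only [Prod.mk.injEq] at this
    rw [this.1, this.2]; exact h2
  · exact fun h => ⟨x, y, rfl, h⟩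

lemma mem_DR : lt (x, y) ∈ DR x0 r ↔ y = r ∧ x0 ≤ x := by
  constructor
  · rintro ⟨p, h1, h2⟩
    have := lt_inj h2
    subst this
    exact h1
  · exact fun h => ⟨(x, y), h, rfl⟩

lemma mem_WR0 (hn : 0 < n) : lt (x, y) ∈ WR0 C n cr ↔
    RT C n cr x y ∧ ¬ RP C n x y ∧ fillC C n cr x y = true := by
  unfold WR0
  simp only [mem_image, mem_filter, mem_product, mem_Icc, Prod.exists]
  constructor
  · rintro ⟨x', y', ⟨⟨⟨h1, h2⟩, h3, h4⟩, h5⟩, h6⟩
    have := lt_inj h6
    simp only [Prod.mk.injEq] at this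
    obtain ⟨rfl, rfl⟩ := this
    exact h5
  · intro h
    have h1 := h.1.box hn
    exact ⟨x, y, ⟨⟨⟨h1.2.2.1, h1.2.2.2⟩, h1.1, h1.2.1⟩, h⟩, rfl⟩

lemma mem_ER (hn : 0 < n) : lt (x, y) ∈ ER C n ↔ RP C n x y := by
  unfold ER
  simp only [mem_image, mem_filter, mem_product, mem_Icc, Prod.exists]
  constructor
  · rintro ⟨x', y', ⟨⟨⟨h1, h2⟩, h3, h4⟩, h5⟩, h6⟩
    have := lt_inj h6
    simp only [Prod.mk.injEq] at this
    obtain ⟨rfl, rfl⟩ := this
    exact h5
  · intro h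
    have h1 := h.box hn
    exact ⟨x, y, ⟨⟨⟨h1.2.2.1, h1.2.2.2.le⟩, h1.1, h1.2.1.le⟩, h⟩, rfl⟩

lemma odd_ER {e : ℤ × ℤ} (he : e ∈ ER C n) : (e.1 + e.2) % 2 = 1 := by
  unfold ER at he
  simp only [mem_image] at he
  obtain ⟨t, -, rfl⟩ := he
  exact lt_odd t

lemma odd_LR {e : ℤ × ℤ} (he : e ∈ LR C n cr) : (e.1 + e.2) % 2 = 1 := by
  obtain ⟨x, y, rfl, -⟩ := he
  exact lt_odd _

end Room

/-- the label shift by `s` rows -/
lemma tr_lt (s x y : ℤ) : tr (-s) s (lt (x, y)) = lt (x, y + s) := by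
  unfold tr lt; refine Prod.ext ?_ ?_ <;> simp only <;> ring

/-- **The world `(Λ, D, w)` contains the room `C` at scale `n`, moved by `s` rows.** -/
structure RoomIn (C : CD) (n s : ℤ) (cr : ℤ → Bool) (x0 r : ℤ) (Λ D : Set (ℤ × ℤ))
    (w : Finset (ℤ × ℤ)) : Prop where
  hn : 8 ≤ n
  he : n % 2 = 0
  hs : s % 2 = 0
  tile : ∀ x y, RT C n cr x y → lt (x, y + s) ∈ Λ
  room : ∀ x y, RP C n x y → lt (x, y + s) ∉ w
  col : ∀ x y, RT C n cr x y → ¬ RP C n x y → (lt (x, y + s) ∈ w ↔ fillC C n cr x y = true)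
  del : ∀ x y, RT C n cr x y → (lt (x, y + s) ∈ D ↔ y = r ∧ x0 ≤ x)

namespace RoomIn

variable {C : CD} {n s : ℤ} {cr : ℤ → Bool} {x0 r : ℤ} {Λ D : Set (ℤ × ℤ)} {w ω : Finset (ℤ × ℤ)}

/-- the labels of the room graph in the world -/
def part (C : CD) (n s : ℤ) (cr : ℤ → Bool) : Set (ℤ × ℤ) := trS (-s) s (LR C n cr)

lemma mem_part {x y : ℤ} : lt (x, y + s) ∈ part C n s cr ↔ RT C n cr x y := by
  unfold part
  rw [← tr_lt, Pool.Agent.H45.W.tr_mem_trS, mem_LR]

variable (h : RoomIn C n s cr x0 r Λ D w)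

include h

lemma part_sub : part C n s cr ⊆ Λ := by
  intro e he
  unfold part trS at he
  obtain ⟨x, y, h1, h2⟩ := he
  have e1 : e = tr (-s) s (lt (x, y)) := by
    rw [← h1]
    exact (Pool.Agent.H45.W.tr_neg' (-s) s e).symm
  rw [e1, tr_lt]
  exact h.tile x y h2

/-- the transport of the room graph -/
theorem sym (hω : ω ⊆ ER C n) : Pool.Agent.H45.W.SymPair (tr (-s) s) (tr (-s) s)
    (LR C n cr) (DR x0 r) (WR0 C n cr ∪ ω) (part C n s cr) D (w ∪ trF (-s) s ω) := by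
  have hn : 0 < n := by have := h.hn; omega
  have hs := h.hs
  refine symPair_even (by omega) hs (fun e => ?_) (fun e he => ?_) (fun e he hd => ?_)
  · unfold part
    exact Pool.Agent.H45.W.tr_mem_trS
  · obtain ⟨x, y, rfl, h1⟩ := he
    rw [tr_lt, h.del x y h1, mem_DR]
  · obtain ⟨x, y, rfl, h1⟩ := he
    rw [mem_union, mem_union, Pool.Agent.H45.W.tr_mem_trF, tr_lt, mem_WR0 hn]
    refine or_congr ?_ Iff.rfl
    by_cases hP : RP C n x y
    · constructor
      · exact fun h2 => absurd h2 (h.room x y hP)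
      · exact fun h2 => absurd hP h2.2.1
    · rw [h.col x y h1 hP]
      tauto

/-- **Strands of the room.** -/
theorem reach (hω : ω ⊆ ER C n) {a b : ℤ × ℤ} :
    (SG (part C n s cr) D (w ∪ trF (-s) s ω)).Reachable (tr (-s) s a) (tr (-s) s b) ↔
      (SG (LR C n cr) (DR x0 r) (WR0 C n cr ∪ ω)).Reachable a b :=
  (h.sym hω).reach

/-- **The world is the room and the rest**; the rest does not see the labels of the room. -/
theorem split (hω : ω ⊆ ER C n) : SG Λ D (w ∪ trF (-s) s ω) =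
    SG (part C n s cr) D (w ∪ trF (-s) s ω) ⊔ SG (Λ \ part C n s cr) D w := by
  have hn : 0 < n := by have := h.hn; omega
  have e1 : Λ = part C n s cr ∪ (Λ \ part C n s cr) := by
    rw [Set.union_sdiff_self, Set.union_eq_self_of_subset_left h.part_sub]
  conv_lhs => rw [e1]
  rw [Pool.Agent.H29.W.SG_union]
  congr 1
  refine SG_congr (fun e _ => Iff.rfl) (fun e he _ => ?_)
  rw [mem_union, or_iff_left]
  intro h2
  unfold trF at h2
  rw [Finset.mem_map] at h2
  obtain ⟨e', h3, h4⟩ := h2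
  apply he.2
  have h5 := hω h3
  have h6 := odd_ER h5
  have h7 := lt_tt h6
  rw [← h7] at h5
  have h8 := (mem_ER hn).1 h5
  have h9 : e = tr (-s) s e' := h4.symm
  rw [h9]
  unfold part
  rw [Pool.Agent.H45.W.tr_mem_trS, ← h7]
  exact mem_LR.2 (Or.inl h8)

end RoomIn

end Pool.Agent.H21.W
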