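import Mathlib
import Pool.Agent.H6.W.JDef

set_option autoImplicit false
open Finset

/-! # The room of the junction box

`b : JBox` of `H6/W/JDef`. Cells in units of the box. `dst y` : distance of the row `y` from the line of
the slit, `pi b y` : index of the last plate in the row `y` (`≥ X / M`: no plate), `Ar b y` : left end of
the row `y` of the room, `Ht b` : half of the number of rows.

* `chn_iff` : the plates of the row `y` are the cells left of `x0 - M * pi`; `chn_last` : the last one is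
  the plate `pi` (for every chain, tip at `x0`).
* `mem_room` : a cell is in `b.Q` and in no plate iff it is in the room `Ar b y ≤ x < X`.
* `clJ c u l y` : the colour at the left of the row `y`, for colours `c true i` of the upper and `c false i`
  of the lower half of the plate `i`, and `u i`, `l i` of the segments of the ceiling and the floor (segment
  `i` = between the marks `i - 1` and `i`).
* `row_cases` : two neighbouring rows: same wall, gap between the plates, ceiling, step. -/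

namespace Pool.Agent.H21.W

open Pool.Agent.H6.W Pool.Agent.Q1.M4

/-- distance of a row from the line `y = 0` -/
def dst (y : ℤ) : ℤ := if 0 ≤ y then y else -1 - y

lemma dst_nonneg (y : ℤ) : 0 ≤ dst y := by unfold dst; split_ifs <;> omega

lemma dst_neg (y : ℤ) : dst (-1 - y) = dst y := by unfold dst; split_ifs <;> omega

lemma dst_lt {y t : ℤ} : dst y < t ↔ -t ≤ y ∧ y < t := by unfold dst; split_ifs <;> omega

/-- index of the last plate in the row `y` of a chain of thickness `τ` at the tip -/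
def pix (τ : ℕ) (y : ℤ) : ℕ := (dst y - τ + 1).toNat

lemma pix_neg (τ : ℕ) (y : ℤ) : pix τ (-1 - y) = pix τ y := by unfold pix; rw [dst_neg]

lemma pix_le {τ : ℕ} {y : ℤ} {i : ℕ} : pix τ y ≤ i ↔ -((τ : ℤ) + i) ≤ y ∧ y < (τ : ℤ) + i := by
  rw [← dst_lt]; unfold pix; omega

lemma chn_none {x0 : ℤ} {M τ : ℕ} {c : Cell} (h : x0 ≤ c.1) : chn x0 M τ c = none := by
  unfold chn
  rw [if_neg (by omega)]

/-- the plates of the chain in the row `y` -/
lemma chn_some {x0 : ℤ} {M τ : ℕ} (hM : 0 < M) {c : Cell} {i : ℕ} : chn x0 M τ c = some i ↔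
    (x0 - (i + 1) * M ≤ c.1 ∧ c.1 < x0 - i * M) ∧ pix τ c.2 ≤ i := by
  have hM' : (0 : ℤ) < M := by exact_mod_cast hM
  unfold chn
  by_cases h : c.1 < x0
  · rw [if_pos h]
    simp only
    have h0 : 0 ≤ (x0 - c.1 - 1) / (M : ℤ) := Int.ediv_nonneg (by omega) hM'.le
    have key : ((x0 - c.1 - 1) / (M : ℤ)).toNat = i ↔
        (x0 - (i + 1) * M ≤ c.1 ∧ c.1 < x0 - i * M) := by
      constructor
      · intro h1
        have h2 : (x0 - c.1 - 1) / (M : ℤ) = i := by omega
        have h3 := Int.ediv_mul_le (x0 - c.1 - 1) hM'.ne'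
        have h4 := Int.lt_ediv_add_one_mul_self (x0 - c.1 - 1) hM'
        rw [h2] at h3 h4
        constructor <;> linarith
      · rintro ⟨h1, h2⟩
        have h3 : (x0 - c.1 - 1) / (M : ℤ) = i := by
          apply le_antisymm
          · have := Int.ediv_lt_of_lt_mul hM' (show x0 - c.1 - 1 < (i + 1) * M by linarith)
            omega
          · exact Int.le_ediv_of_mul_le hM' (by linarith)
        omega
    constructor
    · intro h1
      split_ifs at h1 with h2
      rw [Option.some.injEq] at h1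
      rw [h1] at h2
      refine ⟨key.1 h1, pix_le.2 h2⟩
    · rintro ⟨h1, h2⟩
      have h3 := key.2 h1
      rw [h3, if_pos (pix_le.1 h2)]
  · rw [if_neg h]
    constructor
    · intro h1; exact absurd h1 (by simp)
    · rintro ⟨⟨-, h1⟩, -⟩
      exfalso
      have : (0 : ℤ) ≤ i * M := by positivity
      linarith

/-- **Rows of a chain of plates**: the cells left of the right face of the plate `pix τ y`. -/
lemma chn_iff {x0 : ℤ} {M τ : ℕ} (hM : 0 < M) {c : Cell} :
    chn x0 M τ c ≠ none ↔ c.1 < x0 - pix τ c.2 * M := by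
  have hM' : (0 : ℤ) < M := by exact_mod_cast hM
  rw [Option.ne_none_iff_exists']
  constructor
  · rintro ⟨i, hi⟩
    rw [chn_some hM] at hi
    have h1 : (pix τ c.2 : ℤ) * M ≤ i * M :=
      mul_le_mul_of_nonneg_right (by exact_mod_cast hi.2) hM'.le
    linarith [hi.1.2]
  · intro h
    have h5 : (0 : ℤ) ≤ (pix τ c.2 : ℤ) * M := by positivity
    have h0 : 0 ≤ (x0 - c.1 - 1) / (M : ℤ) := Int.ediv_nonneg (by linarith) hM'.le
    refine ⟨((x0 - c.1 - 1) / (M : ℤ)).toNat, (chn_some hM).2 ⟨?_, ?_⟩⟩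
    · have h3 := Int.ediv_mul_le (x0 - c.1 - 1) hM'.ne'
      have h4 := Int.lt_ediv_add_one_mul_self (x0 - c.1 - 1) hM'
      rw [Int.toNat_of_nonneg h0]
      constructor <;> linarith
    · have : (pix τ c.2 : ℤ) ≤ (x0 - c.1 - 1) / (M : ℤ) :=
        Int.le_ediv_of_mul_le hM' (by linarith)
      omega

/-- the last plate of a row -/
lemma chn_last {x0 : ℤ} {M τ : ℕ} (hM : 0 < M) (y : ℤ) :
    chn x0 M τ (x0 - pix τ y * M - 1, y) = some (pix τ y) := by
  have hM' : (0 : ℤ) < M := by exact_mod_cast hM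
  rw [chn_some hM]
  refine ⟨⟨?_, ?_⟩, le_rfl⟩
  · simp only
    linarith
  · simp only
    linarith

/-- the floor of the room above the row `y`, resp. the ceiling below it: the plate `pix τ y` -/
lemma chn_run {x0 : ℤ} {M τ : ℕ} (hM : 0 < M) {y x : ℤ} (h1 : x0 - (pix τ y + 1) * M ≤ x)
    (h2 : x < x0 - pix τ y * M) : chn x0 M τ (x, y) = some (pix τ y) :=
  (chn_some hM).2 ⟨⟨h1, h2⟩, le_rfl⟩

section Box

variable (b : JBox)

/-- half of the number of rows -/
def Ht : ℤ := b.H + b.K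

/-- number of plates -/
def nP : ℕ := b.X / b.M

/-- left end of a row at distance `d` of the line of the slit -/
def ArD (d : ℤ) : ℤ :=
  if d < b.H then (if (d - b.τ + 1).toNat < nP b then -(((d - b.τ + 1).toNat : ℤ) * b.M) else -b.X)
  else b.st (d - b.H).toNat

/-- left end of the row `y` of the room -/
def Ar (y : ℤ) : ℤ := ArD b (dst y)

/-- the colour at the left end of a row at distance `d`; `c` : plates, `u` : segments of the wall -/
def clD (c u : ℕ → Bool) (d : ℤ) : Bool :=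
  if d < b.H then (if (d - b.τ + 1).toNat < nP b then c (d - b.τ + 1).toNat else u 0)
  else u (d - b.H).toNat

/-- the colour at the left of the row `y`; `u` : above the slit, `l` : below the slit -/
def clJ (c : Bool → ℕ → Bool) (u l : ℕ → Bool) (y : ℤ) : Bool :=
  clD b (c (decide (0 ≤ y))) (if 0 ≤ y then u else l) (dst y)

variable {b} {δ σ : ℝ}

lemma Ar_neg (y : ℤ) : Ar b (-1 - y) = Ar b y := by unfold Ar; rw [dst_neg]

lemma clJ_neg (c : Bool → ℕ → Bool) (u l : ℕ → Bool) (y : ℤ) :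
    clJ b (fun s => c (!s)) l u (-1 - y) = clJ b c u l y := by
  unfold clJ
  rw [dst_neg]
  by_cases h : 0 ≤ y
  · have h' : ¬ 0 ≤ -1 - y := by omega
    rw [if_neg h', if_pos h, decide_eq_true h, decide_eq_false h']
    rfl
  · have h' : 0 ≤ -1 - y := by omega
    rw [if_pos h', if_neg h, decide_eq_false h, decide_eq_true h']
    rfl

lemma X_eq (hb : b.Ok δ σ) : (b.X : ℤ) = nP b * b.M := by
  have := Nat.div_mul_cancel hb.dvd
  unfold nP
  exact_mod_cast this.symm

lemma X_pos (hb : b.Ok δ σ) : 0 < b.X := by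
  have h1 := hb.X_ge
  have hH : (0 : ℝ) < b.H := by exact_mod_cast hb.H0
  by_contra h
  have h0 : b.X = 0 := by omega
  rw [h0] at h1
  simp only [Nat.cast_zero, mul_zero] at h1
  linarith

lemma nP_pos (hb : b.Ok δ σ) : 0 < nP b := by
  have h1 := X_eq hb
  have h2 := X_pos hb
  by_contra h
  have h0 : nP b = 0 := by omega
  rw [h0] at h1
  simp at h1
  omega

/-- the slit is thinner than half of the box -/
lemma thick (hb : b.Ok δ σ) (hd : δ ≤ 1) : (b.τ : ℤ) + nP b ≤ b.M ∧ b.M ≤ b.H := by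
  have h1 := hb.τ_le
  have h2 := hb.M_le
  have hH : (0 : ℝ) < b.H := by exact_mod_cast hb.H0
  have hM : (0 : ℝ) < b.M := by exact_mod_cast hb.M0
  have h3 : (b.X : ℝ) / b.M = nP b := by
    rw [div_eq_iff hM.ne']
    have := X_eq hb
    exact_mod_cast this
  rw [h3] at h1
  have h4 : (b.M : ℝ) ≤ b.H := by nlinarith
  have h5 : 64 * (b.τ + nP b) ≤ b.M := by exact_mod_cast h1
  exact ⟨by omega, by exact_mod_cast h4⟩

lemma ArD_slit {d : ℤ} (h1 : d < b.H) (h2 : (d - b.τ + 1).toNat < nP b) :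
    ArD b d = -(((d - b.τ + 1).toNat : ℤ) * b.M) := by unfold ArD; rw [if_pos h1, if_pos h2]

lemma ArD_wall {d : ℤ} (h1 : d < b.H) (h2 : nP b ≤ (d - b.τ + 1).toNat) : ArD b d = -b.X := by
  unfold ArD; rw [if_pos h1, if_neg (by omega)]

lemma ArD_step {d : ℤ} (h1 : b.H ≤ d) : ArD b d = b.st (d - b.H).toNat := by
  unfold ArD; rw [if_neg (by omega)]

lemma clD_slit {c u : ℕ → Bool} {d : ℤ} (h1 : d < b.H) (h2 : (d - b.τ + 1).toNat < nP b) :
    clD b c u d = c (d - b.τ + 1).toNat := by unfold clD; rw [if_pos h1, if_pos h2]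

lemma clD_wall {c u : ℕ → Bool} {d : ℤ} (h1 : d < b.H) (h2 : nP b ≤ (d - b.τ + 1).toNat) :
    clD b c u d = u 0 := by
  unfold clD; rw [if_pos h1, if_neg (by omega)]

lemma clD_step {c u : ℕ → Bool} {d : ℤ} (h1 : b.H ≤ d) : clD b c u d = u (d - b.H).toNat := by
  unfold clD; rw [if_neg (by omega)]

/-- the two cases of a row below `H` -/
lemma ArD_le (hb : b.Ok δ σ) (hd : δ ≤ 1) {d : ℤ} (h0 : 0 ≤ d) (h1 : d < b.H) :
    ((d - b.τ + 1).toNat < nP b ∧ ArD b d = -(((d - b.τ + 1).toNat : ℤ) * b.M) ∧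
      (((d - b.τ + 1).toNat : ℤ) + 1) * b.M ≤ b.X) ∨
    (nP b ≤ (d - b.τ + 1).toNat ∧ ArD b d = -b.X) := by
  have hM : (0 : ℤ) < b.M := by exact_mod_cast hb.M0
  rcases lt_or_ge (d - b.τ + 1).toNat (nP b) with h2 | h2
  · left
    refine ⟨h2, ArD_slit h1 h2, ?_⟩
    rw [X_eq hb]
    exact mul_le_mul_of_nonneg_right (by exact_mod_cast h2) hM.le
  · right
    exact ⟨h2, ArD_wall h1 h2⟩

/-- **Two neighbouring rows at the distances `d`, `d + 1`**: same wall; gap between the plates `k`, `k + 1`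
(or between the last plate and the wall); ceiling; step. -/
theorem row_cases (hb : b.Ok δ σ) (hd : δ ≤ 1) {d : ℤ} (h0 : 0 ≤ d) (h1 : d + 1 < Ht b) :
    (d + 1 < b.H ∧ ArD b (d + 1) = ArD b d ∧ ∀ c u, clD b c u (d + 1) = clD b c u d) ∨
    (∃ k : ℕ, k < nP b ∧ d + 1 = b.τ + k ∧ d + 1 < b.H ∧ ArD b d = -((k : ℤ) * b.M) ∧
      ArD b (d + 1) = -(((k : ℤ) + 1) * b.M) ∧ (∀ c u, clD b c u d = c k) ∧
      ∀ c u, clD b c u (d + 1) = if k + 1 < nP b then c (k + 1) else u 0) ∨
    (d + 1 = b.H ∧ 0 < b.K ∧ ArD b d = -b.X ∧ ArD b (d + 1) = b.st 0 ∧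
      (∀ c u, clD b c u d = u 0) ∧ ∀ c u, clD b c u (d + 1) = u 0) ∨
    (∃ i : ℕ, i + 1 < b.K ∧ d = b.H + i ∧ ArD b d = b.st i ∧ ArD b (d + 1) = b.st (i + 1) ∧
      (∀ c u, clD b c u d = u i) ∧ ∀ c u, clD b c u (d + 1) = u (i + 1)) := by
  have hM : (0 : ℤ) < b.M := by exact_mod_cast hb.M0
  have hX := X_eq hb
  have hP := nP_pos hb
  have ht := thick hb hd
  have hτ : (0 : ℤ) < b.τ := by exact_mod_cast hb.τ0
  unfold Ht at h1
  rcases lt_trichotomy (d + 1) (b.H : ℤ) with g1 | g1 | g1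
  · rcases lt_or_ge (d - b.τ + 1).toNat (nP b) with g2 | g2
    · rcases lt_or_ge (d + 1) (b.τ : ℤ) with g3 | g3
      · -- beside the plate `0`
        left
        have e0 : (d - b.τ + 1).toNat = 0 := by omega
        have e1 : (d + 1 - b.τ + 1).toNat = 0 := by omega
        refine ⟨g1, ?_, fun c u => ?_⟩
        · rw [ArD_slit g1 (by omega), ArD_slit (by omega) g2, e0, e1]
        · rw [clD_slit g1 (by omega), clD_slit (by omega) g2, e0, e1]
      · right; left
        obtain ⟨k, hk⟩ : ∃ k : ℕ, (k : ℤ) = d - b.τ + 1 := ⟨(d - b.τ + 1).toNat, by omega⟩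
        have e0 : (d - b.τ + 1).toNat = k := by omega
        have e1 : (d + 1 - b.τ + 1).toNat = k + 1 := by omega
        rw [e0] at g2
        refine ⟨k, g2, by omega, g1, ?_, ?_, fun c u => ?_, fun c u => ?_⟩
        · rw [ArD_slit (by omega) (by omega), e0]
        · rcases lt_or_ge (k + 1) (nP b) with g4 | g4
          · rw [ArD_slit g1 (by omega), e1]
            push_cast; ring
          · rw [ArD_wall g1 (by omega)]
            have : nP b = k + 1 := by omega
            rw [hX, this]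
            push_cast; ring
        · rw [clD_slit (by omega) (by omega), e0]
        · rcases lt_or_ge (k + 1) (nP b) with g4 | g4
          · rw [clD_slit g1 (by omega), e1, if_pos g4]
          · rw [clD_wall g1 (by omega), if_neg (by omega)]
    · left
      refine ⟨g1, ?_, fun c u => ?_⟩
      · rw [ArD_wall g1 (by omega), ArD_wall (by omega) g2]
      · rw [clD_wall g1 (by omega), clD_wall (by omega) g2]
  · right; right; left
    have e0 : nP b ≤ (d - b.τ + 1).toNat := by omega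
    have e1 : (d + 1 - b.H).toNat = 0 := by omega
    refine ⟨g1, by omega, ArD_wall (by omega) e0, ?_, fun c u => ?_, fun c u => ?_⟩
    · rw [ArD_step (by omega), e1]
    · rw [clD_wall (by omega) e0]
    · rw [clD_step (by omega), e1]
  · right; right; right
    obtain ⟨i, hi⟩ : ∃ i : ℕ, (i : ℤ) = d - b.H := ⟨(d - b.H).toNat, by omega⟩
    have e0 : (d - b.H).toNat = i := by omega
    have e1 : (d + 1 - b.H).toNat = i + 1 := by omega
    refine ⟨i, by omega, by omega, ?_, ?_, fun c u => ?_, fun c u => ?_⟩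
    · rw [ArD_step (by omega), e0]
    · rw [ArD_step (by omega), e1]
    · rw [clD_step (by omega), e0]
    · rw [clD_step (by omega), e1]

lemma Ar_lt (hb : b.Ok δ σ) {y : ℤ} (hy : dst y < Ht b) : Ar b y < b.X := by
  have hX : (0 : ℤ) < b.X := by exact_mod_cast X_pos hb
  unfold Ar ArD
  split_ifs with h1 h2
  · have : (0 : ℤ) ≤ ((dst y - b.τ + 1).toNat : ℤ) * b.M := by positivity
    linarith
  · linarith
  · exact (hb.st_lo _ (by unfold Ht at hy; omega)).2

lemma Ar_ge (hb : b.Ok δ σ) {y : ℤ} (hy : dst y < Ht b) : -(b.X : ℤ) ≤ Ar b y := by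
  have hX := X_eq hb
  have hM : (0 : ℤ) < b.M := by exact_mod_cast hb.M0
  unfold Ar ArD
  split_ifs with h1 h2
  · have h3 : ((dst y - b.τ + 1).toNat : ℤ) + 1 ≤ nP b := by exact_mod_cast h2
    nlinarith
  · exact le_rfl
  · exact (hb.st_lo _ (by unfold Ht at hy; omega)).1.le

lemma mem_Q (hb : b.Ok δ σ) {x y : ℤ} : (x, y) ∈ b.Q ↔ dst y < Ht b ∧ x < b.X ∧
    (if dst y < b.H then -(b.X : ℤ) ≤ x else b.st (dst y - b.H).toNat ≤ x) := by
  unfold JBox.Q Pool.Agent.H6.W.RC
  simp only [mem_union, mem_biUnion, mem_product, mem_Ico, mem_range]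
  unfold Ht
  constructor
  · rintro (⟨⟨h1, h2⟩, h3, h4⟩ | ⟨i, hi, ⟨⟨h1, h2⟩, h3, h4⟩ | ⟨⟨h1, h2⟩, h3, h4⟩⟩)
    · have h5 : dst y < b.H := dst_lt.2 ⟨h3, h4⟩
      rw [if_pos h5]
      exact ⟨by omega, h2, h1⟩
    · have h5 : dst y = b.H + i := by unfold dst; split_ifs <;> omega
      rw [if_neg (by omega), h5]
      refine ⟨by omega, h2, ?_⟩
      rw [show ((b.H : ℤ) + i - b.H).toNat = i by omega]
      exact h1
    · have h5 : dst y = b.H + i := by unfold dst; split_ifs <;> omega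
      rw [if_neg (by omega), h5]
      refine ⟨by omega, h2, ?_⟩
      rw [show ((b.H : ℤ) + i - b.H).toNat = i by omega]
      exact h1
  · rintro ⟨h1, h2, h3⟩
    by_cases h5 : dst y < b.H
    · rw [if_pos h5] at h3
      left
      obtain ⟨h6, h7⟩ := dst_lt.1 h5
      exact ⟨⟨h3, h2⟩, h6, h7⟩
    · rw [if_neg h5] at h3
      right
      refine ⟨(dst y - b.H).toNat, by omega, ?_⟩
      unfold dst at h1 h3 h5 ⊢
      split_ifs at h1 h3 h5 ⊢ with h6
      · left
        exact ⟨⟨h3, h2⟩, by omega, by omega⟩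
      · right
        exact ⟨⟨h3, h2⟩, by omega, by omega⟩

/-- **The room**: cells of the box which are in no plate. -/
theorem mem_room (hb : b.Ok δ σ) (hd : δ ≤ 1) {x y : ℤ} :
    ((x, y) ∈ b.Q ∧ chn 0 b.M b.τ (x, y) = none) ↔ dst y < Ht b ∧ Ar b y ≤ x ∧ x < b.X := by
  have hM : (0 : ℤ) < b.M := by exact_mod_cast hb.M0
  have hX := X_eq hb
  have ht := thick hb hd
  have h0 : chn 0 b.M b.τ (x, y) = none ↔ -(((dst y - b.τ + 1).toNat : ℤ) * b.M) ≤ x := by
    rw [← not_iff_not]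
    have := chn_iff (x0 := 0) (τ := b.τ) hb.M0 (c := (x, y))
    rw [← ne_eq, this]
    simp only [zero_sub, not_le]
    rfl
  rw [mem_Q hb, h0]
  unfold Ar ArD
  by_cases h1 : dst y < b.H
  · rw [if_pos h1, if_pos h1]
    by_cases h2 : (dst y - b.τ + 1).toNat < nP b
    · rw [if_pos h2]
      have h3 : ((dst y - b.τ + 1).toNat : ℤ) + 1 ≤ nP b := by exact_mod_cast h2
      have h4 : -(b.X : ℤ) ≤ -(((dst y - b.τ + 1).toNat : ℤ) * b.M) := by nlinarith
      constructor
      · rintro ⟨⟨k1, k2, k3⟩, k4⟩; exact ⟨k1, k4, k2⟩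
      · rintro ⟨k1, k4, k2⟩; exact ⟨⟨k1, k2, by linarith⟩, k4⟩
    · rw [if_neg h2]
      have h3 : (nP b : ℤ) ≤ (dst y - b.τ + 1).toNat := by exact_mod_cast (not_lt.1 h2)
      have h4 : -(((dst y - b.τ + 1).toNat : ℤ) * b.M) ≤ -(b.X : ℤ) := by nlinarith
      constructor
      · rintro ⟨⟨k1, k2, k3⟩, k4⟩; exact ⟨k1, k3, k2⟩
      · rintro ⟨k1, k3, k2⟩; exact ⟨⟨k1, k2, k3⟩, by linarith⟩
  · rw [if_neg h1, if_neg h1]
    have h3 : (nP b : ℤ) ≤ (dst y - b.τ + 1).toNat := by omega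
    have h4 : -(((dst y - b.τ + 1).toNat : ℤ) * b.M) ≤ -(b.X : ℤ) := by nlinarith
    constructor
    · rintro ⟨⟨k1, k2, k3⟩, k4⟩; exact ⟨k1, k3, k2⟩
    · rintro ⟨k1, k3, k2⟩
      refine ⟨⟨k1, k2, k3⟩, ?_⟩
      have := (hb.st_lo (dst y - b.H).toNat (by unfold Ht at k1; omega)).1
      linarith

/-- the cells of a row to the left of the room -/
theorem left_room (hb : b.Ok δ σ) (hd : δ ≤ 1) {x y : ℤ} (hy : dst y < b.H)
    (hp : (dst y - b.τ + 1).toNat < nP b) (hx : -(((dst y - b.τ + 1).toNat + 1 : ℤ) * b.M) ≤ x)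
    (hx2 : x < Ar b y) : chn 0 b.M b.τ (x, y) = some (dst y - b.τ + 1).toNat := by
  refine chn_run hb.M0 (y := y) ?_ ?_
  · rw [zero_sub]; exact hx
  · unfold Ar at hx2
    rw [ArD_slit hy hp] at hx2
    rw [zero_sub]
    exact hx2

end Box

end Pool.Agent.H21.W
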