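import Mathlib
import Pool.Agent.H21.W.JRoom

set_option autoImplicit false
open Finset

/-! # Coarse data of the room of the junction box

Rows `0 ≤ Y < HJ b = 2 (H + K)`, the row `Y` is `AJ b Y ≤ X' < b.X`, the colour at its left is
`CLJ b c u l Y`. The true row of the box is `Y - Ht b`. -/

namespace Pool.Agent.H21.W

open Pool.Agent.H6.W Pool.Agent.Q1.M4

variable {b : JBox} {δ σ : ℝ} {c : Bool → ℕ → Bool} {u l : ℕ → Bool} {y Y : ℤ}

/-- neighbouring rows with the same left end have the same colour -/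
lemma clJ_wall (hb : b.Ok δ σ) (hd : δ ≤ 1) (hc : c true 0 = c false 0) (h0 : dst y < Ht b) (h1 : dst (y + 1) < Ht b)
    (he : Ar b y = Ar b (y + 1)) : clJ b c u l y = clJ b c u l (y + 1) := by
  have hM : (0 : ℤ) < b.M := by exact_mod_cast hb.M0
  -- distances `d`, `d + 1` on one side
  have key : ∀ d : ℤ, 0 ≤ d → d + 1 < Ht b → ArD b (d + 1) = ArD b d → ∀ c v : ℕ → Bool,
      clD b c v (d + 1) = clD b c v d := by
    intro d h0 h1 he c v
    rcases row_cases hb hd h0 h1 with ⟨-, -, h⟩ | ⟨k, h2, h3, h4, h5, h6, -⟩ |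
      ⟨h2, h3, h4, h5, -⟩ | ⟨i, h2, h3, h4, h5, -⟩
    · exact h c v
    · exfalso
      rw [h5, h6] at he
      have : ((k : ℤ) + 1) * b.M = k * b.M + b.M := by ring
      omega
    · exfalso
      have := (hb.st_lo 0 h3).1
      omega
    · exfalso
      have := hb.st_mono i h2
      omega
  rcases lt_trichotomy y (-1) with hy | hy | hy
  · have e0 : dst y = dst (y + 1) + 1 := by unfold dst; split_ifs <;> omega
    unfold clJ
    unfold Ar at he
    rw [e0] at he ⊢
    rw [if_neg (by omega), if_neg (by omega), decide_eq_false (by omega), decide_eq_false (by omega)]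
    exact key _ (dst_nonneg _) (by omega) he _ _
  · subst hy
    have d0 : dst (-1) = 0 := by unfold dst; simp
    have d1 : dst (-1 + 1) = 0 := by unfold dst; simp
    have hH : (0 : ℤ) < b.H := by exact_mod_cast hb.H0
    have hτ : (0 : ℤ) < b.τ := by exact_mod_cast hb.τ0
    have hP := nP_pos hb
    have e0 : ((0 : ℤ) - b.τ + 1).toNat = 0 := by omega
    unfold clJ
    rw [d0, d1, clD_slit hH (by omega), clD_slit hH (by omega), e0]
    simp [hc]
  · have e0 : dst (y + 1) = dst y + 1 := by unfold dst; split_ifs <;> omega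
    unfold clJ
    unfold Ar at he
    rw [e0] at he ⊢
    rw [if_pos (by omega), if_pos (by omega), decide_eq_true (by omega), decide_eq_true (by omega)]
    exact (key _ (dst_nonneg _) (by omega) he.symm _ _).symm

variable (b) in
/-- number of rows -/
def HJ : ℤ := 2 * Ht b

variable (b) in
/-- left end of the row `Y` -/
def AJ (Y : ℤ) : ℤ := Ar b (Y - Ht b)

variable (b) in
/-- colour at the left of the row `Y` -/
def CLJ (c : Bool → ℕ → Bool) (u l : ℕ → Bool) (Y : ℤ) : Bool := clJ b c u l (Y - Ht b)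

lemma Ht_pos (hb : b.Ok δ σ) : 0 < Ht b := by
  have := hb.H0
  unfold Ht
  omega

lemma HJ_pos (hb : b.Ok δ σ) : 0 < HJ b := by
  have := Ht_pos hb
  unfold HJ
  omega

lemma dst_J : dst (Y - Ht b) < Ht b ↔ 0 ≤ Y ∧ Y < HJ b := by
  rw [dst_lt]
  unfold HJ
  constructor <;> rintro ⟨h1, h2⟩ <;> constructor <;> omega

lemma AJ_lt (hb : b.Ok δ σ) (h0 : 0 ≤ Y) (h1 : Y < HJ b) : AJ b Y < b.X :=
  Ar_lt hb (dst_J.2 ⟨h0, h1⟩)

lemma AJ_ge (hb : b.Ok δ σ) (h0 : 0 ≤ Y) (h1 : Y < HJ b) : -(b.X : ℤ) ≤ AJ b Y :=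
  Ar_ge hb (dst_J.2 ⟨h0, h1⟩)

lemma CLJ_wall (hb : b.Ok δ σ) (hd : δ ≤ 1) (hc : c true 0 = c false 0) (h0 : 0 ≤ Y) (h1 : Y + 1 < HJ b)
    (he : AJ b Y = AJ b (Y + 1)) : CLJ b c u l Y = CLJ b c u l (Y + 1) := by
  unfold AJ CLJ at *
  have e : Y + 1 - Ht b = Y - Ht b + 1 := by ring
  rw [e] at he ⊢
  refine clJ_wall hb hd hc (dst_J.2 ⟨h0, by omega⟩) ?_ he
  rw [← e]
  exact dst_J.2 ⟨by omega, h1⟩

/-- the room, with the rows counted from below -/
theorem mem_roomJ (hb : b.Ok δ σ) (hd : δ ≤ 1) {x : ℤ} :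
    ((x, y) ∈ b.Q ∧ chn 0 b.M b.τ (x, y) = none) ↔
      (0 ≤ y + Ht b ∧ y + Ht b < HJ b) ∧ AJ b (y + Ht b) ≤ x ∧ x < b.X := by
  rw [mem_room hb hd, ← dst_J]
  unfold AJ
  rw [add_sub_cancel_right]

/-- the colour of the last row: the top step, resp. the left wall -/
lemma CLJ_top (hK : 0 < b.K) : CLJ b c u l (HJ b - 1) = u (b.K - 1) := by
  unfold CLJ clJ HJ
  have e : 2 * Ht b - 1 - Ht b = Ht b - 1 := by ring
  have hH : 0 < Ht b := by unfold Ht; omega
  rw [e, if_pos (by omega)]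
  have d : dst (Ht b - 1) = Ht b - 1 := by unfold dst; rw [if_pos (by omega)]
  rw [d, clD_step (by unfold Ht; omega)]
  congr 1
  unfold Ht
  omega

lemma CLJ_bot (hK : 0 < b.K) : CLJ b c u l 0 = l (b.K - 1) := by
  unfold CLJ clJ
  have hH : 0 < Ht b := by unfold Ht; omega
  rw [if_neg (by omega)]
  have d : dst (0 - Ht b) = Ht b - 1 := by unfold dst; rw [if_neg (by omega)]; ring
  rw [d, clD_step (by unfold Ht; omega)]
  congr 1
  unfold Ht
  omega

end Pool.Agent.H21.W
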