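import Mathlib
import Pool.Agent.H21.W.JCoarse
import Pool.Agent.H21.W.RoomIn
import Pool.Agent.H61.W.JWorld

set_option autoImplicit false
open Finset

/-! # The room of the junction box in the worlds of helper61

`cdJ` : coarse data (54's `CD`) of the room, for plate colours `c` (`c true i` : upper half of the plate `i`,
`c false i` : lower half) and colours `u`, `l` of the segments of the wall. `JW` : what a world must satisfy
(tiles of the room free, plates and outer layer in their colours). `roomIn_J` : such a world contains the room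
(`RoomIn`), moved by `- n (H + K)` rows. -/

namespace Pool.Agent.H21.W

open Pool.Agent.H75.Perc Pool.Agent.H13.W Pool.Agent.H33.Q1
open Pool.Agent.H6.W Pool.Agent.Q1.M4 Pool.Agent.H61.W
open Pool.Agent.H54.W (CD)

variable {b : JBox} {δ σ : ℝ} {n x y Y : ℤ} {c : Bool → ℕ → Bool} {u l : ℕ → Bool} {cl : Cl}

variable (b) in
/-- **Coarse data of the room of the junction box.** -/
def cdJ (c : Bool → ℕ → Bool) (u l : ℕ → Bool) (hb : b.Ok δ σ) (hd : δ ≤ 1)
    (hc : c true 0 = c false 0) : CD where
  H := HJ b
  W := b.X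
  LO := -b.X
  A := AJ b
  CL := CLJ b c u l
  CB := l b.K
  CT := u b.K
  H0 := HJ_pos hb
  AW _ h0 h1 := AJ_lt hb h0 h1
  lo _ h0 h1 := AJ_ge hb h0 h1
  sc _ h0 h1 he := CLJ_wall hb hd hc h0 h1 he

/-- colour of a solid tile outside of the room -/
def fillR (b : JBox) (n : ℤ) (c : Bool → ℕ → Bool) (cl : Cl) (x y : ℤ) : Bool :=
  if y < -(n * Ht b) then cl.l b.K else if n * Ht b ≤ y then cl.u b.K
  else if x < n * Ar b (y / n) then clJ b c cl.u cl.l (y / n) else cl.cr y

/-- colour of a solid tile of the world -/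
def SolidC (b : JBox) (n : ℤ) (c : Bool → ℕ → Bool) (cl : Cl) (x y : ℤ) (t : Bool) : Prop :=
  (InQ b n x y → ∃ i, chn 0 b.M b.τ (x / n, y / n) = some i ∧ t = c (decide (0 ≤ y)) i) ∧
    (¬ InQ b n x y → t = lcol b n cl x y)

section

variable (hb : b.Ok δ σ) (hd : δ ≤ 1) (hn : 0 < n)

include hn in
lemma dst_rows : dst (y / n) < Ht b ↔ -(n * Ht b) ≤ y ∧ y < n * Ht b := by
  rw [dst_lt, Int.le_ediv_iff_mul_le hn, Int.ediv_lt_iff_lt_mul hn, neg_mul, mul_comm]

include hn in
lemma nonneg_div : 0 ≤ y / n ↔ 0 ≤ y := by rw [Int.le_ediv_iff_mul_le hn, zero_mul]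

include hn in
lemma neg_div : (-y - 1) / n = -1 - y / n := by
  have e1 := Int.emod_add_mul_ediv y n
  have e2 := Int.emod_nonneg y hn.ne'
  have e3 := Int.emod_lt_of_pos y hn
  apply le_antisymm
  · have : -y - 1 < (-1 - y / n + 1) * n := by nlinarith
    have := (Int.ediv_lt_iff_lt_mul hn).2 this
    omega
  · rw [Int.le_ediv_iff_mul_le hn]
    nlinarith

include hb hd hn

/-- the tiles of the room -/
theorem inR_iff : InR b n x y ↔ dst (y / n) < Ht b ∧ n * Ar b (y / n) ≤ x ∧ x < n * b.X := by
  unfold InR InQ
  rw [mem_room hb hd, Int.le_ediv_iff_mul_le hn, Int.ediv_lt_iff_lt_mul hn, mul_comm,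
    mul_comm n (b.X : ℤ)]

omit hd in
/-- the tiles of the box -/
theorem inQ_iff : InQ b n x y ↔ dst (y / n) < Ht b ∧ x < n * b.X ∧
    (if dst (y / n) < b.H then -(n * b.X : ℤ) ≤ x else n * b.st (dst (y / n) - b.H).toNat ≤ x) := by
  unfold InQ
  rw [mem_Q hb, Int.ediv_lt_iff_lt_mul hn, mul_comm n (b.X : ℤ)]
  split_ifs
  · rw [Int.le_ediv_iff_mul_le hn, neg_mul, mul_comm (b.X : ℤ)]
  · rw [Int.le_ediv_iff_mul_le hn, mul_comm n]

omit hb hd in
lemma lcol_row (hx : x < n * b.X) : lcol b n cl x y =
    if 0 ≤ y / n then cl.u (min b.K (y / n - b.H).toNat) else cl.l (min b.K (-1 - y / n - b.H).toNat) := by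
  unfold lcol
  rw [if_neg (by rw [mul_comm]; omega), neg_div hn]
  by_cases h : 0 ≤ y
  · rw [if_pos h, if_pos ((nonneg_div hn).2 h)]
  · rw [if_neg h, if_neg (fun h' => h ((nonneg_div hn).1 h'))]

omit hb hd hn in
lemma dst_pos {Y : ℤ} (h : 0 ≤ Y) : dst Y = Y := by unfold dst; rw [if_pos h]

omit hb hd hn in
lemma dst_npos {Y : ℤ} (h : ¬ 0 ≤ Y) : dst Y = -1 - Y := by unfold dst; rw [if_neg h]

/-- the colour of a tile at the left of the room, in the last plate of the row or in the outer layer -/
lemma left_col (hy : dst (y / n) < Ht b) (hx : x < n * Ar b (y / n))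
    (hx2 : dst (y / n) < b.H → (dst (y / n) - b.τ + 1).toNat < nP b →
      -(n * ((((dst (y / n) - b.τ + 1).toNat : ℤ) + 1) * b.M)) ≤ x) :
    SolidC b n c cl x y (clJ b c cl.u cl.l (y / n)) := by
  have hX := X_eq hb
  have hM : (0 : ℤ) < b.M := by exact_mod_cast hb.M0
  have hXp : (0 : ℤ) < b.X := by exact_mod_cast X_pos hb
  have hAX := Ar_lt hb hy
  have hxX : x < n * b.X := by nlinarith
  have hs : decide (0 ≤ y / n) = decide (0 ≤ y) := by
    by_cases h : 0 ≤ y
    · rw [decide_eq_true h, decide_eq_true ((nonneg_div hn).2 h)]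
    · rw [decide_eq_false h, decide_eq_false (fun h' => h ((nonneg_div hn).1 h'))]
  rcases lt_or_ge (dst (y / n)) (b.H : ℤ) with h1 | h1
  · rcases lt_or_ge (dst (y / n) - b.τ + 1).toNat (nP b) with h2 | h2
    · have hx3 := hx2 h1 h2
      have hA : Ar b (y / n) = -(((dst (y / n) - b.τ + 1).toNat : ℤ) * b.M) := by
        unfold Ar; rw [ArD_slit h1 h2]
      have hkX : (((dst (y / n) - b.τ + 1).toNat : ℤ) + 1) * b.M ≤ b.X := by
        rw [hX]
        exact mul_le_mul_of_nonneg_right (by exact_mod_cast h2) hM.le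
      have hQ : InQ b n x y := by
        rw [inQ_iff hb hn, if_pos h1]
        refine ⟨hy, hxX, ?_⟩
        have := mul_le_mul_of_nonneg_left hkX hn.le
        linarith
      refine ⟨fun _ => ⟨(dst (y / n) - b.τ + 1).toNat, ?_, ?_⟩, fun h => absurd hQ h⟩
      · refine chn_run (y := y / n) (τ := b.τ) hb.M0 ?_ ?_
        · rw [zero_sub, Int.le_ediv_iff_mul_le hn]
          have e : pix b.τ (y / n) = (dst (y / n) - b.τ + 1).toNat := rfl
          rw [e]
          linarith
        · rw [zero_sub, Int.ediv_lt_iff_lt_mul hn]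
          have e : pix b.τ (y / n) = (dst (y / n) - b.τ + 1).toNat := rfl
          rw [e]
          rw [hA] at hx
          linarith
      · unfold clJ
        rw [clD_slit h1 h2, hs]
    · have hA : Ar b (y / n) = -b.X := by unfold Ar; rw [ArD_wall h1 h2]
      have hQ : ¬ InQ b n x y := by
        rw [inQ_iff hb hn, if_pos h1]
        rintro ⟨-, -, h3⟩
        rw [hA] at hx
        linarith
      refine ⟨fun h => absurd h hQ, fun _ => ?_⟩
      rw [lcol_row hn hxX]
      unfold clJ
      rw [clD_wall h1 h2]
      split_ifs with h6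
      · rw [dst_pos h6] at h1
        have : (y / n - b.H).toNat = 0 := by omega
        rw [this, Nat.min_zero]
      · rw [dst_npos h6] at h1
        have : (-1 - y / n - b.H).toNat = 0 := by omega
        rw [this, Nat.min_zero]
  · have hA : Ar b (y / n) = b.st (dst (y / n) - b.H).toNat := by
      unfold Ar; rw [ArD_step h1]
    have hQ : ¬ InQ b n x y := by
      rw [inQ_iff hb hn, if_neg (by omega)]
      rintro ⟨-, -, h3⟩
      rw [hA] at hx
      omega
    refine ⟨fun h => absurd h hQ, fun _ => ?_⟩
    rw [lcol_row hn hxX]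
    unfold clJ
    rw [clD_step h1]
    unfold Ht at hy
    split_ifs with h6
    · rw [dst_pos h6] at h1 hy ⊢
      have : min b.K (y / n - b.H).toNat = (y / n - b.H).toNat := by omega
      rw [this]
    · rw [dst_npos h6] at h1 hy ⊢
      have : min b.K (-1 - y / n - b.H).toNat = (-1 - y / n - b.H).toNat := by omega
      rw [this]

omit hn in
/-- a drop beside the slit -/
lemma drop_slit {Y Y' : ℤ} (h1 : dst Y < b.H) (h2 : (dst Y - b.τ + 1).toNat < nP b)
    (hY : dst Y' < Ht b) (hj : Y' = Y + 1 ∨ Y' = Y - 1) (hA : Ar b Y' < Ar b Y) :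
    Ar b Y' = -((((dst Y - b.τ + 1).toNat : ℤ) + 1) * b.M) ∧
      clJ b c u l Y' = if (dst Y - b.τ + 1).toNat + 1 < nP b
        then c (decide (0 ≤ Y)) ((dst Y - b.τ + 1).toNat + 1) else if 0 ≤ Y then u 0 else l 0 := by
  have hM : (0 : ℤ) < b.M := by exact_mod_cast hb.M0
  have ht := thick hb hd
  have hd3 : (dst Y' = dst Y + 1 ∧ (0 ≤ Y' ↔ 0 ≤ Y)) ∨ dst Y' = dst Y ∨ dst Y' = dst Y - 1 := by
    unfold dst; split_ifs <;> omega
  unfold Ar at hA ⊢
  rcases hd3 with ⟨h3, h4⟩ | h3 | h3
  · rw [h3] at hA ⊢
    have h0 := dst_nonneg Y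
    have hY' : dst Y + 1 < Ht b := by omega
    rcases row_cases hb hd h0 hY' with ⟨-, h, -⟩ | ⟨k, g1, g2, g3, g4, g5, g6, g7⟩ |
      ⟨g1, -⟩ | ⟨i, g1, g2, -⟩
    · omega
    · have e : (dst Y - b.τ + 1).toNat = k := by omega
      rw [e]
      refine ⟨g5, ?_⟩
      unfold clJ
      rw [h3, g7]
      have hdec : decide (0 ≤ Y') = decide (0 ≤ Y) := by simp only [h4]
      rw [hdec]
      simp only [h4]
      split_ifs <;> rfl
    · omega
    · omega
  · rw [h3] at hA; omega
  · rw [h3] at hA
    have h0 := dst_nonneg Y'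
    rw [h3] at h0
    have h5 : dst Y - 1 + 1 < Ht b := by unfold Ht; omega
    have := row_cases hb hd h0 h5
    rw [sub_add_cancel] at this
    rcases this with ⟨-, h, -⟩ | ⟨k, g1, g2, g3, g4, g5, g6, g7⟩ | ⟨g1, -⟩ | ⟨i, g1, g2, -⟩
    · omega
    · rw [g4, g5] at hA
      have : ((k : ℤ) + 1) * b.M = k * b.M + b.M := by ring
      omega
    · omega
    · omega

end

/-! ### The tiles around the room -/

section around

variable (hb : b.Ok δ σ) (hd : δ ≤ 1) (hn : 0 < n) (hc : c true 0 = c false 0)

omit n in
lemma div_Ht {n y k : ℤ} (hn : 0 < n) : (y + n * k) / n = y / n + k :=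
  Int.add_mul_ediv_left y k hn.ne'

include hn in
/-- the tiles of the room in the coordinates of the coarse data -/
lemma rp_iff : RP (cdJ b c u l hb hd hc) n x (y + n * Ht b) ↔ InR b n x y := by
  rw [inR_iff hb hd hn, dst_rows hn]
  unfold RP cdJ
  simp only
  rw [div_Ht hn]
  unfold AJ HJ
  rw [add_sub_cancel_right]
  constructor
  · rintro ⟨h1, h2, h3, h4⟩
    have : n * (2 * Ht b) = n * Ht b + n * Ht b := by ring
    exact ⟨⟨by omega, by omega⟩, h3, h4⟩
  · rintro ⟨⟨h1, h2⟩, h3, h4⟩
    have : n * (2 * Ht b) = n * Ht b + n * Ht b := by ring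
    exact ⟨by omega, by omega, h3, h4⟩

include hn in
/-- the colours outside in the coordinates of the coarse data -/
lemma fill_eq : fillC (cdJ b c cl.u cl.l hb hd hc) n (fun y => cl.cr (y - n * Ht b)) x
    (y + n * Ht b) = fillR b n c cl x y := by
  unfold fillC fillR cdJ
  simp only
  rw [div_Ht hn]
  unfold AJ HJ CLJ
  rw [add_sub_cancel_right]
  have e : n * (2 * Ht b) = n * Ht b + n * Ht b := by ring
  have h1 : y + n * Ht b < 0 ↔ y < -(n * Ht b) := by constructor <;> intro <;> omega
  have h2 : n * (2 * Ht b) ≤ y + n * Ht b ↔ n * Ht b ≤ y := by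
    rw [e]; constructor <;> intro <;> omega
  simp only [h1, h2, add_sub_cancel_right]

/-- `(x, y)` is a tile of the room graph -/
def RTJ (hb : b.Ok δ σ) (hd : δ ≤ 1) (hc : c true 0 = c false 0) (n : ℤ) (cl : Cl) (x y : ℤ) : Prop :=
  RT (cdJ b c cl.u cl.l hb hd hc) n (fun y => cl.cr (y - n * Ht b)) x (y + n * Ht b)

include hn in
lemma RTJ.near (h : RTJ hb hd hc n cl x y) : ∃ i j : ℤ, -1 ≤ i ∧ i ≤ 1 ∧ -1 ≤ j ∧ j ≤ 1 ∧
    InR b n (x + i) (y + j) := by
  obtain ⟨i, j, h1, h2, h3, h4, h5⟩ := RT.near h
  refine ⟨i, j, h1, h2, h3, h4, ?_⟩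
  rw [← rp_iff hb hd hn hc (u := cl.u) (l := cl.l)]
  rw [show y + j + n * Ht b = y + n * Ht b + j by ring]
  exact h5

include hn in
/-- a tile of the room graph which is not a tile of the room and has no neighbour in the room is a diagonal
tile at a convex corner with closed walls -/
lemma RTJ.dia (h : RTJ hb hd hc n cl x y) (h0 : ¬ InR b n x y) (h1 : ¬ InR b n (x + 1) y)
    (h2 : ¬ InR b n (x - 1) y) (h3 : ¬ InR b n x (y + 1)) (h4 : ¬ InR b n x (y - 1)) :
    ∃ i j : ℤ, (i = 1 ∨ i = -1) ∧ (j = 1 ∨ j = -1) ∧ InR b n (x + i) (y + j) ∧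
      fillR b n c cl (x + i) y = false ∧ fillR b n c cl x (y + j) = false := by
  have key : ∀ x y, RP (cdJ b c cl.u cl.l hb hd hc) n x (y + n * Ht b) ↔ InR b n x y := fun x y =>
    rp_iff hb hd hn hc
  have k1 := (key x y).not.2 h0
  have k2 := (key (x + 1) y).not.2 h1
  have k3 := (key (x - 1) y).not.2 h2
  have k4 := (key x (y + 1)).not.2 h3
  have k5 := (key x (y - 1)).not.2 h4
  rcases h with h | ⟨-, h | h | h | h⟩ | ⟨-, -, i, j, hi, hj, h, hf, hf'⟩
  · exact absurd h k1
  · exact absurd h k2
  · exact absurd h k3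
  · exfalso
    apply k4
    rw [show y + 1 + n * Ht b = y + n * Ht b + 1 by ring]
    exact h
  · exfalso
    apply k5
    rw [show y - 1 + n * Ht b = y + n * Ht b - 1 by ring]
    exact h
  · refine ⟨i, j, hi, hj, ?_, ?_, ?_⟩
    · rw [← key]
      rw [show y + j + n * Ht b = y + n * Ht b + j by ring]
      exact h
    · rw [← fill_eq hb hd hn hc]
      exact hf
    · rw [← fill_eq hb hd hn hc]
      rw [show y + j + n * Ht b = y + n * Ht b + j by ring]
      exact hf'

omit n in
/-- a neighbouring row of tiles: same cell or neighbouring cell -/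
lemma div_adj {n y j : ℤ} (hn : 1 < n) (hj : -1 ≤ j) (hj' : j ≤ 1) :
    (y + j) / n = y / n ∨ ((y + j) / n = y / n + j ∧ (j = 1 ∨ j = -1)) := by
  have hn0 : 0 < n := by omega
  have e1 := Int.emod_add_mul_ediv y n
  have e2 := Int.emod_nonneg y hn0.ne'
  have e3 := Int.emod_lt_of_pos y hn0
  rcases (show j = 0 ∨ j = 1 ∨ j = -1 by omega) with rfl | rfl | rfl
  · left; rw [add_zero]
  · by_cases h : y % n = n - 1
    · right
      refine ⟨?_, Or.inl rfl⟩
      have e : y + 1 = 0 + n * (y / n + 1) := by rw [mul_add, mul_one]; omega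
      rw [e, Int.add_mul_ediv_left _ _ hn0.ne', Int.zero_ediv, zero_add]
    · left
      have e : y + 1 = (y % n + 1) + n * (y / n) := by omega
      rw [e, Int.add_mul_ediv_left _ _ hn0.ne', Int.ediv_eq_zero_of_lt (by omega) (by omega), zero_add]
  · by_cases h : y % n = 0
    · right
      refine ⟨?_, Or.inr rfl⟩
      have e : y + -1 = (n - 1) + n * (y / n + -1) := by rw [mul_add, mul_neg, mul_one]; omega
      rw [e, Int.add_mul_ediv_left _ _ hn0.ne', Int.ediv_eq_zero_of_lt (by omega) (by omega), zero_add]
    · left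
      have e : y + -1 = (y % n - 1) + n * (y / n) := by omega
      rw [e, Int.add_mul_ediv_left _ _ hn0.ne', Int.ediv_eq_zero_of_lt (by omega) (by omega), zero_add]

/-- **Colours around the room**: a tile of the room graph outside of the room is solid, its colour in the
world is the colour of the coarse data. -/
theorem solid_of_RTJ (hn2 : 1 < n) (hB : cl.cr (-(n * Ht b) - 1) = cl.cr (-(n * Ht b)))
    (hT : cl.cr (n * Ht b) = cl.cr (n * Ht b - 1)) (h : RTJ hb hd hc n cl x y) (h0 : ¬ InR b n x y) :
    SolidC b n c cl x y (fillR b n c cl x y) := by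
  have hn : 0 < n := by omega
  have hM : (0 : ℤ) < b.M := by exact_mod_cast hb.M0
  have hHt := Ht_pos hb
  have hnHt : n ≤ n * Ht b := by nlinarith
  obtain ⟨i, j, hi1, hi2, hj1, hj2, hR⟩ := h.near hb hd hn hc
  obtain ⟨r1, r2, r3⟩ := (inR_iff hb hd hn).1 hR
  have r1' := (dst_rows hn).1 r1
  have hAX := Ar_lt hb r1
  have hAX' : n * Ar b ((y + j) / n) + n ≤ n * b.X := by nlinarith
  rcases lt_or_ge y (-(n * Ht b)) with c1 | c1
  · -- below the room
    have hy : y = -(n * Ht b) - 1 := by omega
    have hj : j = 1 := by omega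
    subst hj
    have e1 : y / n = -Ht b - 1 := by
      rw [hy, show -(n * Ht b) - 1 = (n - 1) + n * (-Ht b - 1) by ring,
        Int.add_mul_ediv_left _ _ hn.ne', Int.ediv_eq_zero_of_lt (by omega) (by omega), zero_add]
    have hQ : ¬ InQ b n x y := by
      rw [inQ_iff hb hn, dst_rows hn]
      omega
    refine ⟨fun h => absurd h hQ, fun _ => ?_⟩
    have hf : fillR b n c cl x y = cl.l b.K := by unfold fillR; rw [if_pos c1]
    rw [hf]
    rcases lt_or_ge x (n * b.X) with c2 | c2
    · rw [lcol_row hn c2, e1, if_neg (by omega)]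
      congr 1
      unfold Ht
      omega
    · -- the corner SE
      have n1 : ¬ InR b n (x + 1) y := fun h => by have := (inR_iff hb hd hn).1 h; omega
      have n2 : ¬ InR b n (x - 1) y := fun h => hQ |> fun _ => by
        have := (dst_rows hn).1 ((inR_iff hb hd hn).1 h).1
        omega
      have n3 : ¬ InR b n x (y + 1) := fun h => by have := (inR_iff hb hd hn).1 h; omega
      have n4 : ¬ InR b n x (y - 1) := fun h => by have := (inR_iff hb hd hn).1 h; omega
      obtain ⟨i', j', k1, k2, k3, k4, k4'⟩ := h.dia hb hd hn hc h0 n1 n2 n3 n4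
      rw [← k4'] at k4
      have k5 := (inR_iff hb hd hn).1 k3
      have k6 := (dst_rows hn).1 k5.1
      have hj' : j' = 1 := by omega
      have hi' : i' = -1 := by omega
      subst hj' hi'
      have f1 : fillR b n c cl (x + -1) y = cl.l b.K := by unfold fillR; rw [if_pos c1]
      have f2 : fillR b n c cl x (y + 1) = cl.cr (y + 1) := by
        unfold fillR
        have k7 := Ar_lt hb k5.1
        have k8 : n * Ar b ((y + 1) / n) + n ≤ n * b.X := by nlinarith
        rw [if_neg (by omega), if_neg (by omega), if_neg (by omega)]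
      rw [f1, f2] at k4
      rw [k4]
      unfold lcol
      rw [if_pos (by rw [mul_comm]; exact c2), show y + 1 = -(n * Ht b) by omega, hy]
      exact hB.symm
  rcases lt_or_ge y (n * Ht b) with c3 | c3
  · have hf : fillR b n c cl x y = if x < n * Ar b (y / n) then clJ b c cl.u cl.l (y / n)
        else cl.cr y := by
      unfold fillR; rw [if_neg (by omega), if_neg (by omega)]
    have hy : dst (y / n) < Ht b := (dst_rows hn).2 ⟨c1, c3⟩
    rw [hf]
    rcases lt_or_ge x (n * Ar b (y / n)) with c2 | c2
    · rw [if_pos c2]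
      by_cases hx2 : dst (y / n) < b.H → (dst (y / n) - b.τ + 1).toNat < nP b →
          -(n * ((((dst (y / n) - b.τ + 1).toNat : ℤ) + 1) * b.M)) ≤ x
      · exact left_col hb hd hn hy c2 hx2
      · -- the diagonal tile at a gap of the slit
        push Not at hx2
        obtain ⟨g1, g2, g3⟩ := hx2
        have hA : Ar b (y / n) = -(((dst (y / n) - b.τ + 1).toNat : ℤ) * b.M) := by
          unfold Ar; rw [ArD_slit g1 g2]
        have eM : n * ((((dst (y / n) - b.τ + 1).toNat : ℤ) + 1) * b.M) =
            n * (((dst (y / n) - b.τ + 1).toNat : ℤ) * b.M) + n * b.M := by ring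
        have hnM : n ≤ n * b.M := by nlinarith
        have hAn : n * Ar b (y / n) = -(n * (((dst (y / n) - b.τ + 1).toNat : ℤ) * b.M)) := by
          rw [hA]; ring
        -- the near tile is in a neighbouring row of cells
        rcases div_adj (y := y) hn2 hj1 hj2 with k1 | ⟨k1, k2⟩
        · exfalso
          rw [k1] at r2
          omega
        · have hA' : Ar b ((y + j) / n) < Ar b (y / n) := by
            by_contra hge
            have : n * Ar b (y / n) ≤ n * Ar b ((y + j) / n) := by nlinarith
            omega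
          have hd1 := drop_slit (c := c) (u := cl.u) (l := cl.l) hb hd g1 g2 r1
            (by rw [k1]; omega) hA'
          rw [hd1.1] at r2
          have eM' : n * -((((dst (y / n) - b.τ + 1).toNat : ℤ) + 1) * b.M) =
              -(n * ((((dst (y / n) - b.τ + 1).toNat : ℤ) + 1) * b.M)) := by ring
          rw [eM'] at r2
          have hx : x = -(n * ((((dst (y / n) - b.τ + 1).toNat : ℤ) + 1) * b.M)) - 1 := by omega
          have hi : i = 1 := by omega
          -- no neighbour in the room
          have low : ∀ {y'}, InR b n x y' → n * Ar b (y' / n) ≤ x := fun h =>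
            ((inR_iff hb hd hn).1 h).2.1
          have n1 : ¬ InR b n (x + 1) y := fun h => by
            have := ((inR_iff hb hd hn).1 h).2.1
            omega
          have n2 : ¬ InR b n (x - 1) y := fun h => by
            have := ((inR_iff hb hd hn).1 h).2.1
            omega
          have nn : ∀ j' : ℤ, -1 ≤ j' → j' ≤ 1 → ¬ InR b n x (y + j') := by
            intro j' q1 q2 h
            have q3 := (inR_iff hb hd hn).1 h
            rcases div_adj (y := y) hn2 q1 q2 with k3 | ⟨k3, k4⟩
            · rw [k3] at q3; omega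
            · have hA'' : Ar b ((y + j') / n) < Ar b (y / n) := by
                by_contra hge
                have : n * Ar b (y / n) ≤ n * Ar b ((y + j') / n) := by nlinarith
                omega
              have hd2 := drop_slit (c := c) (u := cl.u) (l := cl.l) hb hd g1 g2 q3.1
                (by rw [k3]; omega) hA''
              rw [hd2.1, eM'] at q3
              omega
          obtain ⟨i', j', q1, q2, q3, q4, q4'⟩ := h.dia hb hd hn hc h0 n1 n2
            (nn 1 (by omega) (by omega)) (nn (-1) (by omega) (by omega))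
          rw [← q4'] at q4
          have q5 := (inR_iff hb hd hn).1 q3
          have hkey : (y + j') / n = y / n + j' ∧ Ar b ((y + j') / n) < Ar b (y / n) := by
            rcases div_adj (y := y) (j := j') hn2 (by omega) (by omega) with k3 | ⟨k3, k4⟩
            · exfalso
              rw [k3] at q5
              omega
            · refine ⟨k3, ?_⟩
              by_contra hge
              have : n * Ar b (y / n) ≤ n * Ar b ((y + j') / n) := by nlinarith
              omega
          have hd2 := drop_slit (c := c) (u := cl.u) (l := cl.l) hb hd g1 g2 q5.1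
            (by rw [hkey.1]; omega) hkey.2
          have q6 := q5.2.1
          rw [hd2.1, eM'] at q6
          have hi' : i' = 1 := by omega
          subst hi'
          have q7 := (dst_rows hn).1 q5.1
          have f1 : fillR b n c cl (x + 1) y = clJ b c cl.u cl.l (y / n) := by
            unfold fillR
            rw [if_neg (by omega), if_neg (by omega), if_pos (by omega)]
          have f2 : fillR b n c cl x (y + j') = clJ b c cl.u cl.l ((y + j') / n) := by
            unfold fillR
            rw [if_neg (by omega), if_neg (by omega), if_pos (by rw [hd2.1, eM']; omega)]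
          rw [f1, f2, hd2.2] at q4
          rw [q4]
          -- the tile is in the next plate or in the outer layer
          have hxX : x < n * b.X := by
            have hXp : (0 : ℤ) < b.X := by exact_mod_cast X_pos hb
            have : 0 ≤ n * ((((dst (y / n) - b.τ + 1).toNat : ℤ) + 1) * b.M) := by positivity
            nlinarith
          have hs : decide (0 ≤ y / n) = decide (0 ≤ y) := by
            by_cases h : 0 ≤ y
            · rw [decide_eq_true h, decide_eq_true ((nonneg_div hn).2 h)]
            · rw [decide_eq_false h, decide_eq_false (fun h' => h ((nonneg_div hn).1 h'))]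
          have hX := X_eq hb
          by_cases g4 : (dst (y / n) - b.τ + 1).toNat + 1 < nP b
          · rw [if_pos g4]
            have hkX : (((dst (y / n) - b.τ + 1).toNat : ℤ) + 2) * b.M ≤ b.X := by
              rw [hX]
              exact mul_le_mul_of_nonneg_right (by exact_mod_cast g4) hM.le
            have eM2 : n * ((((dst (y / n) - b.τ + 1).toNat : ℤ) + 2) * b.M) =
              n * ((((dst (y / n) - b.τ + 1).toNat : ℤ) + 1) * b.M) + n * b.M := by ring
            have hkX' := mul_le_mul_of_nonneg_left hkX hn.le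
            have hQ : InQ b n x y := by
              rw [inQ_iff hb hn, if_pos g1]
              exact ⟨hy, hxX, by omega⟩
            refine ⟨fun _ => ⟨(dst (y / n) - b.τ + 1).toNat + 1, ?_, by rw [hs]⟩,
              fun h => absurd hQ h⟩
            rw [chn_some hb.M0]
            refine ⟨⟨?_, ?_⟩, ?_⟩
            · rw [zero_sub, Int.le_ediv_iff_mul_le hn]
              push_cast
              have : -(((dst (y / n) - b.τ + 1).toNat : ℤ) + 1 + 1) * (b.M : ℤ) * n =
                -(n * ((((dst (y / n) - b.τ + 1).toNat : ℤ) + 2) * b.M)) := by ring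
              have e3 : -((((dst (y / n) - b.τ + 1).toNat : ℤ) + 1 + 1) * (b.M : ℤ)) * n =
                -(n * ((((dst (y / n) - b.τ + 1).toNat : ℤ) + 2) * b.M)) := by ring
              rw [e3]
              omega
            · rw [zero_sub, Int.ediv_lt_iff_lt_mul hn]
              push_cast
              have e3 : -((((dst (y / n) - b.τ + 1).toNat : ℤ) + 1) * (b.M : ℤ)) * n =
                -(n * ((((dst (y / n) - b.τ + 1).toNat : ℤ) + 1) * b.M)) := by ring
              rw [e3]
              omega
            · show (dst (y / n) - b.τ + 1).toNat ≤ _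
              omega
          · rw [if_neg g4]
            have hkn : (nP b : ℤ) = (dst (y / n) - b.τ + 1).toNat + 1 := by omega
            have hQ : ¬ InQ b n x y := by
              rw [inQ_iff hb hn, if_pos g1, hX, hkn]
              rintro ⟨-, -, q⟩
              omega
            refine ⟨fun h => absurd h hQ, fun _ => ?_⟩
            rw [lcol_row hn hxX]
            split_ifs with h6
            · rw [dst_pos h6] at g1
              have : (y / n - b.H).toNat = 0 := by omega
              rw [this, Nat.min_zero]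
            · rw [dst_npos h6] at g1
              have : (-1 - y / n - b.H).toNat = 0 := by omega
              rw [this, Nat.min_zero]
    · -- the right wall
      rw [if_neg (by omega)]
      have hxX : n * b.X ≤ x := by
        by_contra hlt
        exact h0 ((inR_iff hb hd hn).2 ⟨hy, c2, by omega⟩)
      have hQ : ¬ InQ b n x y := by
        rw [inQ_iff hb hn]
        omega
      refine ⟨fun h => absurd h hQ, fun _ => ?_⟩
      unfold lcol
      rw [if_pos (by rw [mul_comm]; exact hxX)]
  · -- above the room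
    have hy : y = n * Ht b := by omega
    have hj : j = -1 := by omega
    subst hj
    have e1 : y / n = Ht b := by rw [hy, Int.mul_ediv_cancel_left _ hn.ne']
    have hQ : ¬ InQ b n x y := by
      rw [inQ_iff hb hn, dst_rows hn]
      omega
    refine ⟨fun h => absurd h hQ, fun _ => ?_⟩
    have hf : fillR b n c cl x y = cl.u b.K := by unfold fillR; rw [if_neg (by omega), if_pos c3]
    rw [hf]
    rcases lt_or_ge x (n * b.X) with c2 | c2
    · rw [lcol_row hn c2, e1, if_pos (by omega)]
      congr 1
      unfold Ht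
      omega
    · -- the corner NE
      have n1 : ¬ InR b n (x + 1) y := fun h => by have := (inR_iff hb hd hn).1 h; omega
      have n2 : ¬ InR b n (x - 1) y := fun h => by
        have := (dst_rows hn).1 ((inR_iff hb hd hn).1 h).1
        omega
      have n3 : ¬ InR b n x (y + 1) := fun h => by have := (inR_iff hb hd hn).1 h; omega
      have n4 : ¬ InR b n x (y - 1) := fun h => by have := (inR_iff hb hd hn).1 h; omega
      obtain ⟨i', j', k1, k2, k3, k4, k4'⟩ := h.dia hb hd hn hc h0 n1 n2 n3 n4
      rw [← k4'] at k4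
      have k5 := (inR_iff hb hd hn).1 k3
      have k6 := (dst_rows hn).1 k5.1
      have hj' : j' = -1 := by omega
      have hi' : i' = -1 := by omega
      subst hj' hi'
      have f1 : fillR b n c cl (x + -1) y = cl.u b.K := by
        unfold fillR; rw [if_neg (by omega), if_pos c3]
      have f2 : fillR b n c cl x (y + -1) = cl.cr (y + -1) := by
        unfold fillR
        have k7 := Ar_lt hb k5.1
        have k8 : n * Ar b ((y + -1) / n) + n ≤ n * b.X := by nlinarith
        rw [if_neg (by omega), if_neg (by omega), if_neg (by omega)]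
      rw [f1, f2] at k4
      rw [k4]
      unfold lcol
      rw [if_pos (by rw [mul_comm]; exact c2), show y + -1 = n * Ht b - 1 by omega, hy]
      exact hT.symm

/-- a diagonal tile of the outer layer at a corner where the colour changes is not a tile of the room graph -/
theorem RTJ.not_dgt (hn2 : 1 < n) (h : RTJ hb hd hc n cl x y) {q : Bool × ℕ} (hq : q.2 < b.K)
    (hne : if q.1 then cl.u q.2 ≠ cl.u (q.2 + 1) else cl.l q.2 ≠ cl.l (q.2 + 1)) :
    (x, y) ≠ dgt b n q := by
  intro he
  have hn : 0 < n := by omega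
  have hHt : Ht b = b.H + b.K := rfl
  have key : ∀ {y' : ℤ}, dst (y' / n) = b.H + q.2 → n * Ar b (y' / n) = x + 1 := by
    intro y' h
    have h1 : Ar b (y' / n) = b.st q.2 := by
      unfold Ar
      rw [h, ArD_step (by omega)]
      congr 1
      omega
    have h2 : x = b.st q.2 * n - 1 := by
      have := congrArg Prod.fst he
      exact this
    rw [h1, h2]
    ring
  have key2 : ∀ {y' : ℤ}, dst (y' / n) = b.H + q.2 + 1 → dst (y' / n) < Ht b →
      x + 1 < n * Ar b (y' / n) := by
    intro y' h h'
    have h1 : Ar b (y' / n) = b.st (q.2 + 1) := by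
      unfold Ar
      rw [h, ArD_step (by omega)]
      congr 1
      omega
    have h2 : x = b.st q.2 * n - 1 := by
      have := congrArg Prod.fst he
      exact this
    have h3 := hb.st_mono q.2 (by omega)
    rw [h1, h2]
    nlinarith
  obtain ⟨q1, q2⟩ := q
  simp only at key key2 hq
  cases q1
  · -- floor
    simp only [Bool.false_eq_true, if_false] at hne
    have hy : y = -((b.H + q2 + 1) * n) - 1 := by
      have := congrArg Prod.snd he
      exact this
    have e1 : y / n = -(b.H + q2 + 1) - 1 := by
      rw [hy, show -(((b.H : ℤ) + q2 + 1) * n) - 1 = (n - 1) + n * (-(b.H + q2 + 1) - 1) by ring,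
        Int.add_mul_ediv_left _ _ hn.ne', Int.ediv_eq_zero_of_lt (by omega) (by omega), zero_add]
    have e2 : (y + 1) / n = -(b.H + q2 + 1) := by
      rw [hy, show -(((b.H : ℤ) + q2 + 1) * n) - 1 + 1 = n * (-(b.H + q2 + 1)) by ring,
        Int.mul_ediv_cancel_left _ hn.ne']
    have e3 : (y - 1) / n = -(b.H + q2 + 1) - 1 := by
      rw [hy, show -(((b.H : ℤ) + q2 + 1) * n) - 1 - 1 = (n - 2) + n * (-(b.H + q2 + 1) - 1) by ring,
        Int.add_mul_ediv_left _ _ hn.ne', Int.ediv_eq_zero_of_lt (by omega) (by omega), zero_add]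
    have d1 : dst (y / n) = b.H + q2 + 1 := by rw [e1, dst_npos (by omega)]; ring
    have d2 : dst ((y + 1) / n) = b.H + q2 := by rw [e2, dst_npos (by omega)]; ring
    have d3 : dst ((y - 1) / n) = b.H + q2 + 1 := by rw [e3, dst_npos (by omega)]; ring
    have no : ∀ {i j : ℤ}, -1 ≤ i → i ≤ 1 → -1 ≤ j → j ≤ 1 → (i < 1 ∨ j < 1) →
        ¬ InR b n (x + i) (y + j) := by
      intro i j hi hi' hj hj' hij hR
      obtain ⟨r1, r2, r3⟩ := (inR_iff hb hd hn).1 hR
      rcases (show j = 0 ∨ j = 1 ∨ j = -1 by omega) with rfl | rfl | rfl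
      · rw [add_zero] at r1 r2
        have := key2 d1 r1
        omega
      · have := key d2
        omega
      · rw [← sub_eq_add_neg] at r1 r2
        have := key2 d3 r1
        omega
    obtain ⟨i, j, k1, k2, k3, k4, k5⟩ := h.dia hb hd hn hc
      (by have := no (i := 0) (j := 0) (by omega) (by omega) (by omega) (by omega) (by omega); simpa using this)
      (by have := no (i := 1) (j := 0) (by omega) (by omega) (by omega) (by omega) (by omega); simpa using this)
      (by have := no (i := -1) (j := 0) (by omega) (by omega) (by omega) (by omega) (by omega); simpa [sub_eq_add_neg] using this)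
      (by have := no (i := 0) (j := 1) (by omega) (by omega) (by omega) (by omega) (by omega); simpa using this)
      (by have := no (i := 0) (j := -1) (by omega) (by omega) (by omega) (by omega) (by omega); simpa [sub_eq_add_neg] using this)
    have hij : i = 1 ∧ j = 1 := by
      by_contra hcon
      exact no (by omega) (by omega) (by omega) (by omega) (by omega) k3
    obtain ⟨rfl, rfl⟩ := hij
    have r1 := (dst_rows hn).1 ((inR_iff hb hd hn).1 k3).1
    have r1' := ((inR_iff hb hd hn).1 k3).1
    have f2 : fillR b n c cl x (y + 1) = cl.l q2 := by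
      unfold fillR
      rw [if_neg (by omega), if_neg (by omega), if_pos (by rw [key d2]; omega)]
      unfold clJ
      rw [d2, clD_step (by omega), if_neg (by rw [e2]; omega)]
      congr 1
      omega
    have f1 : fillR b n c cl (x + 1) y = cl.l (q2 + 1) := by
      unfold fillR
      by_cases hlt : y < -(n * Ht b)
      · rw [if_pos hlt]
        have h5 : ¬ dst (y / n) < Ht b := by rw [dst_rows hn]; omega
        congr 1
        omega
      · have h5 : dst (y / n) < Ht b := (dst_rows hn).2 ⟨by omega, by omega⟩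
        rw [if_neg hlt, if_neg (by omega), if_pos (key2 d1 h5)]
        unfold clJ
        rw [d1, clD_step (by omega), if_neg (by rw [e1]; omega)]
        congr 1
        omega
    rw [f1] at k4
    rw [f2] at k5
    rw [k4, k5] at hne
    exact hne rfl
  · -- ceiling
    simp only [if_true] at hne
    have hy : y = (b.H + q2 + 1) * n := by
      have := congrArg Prod.snd he
      exact this
    have e1 : y / n = b.H + q2 + 1 := by rw [hy, Int.mul_ediv_cancel _ hn.ne']
    have e2 : (y - 1) / n = b.H + q2 := by
      rw [hy, show ((b.H : ℤ) + q2 + 1) * n - 1 = (n - 1) + n * (b.H + q2) by ring,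
        Int.add_mul_ediv_left _ _ hn.ne', Int.ediv_eq_zero_of_lt (by omega) (by omega), zero_add]
    have e3 : (y + 1) / n = b.H + q2 + 1 := by
      rw [hy, show ((b.H : ℤ) + q2 + 1) * n + 1 = 1 + n * (b.H + q2 + 1) by ring,
        Int.add_mul_ediv_left _ _ hn.ne', Int.ediv_eq_zero_of_lt (by omega) (by omega), zero_add]
    have d1 : dst (y / n) = b.H + q2 + 1 := by rw [e1, dst_pos (by omega)]
    have d2 : dst ((y - 1) / n) = b.H + q2 := by rw [e2, dst_pos (by omega)]
    have d3 : dst ((y + 1) / n) = b.H + q2 + 1 := by rw [e3, dst_pos (by omega)]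
    have no : ∀ {i j : ℤ}, -1 ≤ i → i ≤ 1 → -1 ≤ j → j ≤ 1 → (i < 1 ∨ -1 < j) →
        ¬ InR b n (x + i) (y + j) := by
      intro i j hi hi' hj hj' hij hR
      obtain ⟨r1, r2, r3⟩ := (inR_iff hb hd hn).1 hR
      rcases (show j = 0 ∨ j = 1 ∨ j = -1 by omega) with rfl | rfl | rfl
      · rw [add_zero] at r1 r2
        have := key2 d1 r1
        omega
      · have := key2 d3 r1
        omega
      · rw [← sub_eq_add_neg] at r1 r2
        have := key d2
        omega
    obtain ⟨i, j, k1, k2, k3, k4, k5⟩ := h.dia hb hd hn hc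
      (by have := no (i := 0) (j := 0) (by omega) (by omega) (by omega) (by omega) (by omega); simpa using this)
      (by have := no (i := 1) (j := 0) (by omega) (by omega) (by omega) (by omega) (by omega); simpa using this)
      (by have := no (i := -1) (j := 0) (by omega) (by omega) (by omega) (by omega) (by omega); simpa [sub_eq_add_neg] using this)
      (by have := no (i := 0) (j := 1) (by omega) (by omega) (by omega) (by omega) (by omega); simpa using this)
      (by have := no (i := 0) (j := -1) (by omega) (by omega) (by omega) (by omega) (by omega); simpa [sub_eq_add_neg] using this)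
    have hij : i = 1 ∧ j = -1 := by
      by_contra hcon
      exact no (by omega) (by omega) (by omega) (by omega) (by omega) k3
    obtain ⟨rfl, rfl⟩ := hij
    rw [← sub_eq_add_neg] at k3 k5
    have r1 := (dst_rows hn).1 ((inR_iff hb hd hn).1 k3).1
    have f2 : fillR b n c cl x (y - 1) = cl.u q2 := by
      unfold fillR
      rw [if_neg (by omega), if_neg (by omega), if_pos (by rw [key d2]; omega)]
      unfold clJ
      rw [d2, clD_step (by omega), if_pos (by rw [e2]; omega)]
      congr 1
      omega
    have f1 : fillR b n c cl (x + 1) y = cl.u (q2 + 1) := by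
      unfold fillR
      by_cases hlt : n * Ht b ≤ y
      · rw [if_neg (by omega), if_pos hlt]
        have h5 : ¬ dst (y / n) < Ht b := by rw [dst_rows hn]; omega
        congr 1
        omega
      · have h5 : dst (y / n) < Ht b := (dst_rows hn).2 ⟨by omega, by omega⟩
        rw [if_neg (by omega), if_neg hlt, if_pos (key2 d1 h5)]
        unfold clJ
        rw [d1, clD_step (by omega), if_pos (by rw [e1]; omega)]
        congr 1
        omega
    rw [f1] at k4
    rw [f2] at k5
    rw [k4, k5] at hne
    exact hne rfl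

/-- **A world in which the junction box has the colours `c`, `cl`**: tiles of the room free (not in `W`),
plates and outer layer solid; the deleted tiles near the room are those of the string `(x0, r)`. -/
structure JW (hb : b.Ok δ σ) (hd : δ ≤ 1) (hc : c true 0 = c false 0) (n : ℤ) (cl : Cl) (x0 r : ℤ)
    (M : Finset (Bool × ℕ)) (D : Set (ℤ × ℤ)) (W : Finset (ℤ × ℤ)) : Prop where
  room : ∀ x y, InR b n x y → lt (x, y) ∉ W
  plate : ∀ x y i, RTJ hb hd hc n cl x y → InQ b n x y → ¬ InR b n x y →
    chn 0 b.M b.τ (x / n, y / n) = some i → (lt (x, y) ∈ W ↔ c (decide (0 ≤ y)) i = true)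
  outer : ∀ x y, RTJ hb hd hc n cl x y → ¬ InQ b n x y → (lt (x, y) ∈ W ↔ lcol b n cl x y = true)
  del : ∀ x y, RTJ hb hd hc n cl x y → (lt (x, y) ∈ D ↔ y = r ∧ x0 ≤ x)
  mrk : ∀ q ∈ M, q.2 < b.K ∧ if q.1 then cl.u q.2 ≠ cl.u (q.2 + 1) else cl.l q.2 ≠ cl.l (q.2 + 1)
  hB : cl.cr (-(n * Ht b) - 1) = cl.cr (-(n * Ht b))
  hT : cl.cr (n * Ht b) = cl.cr (n * Ht b - 1)

/-- **The worlds of the junction step contain the room.** -/
theorem roomIn_J {x0 r : ℤ} {M : Finset (Bool × ℕ)} {D : Set (ℤ × ℤ)} {W : Finset (ℤ × ℤ)}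
    (h8 : 8 ≤ n) (he : n % 2 = 0) (H : JW hb hd hc n cl x0 r M D W) :
    RoomIn (cdJ b c cl.u cl.l hb hd hc) n (-(n * Ht b)) (fun y => cl.cr (y - n * Ht b)) x0
      (r + n * Ht b) (Lam b n M) D W := by
  have hn : 0 < n := by omega
  have hn2 : 1 < n := by omega
  have tr : ∀ x y, RT (cdJ b c cl.u cl.l hb hd hc) n (fun y => cl.cr (y - n * Ht b)) x y →
      RTJ hb hd hc n cl x (y + -(n * Ht b)) := by
    intro x y h
    unfold RTJ
    rw [neg_add_cancel_right]
    exact h
  have tp : ∀ x y, RP (cdJ b c cl.u cl.l hb hd hc) n x y ↔ InR b n x (y + -(n * Ht b)) := by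
    intro x y
    rw [← rp_iff hb hd hn hc (u := cl.u) (l := cl.l), neg_add_cancel_right]
  refine ⟨h8, he, ?_, fun x y h => ?_, fun x y h => ?_, fun x y h h0 => ?_, fun x y h => ?_⟩
  · have : (n * Ht b) % 2 = 0 := by rw [Int.mul_emod, he, zero_mul]; rfl
    omega
  · have h1 := tr x y h
    refine ⟨x, y + -(n * Ht b), rfl, ?_⟩
    by_cases hQ : InQ b n x (y + -(n * Ht b))
    · exact Or.inl hQ
    · right
      obtain ⟨i, j, a1, a2, a3, a4, a5⟩ := h1.near hb hd hn hc
      refine ⟨⟨hQ, i, j, ?_, ?_, a5.1⟩, fun q hq => ?_⟩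
      · rw [abs_le]; omega
      · rw [abs_le]; omega
      · exact h1.not_dgt hb hd hc hn2 (H.mrk q hq).1 (H.mrk q hq).2
  · exact H.room _ _ ((tp x y).1 h)
  · have h1 := tr x y h
    rw [tp] at h0
    have hS := solid_of_RTJ hb hd hc hn2 H.hB H.hT h1 h0
    have hf : fillC (cdJ b c cl.u cl.l hb hd hc) n (fun y => cl.cr (y - n * Ht b)) x y =
        fillR b n c cl x (y + -(n * Ht b)) := by
      rw [← fill_eq hb hd hn hc, neg_add_cancel_right]
    rw [hf]
    by_cases hQ : InQ b n x (y + -(n * Ht b))
    · obtain ⟨i, hi, e⟩ := hS.1 hQ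
      rw [H.plate _ _ i h1 hQ h0 hi, e]
    · rw [H.outer _ _ h1 hQ, hS.2 hQ]
  · rw [H.del _ _ (tr x y h)]
    constructor <;> rintro ⟨h1, h2⟩ <;> exact ⟨by omega, h2⟩

end around

end Pool.Agent.H21.W
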