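import Mathlib
import Pool.Agent.H21.W.JIn
import Pool.Agent.H61.W.JHol1

set_option autoImplicit false
open Finset

/-! # The worlds `GX`, `GY` for fixed colours of the plates contain the room

`cPl b o cl i` : colour of the plate `i` (`o` on the chunk `P`, `cl` elsewhere); `cX`, `cY` : colours of the two
halves of the plates in `GX`, `GY` (`cY` : the half `s` is flipped from the plate `k` on, the mark on `P` is at
`x1 = - k M n`). `roomIn_X`, `roomIn_Y` : `RoomIn`. `gX_eq`, `gY_eq` : the worlds as `SG Λ D (w ∪ ω)`, `ω` open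
labels of the room. `E1_eq`, `Pr_E1` : the labels of the room are those of the room graph, moved. -/

namespace Pool.Agent.H21.W

open Pool.Agent.H75.Perc hiding WL CT hh PB
open Pool.Agent.H13.W Pool.Agent.H33.Q1
open Pool.Agent.H6.W Pool.Agent.H50.W Pool.Agent.H58.W Pool.Agent.H61.W
open Pool.Agent.H54.W (CD)
open Pool.Agent.H45.W (tr trS trF)

variable {b : JBox} {δ σ : ℝ} {h : ℕ} {o : Bool} {cl : Fin (nP b) → Bool} {s : Bool} {k : ℕ}
  {M : Finset (Bool × ℕ)} {x y x0 r : ℤ} {ω : Finset (ℤ × ℤ)}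

/-- colour of the plate `i` -/
def cPl (b : JBox) (o : Bool) (cl : Fin (nP b) → Bool) (i : ℕ) : Bool :=
  if i < b.m then o else if hi : i < nP b then cl ⟨i, hi⟩ else false

/-- colours of the halves of the plates, no mark on `P` -/
def cX (b : JBox) (o : Bool) (cl : Fin (nP b) → Bool) : Bool → ℕ → Bool := fun _ i => cPl b o cl i

/-- colours of the halves of the plates, mark on the bank `s` of `P`, between the plates `k - 1` and `k` -/
def cY (b : JBox) (o : Bool) (cl : Fin (nP b) → Bool) (s : Bool) (k : ℕ) : Bool → ℕ → Bool :=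
  fun t i => cPl b o cl i ^^ decide (t = s ∧ k ≤ i)

lemma cX_zero : cX b o cl true 0 = cX b o cl false 0 := rfl

lemma cY_zero (hk : 1 ≤ k) : cY b o cl s k true 0 = cY b o cl s k false 0 := by
  unfold cY
  rw [decide_eq_false (by omega), decide_eq_false (by omega)]

/-! ### Labels -/

lemma lt_mem_B (hh : 0 < h) : lt (x, y) ∈ b.B h ↔ InQ b (2 * h) x y := by
  rw [mem_B hh, and_iff_right (lt_odd _), tt_lt]
  rfl

lemma lt_mem_E1 (hh : 0 < h) : lt (x, y) ∈ E1 b h ↔ InR b (2 * h) x y := by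
  unfold E1
  rw [mem_filter, lt_mem_B hh, tt_lt]
  rfl

lemma lt_mem_plt (hb : b.Ok δ σ) (hh : 0 < h) : lt (x, y) ∈ plt b h cl ↔ InQ b (2 * h) x y ∧
    ∃ i : Fin (nP b), chn 0 b.M b.τ (x / (2 * h), y / (2 * h)) = some (i : ℕ) ∧ cl i = true := by
  unfold plt
  rw [mem_filter, lt_mem_B hh, tt_lt]
  rfl

lemma lt_mem_Pl (hb : b.Ok δ σ) (hh : 0 < h) : lt (x, y) ∈ b.Pl h ↔
    ∃ i < b.m, chn 0 b.M b.τ (x / (2 * h), y / (2 * h)) = some i := by
  unfold JBox.Pl
  rw [mem_TL (by positivity), and_iff_right (lt_odd _), tt_lt]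
  unfold JBox.Pc ct RC
  simp only [mem_biUnion, mem_range, mem_product, mem_Ico]
  refine exists_congr fun i => and_congr_right fun _ => ?_
  rw [chn_some hb.M0]
  have e := pix_le (τ := b.τ) (y := y / (2 * h)) (i := i)
  simp only at e ⊢
  rw [e, zero_sub, zero_sub]

/-- the chunk `P` is in the box -/
lemma chn_mem_E1 (hh : 0 < h) (hω : ω ⊆ E1 b h) {i : ℕ}
    (hi : chn 0 b.M b.τ (x / (2 * h), y / (2 * h)) = some i) : lt (x, y) ∉ ω := by
  intro h1
  have := ((lt_mem_E1 hh).1 (hω h1)).2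
  rw [hi] at this
  cases this

/-- the colour of a plate -/
lemma mem_cfg (hb : b.Ok δ σ) (hh : 0 < h) (hω : ω ⊆ E1 b h) (hQ : InQ b (2 * h) x y) {i : ℕ}
    (hi : chn 0 b.M b.τ (x / (2 * h), y / (2 * h)) = some i) :
    lt (x, y) ∈ cfg b h o (ω ∪ plt b h cl) ↔ cPl b o cl i = true := by
  have h1 := chn_mem_E1 hh hω hi
  have hlt : i < nP b := lt_nP hb (c := (x / (2 * h), y / (2 * h))) hQ hi
  have h2 : lt (x, y) ∈ plt b h cl ↔ cl ⟨i, hlt⟩ = true := by
    rw [lt_mem_plt hb hh, hi]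
    constructor
    · rintro ⟨-, j, h3, h4⟩
      have : j = ⟨i, hlt⟩ := Fin.ext (Option.some.inj h3).symm
      rw [← this]; exact h4
    · exact fun h3 => ⟨hQ, ⟨i, hlt⟩, rfl, h3⟩
  have h3 : lt (x, y) ∈ b.Pl h ↔ i < b.m := by
    rw [lt_mem_Pl hb hh, hi]
    constructor
    · rintro ⟨j, h3, h4⟩
      rw [Option.some.inj h4]; exact h3
    · exact fun h3 => ⟨i, h3, rfl⟩
  unfold cfg cPl
  cases o
  · rw [if_neg (by simp), mem_sdiff, mem_union, h2, h3]
    split_ifs with h4
    · simp [h4]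
    · simp [h4, h1]
  · rw [if_pos rfl, mem_union, mem_union, h2, h3]
    split_ifs with h4
    · simp [h4]
    · simp [h4, h1]

lemma cfg_union (hb : b.Ok δ σ) (hh : 0 < h) (hω : ω ⊆ E1 b h) :
    cfg b h o (ω ∪ plt b h cl) = ω ∪ cfg b h o (plt b h cl) := by
  have hd : ∀ e ∈ ω, e ∉ b.Pl h := by
    intro e he hP
    have h1 := hω he
    have h2 : (e.1 + e.2) % 2 = 1 := by
      unfold E1 at h1
      rw [mem_filter] at h1
      exact ((mem_B hh).1 h1.1).1
    rw [← lt_tt h2] at he hP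
    obtain ⟨i, -, hi⟩ := (lt_mem_Pl hb hh).1 hP
    exact chn_mem_E1 hh hω hi he
  unfold cfg
  ext e
  cases o
  · rw [if_neg (by simp), if_neg (by simp), mem_sdiff, mem_union, mem_union, mem_sdiff]
    have := hd e
    tauto
  · rw [if_pos rfl, if_pos rfl]
    simp only [mem_union]
    tauto

lemma flp_E1 (hh : 0 < h) {x1 : ℤ} (hω : ω ⊆ E1 b h) : ∀ e ∈ ω, e ∉ flp b h s x1 := by
  intro e he hF
  simp only [flp, mem_filter] at hF
  have h1 := hω he
  unfold E1 at h1
  rw [mem_filter] at h1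
  exact hF.2.1.2 h1.2

lemma symm_union (hb : b.Ok δ σ) (hh : 0 < h) {x1 : ℤ} (hω : ω ⊆ E1 b h) :
    symmDiff (cfg b h o (ω ∪ plt b h cl)) (flp b h s x1) =
      ω ∪ symmDiff (cfg b h o (plt b h cl)) (flp b h s x1) := by
  rw [cfg_union hb hh hω]
  ext e
  simp only [mem_symmDiff, mem_union]
  have := flp_E1 (s := s) (x1 := x1) hh hω e
  tauto

/-- the labels of the outer layer are not in the box -/
lemma lt_mem_Wl {c : Cl} {n : ℤ} (hQ : InQ b n x y) : lt (x, y) ∉ Wl b n c := by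
  intro h1
  unfold Wl at h1
  simp only [mem_image, mem_filter, Prod.exists] at h1
  obtain ⟨a, a', ⟨-, h2, -⟩, h3⟩ := h1
  have := lt_inj h3
  simp only [Prod.mk.injEq] at this
  obtain ⟨rfl, rfl⟩ := this
  exact h2 hQ

/-- the chunk `P` reaches at most to the left wall -/
lemma m_le_nP (hb : b.Ok δ σ) (h1 : σ * δ ≤ 1) : b.m ≤ nP b := by
  have hM : (0 : ℝ) < b.M := by exact_mod_cast hb.M0
  have hX : (b.X : ℝ) = nP b * b.M := by exact_mod_cast X_eq hb
  have h2 := hb.len
  have h3 := hb.X_ge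
  have hX0 : (0 : ℝ) < b.X := by exact_mod_cast X_pos hb
  have hH : (0 : ℝ) < b.H := by exact_mod_cast hb.H0
  have h4 : (b.m * b.M : ℝ) ≤ nP b * b.M := by
    rw [← hX, h2]
    rcases le_or_gt 0 σ with h5 | h5
    · calc σ * b.H ≤ σ * (δ * b.X) := mul_le_mul_of_nonneg_left h3 h5
        _ = (σ * δ) * b.X := by ring
        _ ≤ 1 * b.X := mul_le_mul_of_nonneg_right h1 hX0.le
        _ = b.X := one_mul _
    · have : σ * b.H < 0 := mul_neg_of_neg_of_pos h5 hH
      linarith
  exact_mod_cast le_of_mul_le_mul_right h4 hM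

lemma Pl_sub (hb : b.Ok δ σ) (hd : δ ≤ 1) (hh : 0 < h) (hm : b.m ≤ nP b) (hP : lt (x, y) ∈ b.Pl h) :
    InQ b (2 * h) x y := by
  obtain ⟨i, h1, h2⟩ := (lt_mem_Pl hb hh).1 hP
  rw [chn_some hb.M0] at h2
  obtain ⟨⟨h3, h4⟩, h5⟩ := h2
  have hM : (0 : ℤ) < b.M := by exact_mod_cast hb.M0
  have hX := X_eq hb
  have hXp : (0 : ℤ) < b.X := by exact_mod_cast X_pos hb
  have ht := thick hb hd
  rw [pix_le, ← dst_lt] at h5
  simp only at h3 h4 h5
  unfold InQ
  rw [mem_Q hb]
  have h6 : dst (y / (2 * h)) < b.H := by omega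
  have h7 : ((i : ℤ) + 1) * b.M ≤ nP b * b.M := mul_le_mul_of_nonneg_right (by omega) hM.le
  have h8 : (0 : ℤ) ≤ i * b.M := by positivity
  refine ⟨by unfold Ht; omega, by omega, ?_⟩
  rw [if_pos h6]
  omega

lemma not_mem_B_cfg (hb : b.Ok δ σ) (hh : 0 < h) (hQ : ¬ InQ b (2 * h) x y) (hP : lt (x, y) ∉ b.Pl h) :
    lt (x, y) ∉ cfg b h o (plt b h cl) := by
  have h1 : lt (x, y) ∉ plt b h cl := fun h2 => hQ ((lt_mem_plt hb hh).1 h2).1
  unfold cfg
  split_ifs
  · rw [mem_union]; tauto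
  · rw [mem_sdiff]; tauto

/-! ### The colours `colM` -/

lemma par_succ (k : ℕ) : par (k + 1) = !par k := by
  unfold par
  rcases Nat.mod_two_eq_zero_or_one k with h | h
  · have : (k + 1) % 2 = 1 := by omega
    rw [h, this]; rfl
  · have : (k + 1) % 2 = 0 := by omega
    rw [h, this]; rfl

lemma colM_mrk {base : Bool} {ex : Option ℤ} {q : Bool × ℕ} (hq : q ∈ M) :
    if q.1 then (colM base M ex).u q.2 ≠ (colM base M ex).u (q.2 + 1)
      else (colM base M ex).l q.2 ≠ (colM base M ex).l (q.2 + 1) := by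
  obtain ⟨a, i⟩ := q
  cases a
  · simp only [Bool.false_eq_true, if_false]
    have e : (M.filter fun c => c.1 = false ∧ i ≤ c.2) =
        insert (false, i) (M.filter fun c => c.1 = false ∧ i + 1 ≤ c.2) := by
      ext ⟨a, j⟩
      simp only [mem_filter, mem_insert, Prod.mk.injEq]
      constructor
      · rintro ⟨h1, h2, h3⟩
        rcases h3.eq_or_lt with h4 | h4
        · exact Or.inl ⟨h2, h4.symm⟩
        · exact Or.inr ⟨h1, h2, h4⟩
      · rintro (⟨rfl, rfl⟩ | ⟨h1, h2, h3⟩)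
        · exact ⟨hq, rfl, le_rfl⟩
        · exact ⟨h1, h2, by omega⟩
    have e2 : (false, i) ∉ (M.filter fun c => c.1 = false ∧ i + 1 ≤ c.2) := by
      simp
    unfold colM
    simp only
    rw [e, card_insert_of_notMem e2, par_succ]
    generalize par _ = p1
    generalize par _ = p2
    cases base <;> cases p1 <;> cases p2 <;> cases ex.isSome <;> decide
  · simp only [if_true]
    have e : (M.filter fun c => c.1 = true ∧ c.2 < i + 1) =
        insert (true, i) (M.filter fun c => c.1 = true ∧ c.2 < i) := by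
      ext ⟨a, j⟩
      simp only [mem_filter, mem_insert, Prod.mk.injEq]
      constructor
      · rintro ⟨h1, h2, h3⟩
        rcases (Nat.lt_succ_iff.1 h3).eq_or_lt with h4 | h4
        · exact Or.inl ⟨h2, h4⟩
        · exact Or.inr ⟨h1, h2, h4⟩
      · rintro (⟨rfl, rfl⟩ | ⟨h1, h2, h3⟩)
        · exact ⟨hq, rfl, by omega⟩
        · exact ⟨h1, h2, by omega⟩
    have e2 : (true, i) ∉ (M.filter fun c => c.1 = true ∧ c.2 < i) := by
      simp
    unfold colM
    simp only
    rw [e, card_insert_of_notMem e2, par_succ]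
    generalize par _ = p1
    cases base <;> cases p1 <;> decide

lemma colM_cr {base : Bool} {y' : ℤ} (hy : y < r ↔ y' < r) :
    (colM base M (some r)).cr y = (colM base M (some r)).cr y' := by
  unfold colM
  simp only [hy]

/-! ### The room in the worlds -/

section inst

variable (hb : b.Ok δ σ) (hd : δ ≤ 1) (hh : 0 < h) {c : Bool → ℕ → Bool} (hc : c true 0 = c false 0)
  {n : ℤ} {C : Cl}

include hb hd in
/-- the tiles of the outer layer -/
lemma mem_Wl (hn : 0 < n) (h : RTJ hb hd hc n C x y) (hQ : ¬ InQ b n x y) :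
    lt (x, y) ∈ Wl b n C ↔ lcol b n C x y = true := by
  obtain ⟨i, j, a1, a2, a3, a4, a5⟩ := h.near hb hd hn hc
  obtain ⟨r1, r2, r3⟩ := (inR_iff hb hd hn).1 a5
  have hA := Ar_ge hb r1
  have hA' : n * -(b.X : ℤ) ≤ n * Ar b ((y + j) / n) := by nlinarith
  have hA'' : n * -(b.X : ℤ) = -(b.X * n) := by ring
  have hX' : n * (b.X : ℤ) = b.X * n := by ring
  have r4 := (dst_rows hn).1 r1
  have hH : n * Ht b = ((b.H : ℤ) + b.K) * n := by unfold Ht; ring
  unfold Wl
  simp only [mem_image, mem_filter, mem_product, mem_Icc, Prod.exists]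
  constructor
  · rintro ⟨x', y', ⟨-, -, h2⟩, h3⟩
    have := lt_inj h3
    simp only [Prod.mk.injEq] at this
    obtain ⟨rfl, rfl⟩ := this
    exact h2
  · intro h2
    refine ⟨x, y, ⟨⟨⟨?_, ?_⟩, ?_, ?_⟩, hQ, h2⟩, rfl⟩ <;> omega

/-- a tile of a plate `i ≥ 1` near the room is not in the rows `-1`, `0` -/
lemma RTJ.far (hn : 1 < n) (h : RTJ hb hd hc n C x y) (hx : x < -(n * b.M)) : 0 < y ∨ y < -1 := by
  have hn0 : 0 < n := by omega
  obtain ⟨i, j, a1, a2, a3, a4, a5⟩ := h.near hb hd hn0 hc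
  obtain ⟨r1, r2, r3⟩ := (inR_iff hb hd hn0).1 a5
  by_contra hcon
  have hd0 : dst ((y + j) / n) = 0 := by
    have h1 : dst ((y + j) / n) < 1 := by
      rw [dst_lt, Int.le_ediv_iff_mul_le hn0, Int.ediv_lt_iff_lt_mul hn0]
      omega
    have := dst_nonneg ((y + j) / n)
    omega
  have hA : Ar b ((y + j) / n) = 0 := by
    unfold Ar
    rw [hd0]
    have hH : (0 : ℤ) < b.H := by exact_mod_cast hb.H0
    have hτ : (0 : ℤ) < b.τ := by exact_mod_cast hb.τ0
    have hP := nP_pos hb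
    rw [ArD_slit hH (by omega)]
    have : ((0 : ℤ) - b.τ + 1).toNat = 0 := by omega
    rw [this]; simp
  rw [hA] at r2
  have hM : (0 : ℤ) < b.M := by exact_mod_cast hb.M0
  have : n ≤ n * b.M := by nlinarith
  omega

/-- the colour changes of the wall -/
lemma hB_colM {base : Bool} (hr : -(n * Ht b) < r) :
    (colM base M (some r)).cr (-(n * Ht b) - 1) = (colM base M (some r)).cr (-(n * Ht b)) :=
  colM_cr (by omega)

lemma hT_colM {base : Bool} (hr : r < n * Ht b) :
    (colM base M (some r)).cr (n * Ht b) = (colM base M (some r)).cr (n * Ht b - 1) :=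
  colM_cr (by omega)

lemma mem_str : lt (x, y) ∈ lt '' strD (x0, r) ↔ y = r ∧ x0 ≤ x := by
  constructor
  · rintro ⟨p, h1, h2⟩
    have := lt_inj h2
    subst this
    exact h1
  · exact fun h => ⟨(x, y), h, rfl⟩

include hb hd hh

/-- **`GX` at fixed colours of the plates.** -/
theorem jw_X (hm : b.m ≤ nP b) {base : Bool} (hM : ∀ q ∈ M, q.2 < b.K)
    (hr : -(2 * h * Ht b) < r) (hr' : r < 2 * h * Ht b) :
    JW hb hd (cX_zero (b := b) (o := o) (cl := cl)) (2 * h) (colM base M (some r)) x0 r M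
      (lt '' strD (x0, r)) (cfg b h o (plt b h cl) ∪ Wl b (2 * h) (colM base M (some r))) where
  room x y hR := by
    rw [mem_union, not_or]
    refine ⟨?_, lt_mem_Wl hR.1⟩
    have h1 : lt (x, y) ∉ plt b h cl := fun h2 => by
      obtain ⟨-, i, h3, -⟩ := (lt_mem_plt hb hh).1 h2
      rw [hR.2] at h3
      cases h3
    have h2 : lt (x, y) ∉ b.Pl h := fun h2 => by
      obtain ⟨i, -, h3⟩ := (lt_mem_Pl hb hh).1 h2
      rw [hR.2] at h3
      cases h3
    unfold cfg
    split_ifs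
    · rw [mem_union]; tauto
    · rw [mem_sdiff]; tauto
  plate x y i hT hQ hR hi := by
    rw [mem_union, or_iff_left (lt_mem_Wl hQ)]
    have := mem_cfg (o := o) (cl := cl) hb hh (empty_subset _) hQ hi
    rw [empty_union] at this
    exact this
  outer x y hT hQ := by
    rw [mem_union, or_iff_right (not_mem_B_cfg hb hh hQ fun hP => hQ (Pl_sub hb hd hh hm hP))]
    exact mem_Wl hb hd _ (by positivity) hT hQ
  del x y hT := mem_str
  mrk q hq := ⟨hM q hq, colM_mrk hq⟩
  hB := hB_colM hr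
  hT := hT_colM hr'

/-- **`GY` at fixed colours of the plates.** -/
theorem jw_Y (hm : b.m ≤ nP b) (hk : 1 ≤ k) {base : Bool} (hM : ∀ q ∈ M, q.2 < b.K)
    (hr : -(2 * h * Ht b) < r) (hr' : r < 2 * h * Ht b) {x1 : ℤ} (hx1 : x1 = -(k * b.M * (2 * h))) :
    JW hb hd (cY_zero (b := b) (o := o) (cl := cl) (s := s) hk) (2 * h) (colM base M (some r)) x0 r M
      (lt '' (strD (x0, r) ∪ slD s x1))
      (symmDiff (cfg b h o (plt b h cl)) (flp b h s x1) ∪ Wl b (2 * h) (colM base M (some r))) where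
  room x y hR := by
    have h0 := (jw_X (o := o) (cl := cl) (x0 := x0) (base := base) hb hd hh hm hM hr hr').room x y hR
    rw [mem_union, not_or] at h0 ⊢
    refine ⟨?_, h0.2⟩
    rw [mem_symmDiff, not_or]
    refine ⟨fun h1 => h0.1 h1.1, fun h1 => ?_⟩
    have h2 := h1.1
    simp only [flp, mem_filter, tt_lt] at h2
    exact h2.2.1.2 hR.2
  plate x y i hT hQ hR hi := by
    rw [mem_union, or_iff_left (lt_mem_Wl hQ)]
    have h0 := mem_cfg (o := o) (cl := cl) hb hh (empty_subset _) hQ hi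
    rw [empty_union] at h0
    have hn : (1 : ℤ) < 2 * h := by omega
    have hn0 : (0 : ℤ) < 2 * h := by omega
    have hM' : (0 : ℤ) < b.M := by exact_mod_cast hb.M0
    have hi' := (chn_some hb.M0).1 hi
    obtain ⟨⟨i1, i2⟩, -⟩ := hi'
    simp only [zero_sub] at i1 i2
    rw [Int.le_ediv_iff_mul_le hn0] at i1
    rw [Int.ediv_lt_iff_lt_mul hn0] at i2
    have hxk : x < x1 ↔ k ≤ i := by
      rw [hx1]
      constructor
      · intro h1
        by_contra h2
        have h3 : ((i : ℤ) + 1) * b.M ≤ k * b.M :=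
          mul_le_mul_of_nonneg_right (by omega) hM'.le
        nlinarith
      · intro h1
        have h3 : (k : ℤ) * b.M ≤ i * b.M := mul_le_mul_of_nonneg_right (by omega) hM'.le
        nlinarith
    have hF : lt (x, y) ∈ flp b h s x1 ↔ decide (0 ≤ y) = s ∧ k ≤ i := by
      simp only [flp, mem_filter, tt_lt]
      rw [lt_mem_B hh, hxk]
      unfold InC
      constructor
      · rintro ⟨-, -, h3, h4⟩
        refine ⟨?_, h3⟩
        cases s
        · simp only [Bool.false_eq_true, if_false] at h4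
          exact decide_eq_false (by omega)
        · simp only [if_true] at h4
          exact decide_eq_true (by omega)
      · rintro ⟨h3, h4⟩
        have h5 : x < -(2 * h * b.M) := by
          have h6 : (1 : ℤ) * b.M ≤ i * b.M := mul_le_mul_of_nonneg_right (by omega) hM'.le
          nlinarith
        have h6 := RTJ.far hb hd _ hn hT h5
        refine ⟨hQ, ⟨hQ, by rw [hi]; simp⟩, h4, ?_⟩
        cases s
        · have := of_decide_eq_false h3
          simp only [Bool.false_eq_true, if_false]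
          omega
        · have := of_decide_eq_true h3
          simp only [if_true]
          omega
    rw [mem_symmDiff, h0, hF]
    unfold cY
    by_cases hP : decide (0 ≤ y) = s ∧ k ≤ i
    · rw [decide_eq_true hP]
      cases cPl b o cl i <;> simp [hP]
    · rw [decide_eq_false hP]
      cases cPl b o cl i <;> simp [hP]
  outer x y hT hQ := by
    have h0 := not_mem_B_cfg (o := o) (cl := cl) hb hh hQ fun hP => hQ (Pl_sub hb hd hh hm hP)
    have h1 : lt (x, y) ∉ flp b h s x1 := fun h2 => by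
      simp only [flp, mem_filter, tt_lt] at h2
      exact hQ h2.2.1.1
    have h2 : lt (x, y) ∉ symmDiff (cfg b h o (plt b h cl)) (flp b h s x1) := by
      rw [mem_symmDiff]; tauto
    rw [mem_union, or_iff_right h2]
    exact mem_Wl hb hd _ (by positivity) hT hQ
  del x y hT := by
    rw [Set.image_union, Set.mem_union, mem_str]
    refine or_iff_left ?_
    rintro ⟨p, h1, h2⟩
    have := lt_inj h2
    subst this
    have hn : (1 : ℤ) < 2 * h := by omega
    have hM' : (0 : ℤ) < b.M := by exact_mod_cast hb.M0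
    have h3 : x < -(2 * h * b.M) := by
      have h4 : x < x1 := h1.2
      have h6 : (1 : ℤ) * b.M ≤ k * b.M := mul_le_mul_of_nonneg_right (by omega) hM'.le
      nlinarith
    have h5 := RTJ.far hb hd _ hn hT h3
    have h6 : y = Yr s := h1.1
    unfold Yr at h6
    split_ifs at h6 <;> omega
  mrk q hq := ⟨hM q hq, colM_mrk hq⟩
  hB := hB_colM hr
  hT := hT_colM hr'

end inst

/-! ### Final form -/

section final

variable (hb : b.Ok δ σ) (hd : δ ≤ 1) (c2 c3 c4 : Bool × ℕ) (w : Bool)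

/-- coarse data of the room in `GX` -/
def cdX (hb : b.Ok δ σ) (hd : δ ≤ 1) (w : Bool) (M : Finset (Bool × ℕ)) (r : ℤ) (o : Bool)
    (cl : Fin (nP b) → Bool) : CD :=
  cdJ b (cX b o cl) (colM (bs w) M (some r)).u (colM (bs w) M (some r)).l hb hd cX_zero

/-- coarse data of the room in `GY`, mark at the gap `- k M n` of the bank `s` -/
def cdY (hb : b.Ok δ σ) (hd : δ ≤ 1) (w s : Bool) {k : ℕ} (hk : 1 ≤ k) (M : Finset (Bool × ℕ)) (r : ℤ)
    (o : Bool) (cl : Fin (nP b) → Bool) : CD :=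
  cdJ b (cY b o cl s k) (colM (bsP w s) M (some r)).u (colM (bsP w s) M (some r)).l hb hd (cY_zero hk)

/-- open labels of `GX` outside of the room -/
noncomputable def wX (b : JBox) (h : ℕ) (w : Bool) (M : Finset (Bool × ℕ)) (r : ℤ) (o : Bool)
    (cl : Fin (nP b) → Bool) : Finset (ℤ × ℤ) :=
  cfg b h o (plt b h cl) ∪ Wl b (2 * h) (colM (bs w) M (some r))

/-- open labels of `GY` outside of the room -/
noncomputable def wY (b : JBox) (h : ℕ) (w s : Bool) (x1 : ℤ) (M : Finset (Bool × ℕ)) (r : ℤ) (o : Bool)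
    (cl : Fin (nP b) → Bool) : Finset (ℤ × ℤ) :=
  symmDiff (cfg b h o (plt b h cl)) (flp b h s x1) ∪ Wl b (2 * h) (colM (bsP w s) M (some r))

/-- **`GX` contains the room.** -/
theorem roomIn_X (hh : 4 ≤ h) (hm : b.m ≤ nP b) (hM : ∀ q ∈ M, q.2 < b.K)
    (hr : -(2 * h * Ht b) < r) (hr' : r < 2 * h * Ht b) :
    RoomIn (cdX hb hd w M r o cl) (2 * h) (-(2 * h * Ht b))
      (fun y => (colM (bs w) M (some r)).cr (y - 2 * h * Ht b)) x0 (r + 2 * h * Ht b)
      (Lam b (2 * h) M) (lt '' strD (x0, r)) (wX b h w M r o cl) :=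
  roomIn_J hb hd _ (by omega) (by omega)
    (jw_X (o := o) (cl := cl) hb hd (by omega) hm hM hr hr')

/-- **`GY` contains the room.** -/
theorem roomIn_Y (hh : 4 ≤ h) (hm : b.m ≤ nP b) (hk : 1 ≤ k) (hM : ∀ q ∈ M, q.2 < b.K)
    (hr : -(2 * h * Ht b) < r) (hr' : r < 2 * h * Ht b) {x1 : ℤ} (hx1 : x1 = -(k * b.M * (2 * h))) :
    RoomIn (cdY hb hd w s hk M r o cl) (2 * h) (-(2 * h * Ht b))
      (fun y => (colM (bsP w s) M (some r)).cr (y - 2 * h * Ht b)) x0 (r + 2 * h * Ht b)
      (Lam b (2 * h) M) (lt '' (strD (x0, r) ∪ slD s x1)) (wY b h w s x1 M r o cl) :=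
  roomIn_J hb hd _ (by omega) (by omega)
    (jw_Y (o := o) (cl := cl) (s := s) hb hd (by omega) hm hk hM hr hr' hx1)

include hb in
theorem gX_eq (hh : 0 < h) (hω : ω ⊆ E1 b h) : GX b h w c2 c3 c4 (x0, r) o (ω ∪ plt b h cl) =
    SG (Lam b (2 * h) {c2, c3, c4}) (lt '' strD (x0, r)) (wX b h w {c2, c3, c4} r o cl ∪ ω) := by
  unfold GX Pool.Agent.H61.W.GG wX
  rw [cfg_union hb hh hω]
  congr 1
  ext e
  simp only [mem_union]
  tauto

include hb in
theorem gY_eq (hh : 0 < h) {x1 : ℤ} (hω : ω ⊆ E1 b h) : GY b h w s x1 c3 c4 (x0, r) o (ω ∪ plt b h cl) =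
    SG (Lam b (2 * h) {c3, c4}) (lt '' (strD (x0, r) ∪ slD s x1))
      (wY b h w s x1 {c3, c4} r o cl ∪ ω) := by
  unfold GY Pool.Agent.H61.W.GG wY
  rw [symm_union hb hh hω]
  congr 1
  ext e
  simp only [mem_union]
  tauto

/-- **The labels of the room**, moved. -/
theorem E1_eq {c : Bool → ℕ → Bool} {u l : ℕ → Bool} (hc : c true 0 = c false 0) (hh : 0 < h) :
    E1 b h = trF (-(-(2 * h * Ht b))) (-(2 * h * Ht b)) (ER (cdJ b c u l hb hd hc) (2 * h)) := by
  have hn : (0 : ℤ) < 2 * h := by omega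
  have key : ∀ x y, lt (x, y) ∈ trF (-(-(2 * h * Ht b))) (-(2 * h * Ht b))
      (ER (cdJ b c u l hb hd hc) (2 * h)) ↔ InR b (2 * h) x y := by
    intro x y
    have e : lt (x, y) = tr (-(-(2 * h * Ht b))) (-(2 * h * Ht b)) (lt (x, y + 2 * h * Ht b)) := by
      rw [tr_lt]
      congr 2
      ring
    rw [e, Pool.Agent.H45.W.tr_mem_trF, mem_ER hn]
    exact rp_iff hb hd hn hc
  ext e
  constructor
  · intro he
    have h1 : (e.1 + e.2) % 2 = 1 := by
      unfold E1 at he
      rw [mem_filter] at he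
      exact ((mem_B hh).1 he.1).1
    rw [← lt_tt h1] at he ⊢
    exact (key _ _).2 ((lt_mem_E1 hh).1 he)
  · intro he
    have h1 : (e.1 + e.2) % 2 = 1 := by
      have h2 := Pool.Agent.H45.W.mem_trF.1 he
      have h3 := odd_ER h2
      unfold tr at h3
      simp only at h3
      omega
    rw [← lt_tt h1] at he ⊢
    exact (lt_mem_E1 hh).2 ((key _ _).1 he)

/-- **Probabilities in the room.** -/
theorem Pr_E1 {c : Bool → ℕ → Bool} {u l : ℕ → Bool} (hc : c true 0 = c false 0) (hh : 0 < h)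
    (A : Finset (ℤ × ℤ) → Prop) : Pr (E1 b h) A = Pr (ER (cdJ b c u l hb hd hc) (2 * h))
      (fun ω => A (trF (-(-(2 * h * Ht b))) (-(2 * h * Ht b)) ω)) := by
  rw [E1_eq hb hd hc hh]
  exact Pr_map _ _ _

lemma trF_sub_E1 {c : Bool → ℕ → Bool} {u l : ℕ → Bool} (hc : c true 0 = c false 0) (hh : 0 < h)
    (hω : ω ⊆ ER (cdJ b c u l hb hd hc) (2 * h)) :
    trF (-(-(2 * h * Ht b))) (-(2 * h * Ht b)) ω ⊆ E1 b h := by
  rw [E1_eq hb hd hc hh]
  exact Finset.map_subset_map.2 hω

omit hd in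
/-- the moving end in the coordinates of the room -/
lemma zc_eq : zc (x0, r) = tr (-(-(2 * h * Ht b))) (-(2 * h * Ht b)) (eW (lt (x0, r + 2 * h * Ht b))) := by
  rw [← Pool.Agent.H45.W.eW_tr, tr_lt]
  unfold zc
  congr 2
  ring_nf

/-! ### The colours of all tiles -/

include hb in
/-- **all plate tiles in `GX`** -/
lemma wX_plate (hh : 0 < h) (hQ : InQ b (2 * h) x y) {i : ℕ}
    (hi : chn 0 b.M b.τ (x / (2 * h), y / (2 * h)) = some i) :
    lt (x, y) ∈ wX b h w M r o cl ↔ cX b o cl (decide (0 ≤ y)) i = true := by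
  unfold wX
  rw [mem_union, or_iff_left (lt_mem_Wl hQ)]
  have := mem_cfg (o := o) (cl := cl) hb hh (empty_subset _) hQ hi
  rw [empty_union] at this
  exact this

include hb in
/-- **all plate tiles in `GY`** off the deleted row -/
lemma wY_plate (hh : 0 < h) {x1 : ℤ} (hx1 : x1 = -(k * b.M * (2 * h))) (hQ : InQ b (2 * h) x y)
    (hD : ¬ (y = Yr s ∧ x < x1)) {i : ℕ}
    (hi : chn 0 b.M b.τ (x / (2 * h), y / (2 * h)) = some i) :
    lt (x, y) ∈ wY b h w s x1 M r o cl ↔ cY b o cl s k (decide (0 ≤ y)) i = true := by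
  unfold wY
  rw [mem_union, or_iff_left (lt_mem_Wl hQ)]
  have h0 := mem_cfg (o := o) (cl := cl) hb hh (empty_subset _) hQ hi
  rw [empty_union] at h0
  have hn0 : (0 : ℤ) < 2 * h := by omega
  have hM' : (0 : ℤ) < b.M := by exact_mod_cast hb.M0
  obtain ⟨⟨i1, i2⟩, -⟩ := (chn_some hb.M0).1 hi
  simp only [zero_sub] at i1 i2
  rw [Int.le_ediv_iff_mul_le hn0] at i1
  rw [Int.ediv_lt_iff_lt_mul hn0] at i2
  have hxk : x < x1 ↔ k ≤ i := by
    rw [hx1]
    constructor
    · intro h1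
      by_contra h2
      have h3 : ((i : ℤ) + 1) * b.M ≤ k * b.M :=
        mul_le_mul_of_nonneg_right (by omega) hM'.le
      nlinarith
    · intro h1
      have h3 : (k : ℤ) * b.M ≤ i * b.M := mul_le_mul_of_nonneg_right (by omega) hM'.le
      nlinarith
  have hF : lt (x, y) ∈ flp b h s x1 ↔ decide (0 ≤ y) = s ∧ k ≤ i := by
    simp only [flp, mem_filter, tt_lt]
    rw [lt_mem_B hh, hxk]
    unfold InC
    constructor
    · rintro ⟨-, -, h3, h4⟩
      refine ⟨?_, h3⟩
      cases s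
      · simp only [Bool.false_eq_true, if_false] at h4
        exact decide_eq_false (by omega)
      · simp only [if_true] at h4
        exact decide_eq_true (by omega)
    · rintro ⟨h3, h4⟩
      refine ⟨hQ, ⟨hQ, by rw [hi]; simp⟩, h4, ?_⟩
      have h5 : y ≠ Yr s := fun h6 => hD ⟨h6, hxk.2 h4⟩
      unfold Yr at h5
      cases s
      · have := of_decide_eq_false h3
        simp only [Bool.false_eq_true, if_false] at h5 ⊢
        omega
      · have := of_decide_eq_true h3
        simp only [if_true] at h5 ⊢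
        omega
  rw [mem_symmDiff, h0, hF]
  unfold cY
  by_cases hP : decide (0 ≤ y) = s ∧ k ≤ i
  · rw [decide_eq_true hP]
    cases cPl b o cl i <;> simp [hP]
  · rw [decide_eq_false hP]
    cases cPl b o cl i <;> simp [hP]

include hb in
/-- the box of the outer layer -/
lemma Ly_box {n : ℤ} {C' : Cl} (hn : 0 < n) (h : Ly b n x y) :
    lt (x, y) ∈ Wl b n C' ↔ lcol b n C' x y = true := by
  obtain ⟨hQ, i, j, a1, a2, a3⟩ := h
  rw [abs_le] at a1 a2
  obtain ⟨r1, r2, r3⟩ := (inQ_iff hb hn).1 a3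
  have hX' : n * (b.X : ℤ) = b.X * n := by ring
  have r4 := (dst_rows hn).1 r1
  have hH : n * Ht b = ((b.H : ℤ) + b.K) * n := by unfold Ht; ring
  have r5 : -(n * b.X : ℤ) ≤ x + i := by
    split_ifs at r3 with h6
    · exact r3
    · have h7 := (hb.st_lo (dst ((y + j) / n) - b.H).toNat (by unfold Ht at r1; omega)).1
      nlinarith
  unfold Wl
  simp only [mem_image, mem_filter, mem_product, mem_Icc, Prod.exists]
  constructor
  · rintro ⟨x', y', ⟨-, -, h2⟩, h3⟩
    have := lt_inj h3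
    simp only [Prod.mk.injEq] at this
    obtain ⟨rfl, rfl⟩ := this
    exact h2
  · intro h2
    refine ⟨x, y, ⟨⟨⟨?_, ?_⟩, ?_, ?_⟩, hQ, h2⟩, rfl⟩ <;> omega

include hb hd in
/-- **all tiles of the outer layer in `GX`** -/
lemma wX_outer (hh : 0 < h) (hm : b.m ≤ nP b) (hL : Ly b (2 * h) x y) :
    lt (x, y) ∈ wX b h w M r o cl ↔ lcol b (2 * h) (colM (bs w) M (some r)) x y = true := by
  unfold wX
  rw [mem_union, or_iff_right (not_mem_B_cfg hb hh hL.1 fun hP => hL.1 (Pl_sub hb hd hh hm hP))]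
  exact Ly_box hb (by omega) hL

include hb hd in
/-- **all tiles of the outer layer in `GY`** -/
lemma wY_outer (hh : 0 < h) (hm : b.m ≤ nP b) {x1 : ℤ} (hL : Ly b (2 * h) x y) :
    lt (x, y) ∈ wY b h w s x1 M r o cl ↔ lcol b (2 * h) (colM (bsP w s) M (some r)) x y = true := by
  have h0 := not_mem_B_cfg (o := o) (cl := cl) hb hh hL.1 fun hP => hL.1 (Pl_sub hb hd hh hm hP)
  have h1 : lt (x, y) ∉ flp b h s x1 := fun h2 => by
    simp only [flp, mem_filter, tt_lt] at h2
    exact hL.1 h2.2.1.1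
  have h2 : lt (x, y) ∉ symmDiff (cfg b h o (plt b h cl)) (flp b h s x1) := by
    rw [mem_symmDiff]; tauto
  unfold wY
  rw [mem_union, or_iff_right h2]
  exact Ly_box hb (by omega) hL

end final

end Pool.Agent.H21.W
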