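import Pool.Agent.H21.W.Tau
import Pool.Agent.H54.W.DefH

set_option autoImplicit false

/-! # Chains of positions in the windows of `H54/W` -/

namespace Pool.Agent.H21.W.TauPos

open Pool.Agent.H54.W Pool.Agent.H21.W.Tau

variable {D : Win} {H : HWin} {τ σ : ℤ → ℤ}

lemma pos_iff : Pos D τ ↔ OkT D.a D.w 0 D.h τ :=
  ⟨fun h => ⟨h.lo, h.hi, h.up, h.dn⟩, fun h => ⟨h.lo, h.hi, h.up, h.dn⟩⟩

lemma hpos_iff : HPos H τ ↔ OkT H.a H.w H.p H.q τ :=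
  ⟨fun h => ⟨h.lo, h.hi, h.up, h.dn⟩, fun h => ⟨h.lo, h.hi, h.dn, h.up⟩⟩

lemma comp_iff {i y₁ y₂ : ℤ} : Comp D i y₁ y₂ ↔ CompT D.a 0 D.h i y₁ y₂ :=
  ⟨fun h => ⟨h.h0, h.h1, h.h2, h.le, h.bot, h.top⟩,
    fun h => ⟨h.y0, h.y12, h.yh, h.room, h.bot, h.top⟩⟩

/-- a step in a vertical window: the strip `[y₁, y₂)` of the column `i` is swept -/
structure VStep (D : Win) (τ : ℤ → ℤ) (i y₁ y₂ : ℤ) : Prop extends Comp D i y₁ y₂ where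
  tau : ∀ y, y₁ ≤ y → y < y₂ → τ y = i + 1

lemma vstep_iff {i y₁ y₂ : ℤ} : VStep D τ i y₁ y₂ ↔ Stp D.a 0 D.h τ i y₁ y₂ :=
  ⟨fun h => ⟨comp_iff.1 h.toComp, h.tau⟩, fun h => ⟨comp_iff.2 h.toCompT, h.tau⟩⟩

lemma VStep.pos (hP : Pos D τ) {i y₁ y₂ : ℤ} (hS : VStep D τ i y₁ y₂) :
    Pos D (push τ i y₁ y₂) :=
  pos_iff.2 ((vstep_iff.1 hS).ok (pos_iff.1 hP))

/-- **Induction along the steps between two positions of the line** -/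
theorem pos_induction {P : (ℤ → ℤ) → Prop} (hO : Pos D τ) (hO' : Pos D σ)
    (hle : ∀ y, 0 ≤ y → y < D.h → σ y ≤ τ y) (h0 : P τ)
    (hcongr : ∀ ρ ρ', (∀ y, 0 ≤ y → y < D.h → ρ' y = ρ y) → P ρ → P ρ')
    (hstep : ∀ ρ i y₁ y₂, Pos D ρ → (∀ y, 0 ≤ y → y < D.h → σ y ≤ ρ y ∧ ρ y ≤ τ y) → P ρ →
      VStep D ρ i y₁ y₂ → (∀ v, y₁ ≤ v → v < y₂ → σ v ≤ i) → P (push ρ i y₁ y₂)) : P σ :=
  chain_induction (pos_iff.1 hO) (pos_iff.1 hO') hle h0 hcongr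
    fun ρ i y₁ y₂ h1 h2 h3 h4 h5 => hstep ρ i y₁ y₂ (pos_iff.2 h1) h2 h3 (vstep_iff.2 h4) h5

/-- a step in a horizontal window: the strip `[x₁, x₂)` of the row `i` is swept -/
structure HStep (H : HWin) (τ : ℤ → ℤ) (i x₁ x₂ : ℤ) : Prop where
  x0 : H.p ≤ x₁
  x12 : x₁ < x₂
  xq : x₂ ≤ H.q
  room : ∀ x, x₁ ≤ x → x < x₂ → H.a x ≤ i
  left : H.p < x₁ → i < H.a (x₁ - 1)
  right : x₂ < H.q → i < H.a x₂
  tau : ∀ x, x₁ ≤ x → x < x₂ → τ x = i + 1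

lemma hstep_iff {i x₁ x₂ : ℤ} : HStep H τ i x₁ x₂ ↔ Stp H.a H.p H.q τ i x₁ x₂ :=
  ⟨fun h => ⟨⟨h.x0, h.x12, h.xq, h.room, h.left, h.right⟩, h.tau⟩,
    fun h => ⟨h.y0, h.y12, h.yh, h.room, h.bot, h.top, h.tau⟩⟩

lemma HStep.pos (hP : HPos H τ) {i x₁ x₂ : ℤ} (hS : HStep H τ i x₁ x₂) :
    HPos H (push τ i x₁ x₂) :=
  hpos_iff.2 ((hstep_iff.1 hS).ok (hpos_iff.1 hP))

/-- **Induction along the steps between two positions of the line**, horizontal windows -/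
theorem hpos_induction {P : (ℤ → ℤ) → Prop} (hO : HPos H τ) (hO' : HPos H σ)
    (hle : ∀ x, H.p ≤ x → x < H.q → σ x ≤ τ x) (h0 : P τ)
    (hcongr : ∀ ρ ρ', (∀ x, H.p ≤ x → x < H.q → ρ' x = ρ x) → P ρ → P ρ')
    (hstep : ∀ ρ i x₁ x₂, HPos H ρ → (∀ x, H.p ≤ x → x < H.q → σ x ≤ ρ x ∧ ρ x ≤ τ x) → P ρ →
      HStep H ρ i x₁ x₂ → (∀ v, x₁ ≤ v → v < x₂ → σ v ≤ i) → P (push ρ i x₁ x₂)) : P σ :=
  chain_induction (hpos_iff.1 hO) (hpos_iff.1 hO') hle h0 hcongr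
    fun ρ i y₁ y₂ h1 h2 h3 h4 h5 => hstep ρ i y₁ y₂ (hpos_iff.2 h1) h2 h3 (hstep_iff.2 h4) h5

end Pool.Agent.H21.W.TauPos
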