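import Mathlib
import Pool.Agent.H21.W.JInst
import Pool.Agent.H61.W.JThX

set_option autoImplicit false
open Finset

/-! # The named ends of the room of the junction box

`nm C c0 n k` (helper20) for `C = cdJ`, in the coordinates of the box (`nmJ`): at the corners of the gaps
(`nmJ_gapU`, `nmJ_gapL`), at the marks (`nmJ_mark` : `f1` or `f2`). `Mk_J` : list of the marks of `cdJ` for the
colours `colM`. `cr_crz` : the right wall is helper20's. `MkY_iff` : list for `GY`. -/

namespace Pool.Agent.H21.W

open Pool.Agent.H75.Perc hiding WL CT hh PB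
open Pool.Agent.H13.W Pool.Agent.H33.Q1
open Pool.Agent.H6.W Pool.Agent.H50.W Pool.Agent.H58.W Pool.Agent.H61.W Pool.Agent.H20.W
open Pool.Agent.H54.W (CD)
open Pool.Agent.H45.W (tr trS trF)

variable {b : JBox} {δ σ : ℝ} {h : ℕ} {o : Bool} {cl : Fin (nP b) → Bool} {s : Bool} {k : ℕ}
  {M : Finset (Bool × ℕ)} {x y x0 r n : ℤ} {ω : Finset (ℤ × ℤ)} {c : Bool → ℕ → Bool} {u l : ℕ → Bool}
  {c0 : Bool}

/-! ### Rows near the corners -/

lemma Ar_gap (hb : b.Ok δ σ) (hd : δ ≤ 1) {i : ℕ} (hi : i < nP b) :
    Ar b (b.τ + i - 1) = -((i : ℤ) * b.M) ∧ Ar b (b.τ + i) = -(((i : ℤ) + 1) * b.M) := by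
  have ht := thick hb hd
  have hτ : (0 : ℤ) < b.τ := by exact_mod_cast hb.τ0
  have hX := X_eq hb
  unfold Ar
  rw [dst_pos (by omega), dst_pos (by omega)]
  constructor
  · rw [ArD_slit (by omega) (by omega)]
    have : ((b.τ : ℤ) + i - 1 - b.τ + 1).toNat = i := by omega
    rw [this]
  · rcases Nat.lt_or_ge (i + 1) (nP b) with h1 | h1
    · rw [ArD_slit (by omega) (by omega)]
      have : ((b.τ : ℤ) + i - b.τ + 1).toNat = i + 1 := by omega
      rw [this]
      push_cast
      ring
    · rw [ArD_wall (by omega) (by omega), hX]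
      have : (nP b : ℤ) = i + 1 := by omega
      rw [this]

lemma Ar_step (hb : b.Ok δ σ) {i : ℕ} (hi : i < b.K) : Ar b (b.H + i) = b.st i := by
  unfold Ar
  rw [dst_pos (by omega), ArD_step (by omega)]
  congr 1
  omega

lemma AJ_up (Y : ℤ) : AJ b (Ht b + Y) = Ar b Y := by
  unfold AJ
  congr 1
  ring

lemma AJ_dn (Y : ℤ) : AJ b (Ht b - 1 - Y) = Ar b Y := by
  unfold AJ
  rw [show Ht b - 1 - Y - Ht b = -1 - Y by ring, Ar_neg]

section names

variable (hb : b.Ok δ σ) (hd : δ ≤ 1) (hc : c true 0 = c false 0)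

/-- colour at the left of a row, upper half -/
lemma CLJ_up {Y : ℤ} (hY : 0 ≤ Y) : CLJ b c u l (Ht b + Y) = clD b (c true) u Y := by
  unfold CLJ clJ
  rw [show Ht b + Y - Ht b = Y by ring, dst_pos hY, if_pos hY, decide_eq_true hY]

/-- colour at the left of a row, lower half -/
lemma CLJ_dn {Y : ℤ} (hY : 0 ≤ Y) : CLJ b c u l (Ht b - 1 - Y) = clD b (c false) l Y := by
  unfold CLJ clJ
  rw [show Ht b - 1 - Y - Ht b = -1 - Y by ring, dst_neg, dst_pos hY, if_neg (by omega),
    decide_eq_false (by omega)]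

lemma cdJ_H : (cdJ b c u l hb hd hc).H = 2 * Ht b := rfl
lemma cdJ_A (Y : ℤ) : (cdJ b c u l hb hd hc).A Y = AJ b Y := rfl
lemma cdJ_CL (Y : ℤ) : (cdJ b c u l hb hd hc).CL Y = CLJ b c u l Y := rfl

/-- the named end at the upper corner of the gap `i` -/
theorem nm_gapU {i : ℕ} (hi : i < nP b) : nm (cdJ b c u l hb hd hc) c0 n (gapU b i) =
    sdp (n * -(((i : ℤ) + 1) * b.M)) (n * (Ht b + b.τ + i)) (if c true i = false then 1 else 3) := by
  have ht := thick hb hd
  have hτ : (0 : ℤ) < b.τ := by exact_mod_cast hb.τ0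
  have hM : (0 : ℤ) < b.M := by exact_mod_cast hb.M0
  have hHt : Ht b = b.H + b.K := rfl
  obtain ⟨a1, a2⟩ := Ar_gap hb hd hi
  have e1 : AJ b (gapU b i - 1) = -((i : ℤ) * b.M) := by
    rw [show gapU b i - 1 = Ht b + (b.τ + i - 1) by unfold gapU; ring, AJ_up, a1]
  have e2 : AJ b (gapU b i) = -(((i : ℤ) + 1) * b.M) := by
    rw [show gapU b i = Ht b + (b.τ + i) by unfold gapU; ring, AJ_up, a2]
  have e3 : CLJ b c u l (gapU b i - 1) = c true i := by
    rw [show gapU b i - 1 = Ht b + (b.τ + i - 1) by unfold gapU; ring, CLJ_up (by omega),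
      clD_slit (by omega) (by omega)]
    congr 1
    omega
  have hk : 0 < gapU b i ∧ gapU b i < 2 * Ht b := by unfold gapU; omega
  have hlt : -(((i : ℤ) + 1) * b.M) < -((i : ℤ) * b.M) := by nlinarith
  unfold nm
  have q1 : qx (cdJ b c u l hb hd hc) (gapU b i) = -(((i : ℤ) + 1) * b.M) := by
    unfold qx
    rw [cdJ_H, if_neg (by omega), if_neg (by omega), if_neg (by omega), cdJ_A, cdJ_A, e1, e2,
      min_eq_right hlt.le]
  have q2 : qy (cdJ b c u l hb hd hc) (gapU b i) = Ht b + b.τ + i := by
    unfold qy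
    rw [cdJ_H, if_neg (by omega), if_neg (by omega)]
    rfl
  have q3 : wd (cdJ b c u l hb hd hc) c0 (gapU b i) = if c true i = false then 1 else 3 := by
    have hcol : col (cdJ b c u l hb hd hc) c0 (gapU b i) = c true i := by
      unfold col
      rw [cdJ_H, if_neg (by omega), if_neg (by omega), if_pos (by omega), cdJ_CL, e3]
    unfold wd
    rw [cdJ_H, if_neg (by omega), if_neg (by omega), if_pos hk.2, cdJ_A, cdJ_A, e1, e2,
      if_neg (by omega), hcol]
  rw [q1, q2, q3]

/-- the named end at the lower corner of the gap `i` -/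
theorem nm_gapL {i : ℕ} (hi : i < nP b) : nm (cdJ b c u l hb hd hc) c0 n (gapL b i) =
    sdp (n * -(((i : ℤ) + 1) * b.M)) (n * (Ht b - b.τ - i))
      (if Pool.Agent.H61.W.cf b (c false) l (i + 1) = false then 3 else 0) := by
  have ht := thick hb hd
  have hτ : (0 : ℤ) < b.τ := by exact_mod_cast hb.τ0
  have hM : (0 : ℤ) < b.M := by exact_mod_cast hb.M0
  have hHt : Ht b = b.H + b.K := rfl
  obtain ⟨a1, a2⟩ := Ar_gap hb hd hi
  have e1 : AJ b (gapL b i - 1) = -(((i : ℤ) + 1) * b.M) := by
    rw [show gapL b i - 1 = Ht b - 1 - (b.τ + i) by unfold gapL; ring, AJ_dn, a2]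
  have e2 : AJ b (gapL b i) = -((i : ℤ) * b.M) := by
    rw [show gapL b i = Ht b - 1 - (b.τ + i - 1) by unfold gapL; ring, AJ_dn, a1]
  have e3 : CLJ b c u l (gapL b i - 1) = Pool.Agent.H61.W.cf b (c false) l (i + 1) := by
    rw [show gapL b i - 1 = Ht b - 1 - (b.τ + i) by unfold gapL; ring, CLJ_dn (by omega)]
    unfold Pool.Agent.H61.W.cf
    split_ifs with h1
    · rw [clD_slit (by omega) (by omega)]
      congr 1
      omega
    · rw [clD_wall (by omega) (by omega)]
  have hk : 0 < gapL b i ∧ gapL b i < 2 * Ht b := by unfold gapL; omega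
  have hlt : -(((i : ℤ) + 1) * b.M) < -((i : ℤ) * b.M) := by nlinarith
  unfold nm
  have q1 : qx (cdJ b c u l hb hd hc) (gapL b i) = -(((i : ℤ) + 1) * b.M) := by
    unfold qx
    rw [cdJ_H, if_neg (by omega), if_neg (by omega), if_neg (by omega), cdJ_A, cdJ_A, e1, e2,
      min_eq_left hlt.le]
  have q2 : qy (cdJ b c u l hb hd hc) (gapL b i) = Ht b - b.τ - i := by
    unfold qy
    rw [cdJ_H, if_neg (by omega), if_neg (by omega)]
    rfl
  have q3 : wd (cdJ b c u l hb hd hc) c0 (gapL b i) =
      if Pool.Agent.H61.W.cf b (c false) l (i + 1) = false then 3 else 0 := by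
    have hcol : col (cdJ b c u l hb hd hc) c0 (gapL b i) = Pool.Agent.H61.W.cf b (c false) l (i + 1) := by
      unfold col
      rw [cdJ_H, if_neg (by omega), if_neg (by omega), if_pos (by omega), cdJ_CL, e3]
    unfold wd
    rw [cdJ_H, if_neg (by omega), if_neg (by omega), if_pos hk.2, cdJ_A, cdJ_A, e1, e2,
      if_pos hlt, hcol]
  rw [q1, q2, q3]

/-- the named end at the corner `i` of the ceiling -/
theorem nm_knU {i : ℕ} (hi : i < b.K) : nm (cdJ b c u l hb hd hc) c0 n (kn b (true, i)) =
    sdp (n * b.st i) (n * (Ht b + b.H + i + 1)) (if u i = false then 3 else 0) := by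
  have hHt : Ht b = b.H + b.K := rfl
  have hH : (0 : ℤ) < b.H := by exact_mod_cast hb.H0
  have e0 : kn b (true, i) = Ht b + b.H + i + 1 := by unfold kn; rw [if_pos rfl]
  have e1 : AJ b (Ht b + b.H + i + 1 - 1) = b.st i := by
    rw [show Ht b + b.H + i + 1 - 1 = Ht b + (b.H + i) by ring, AJ_up, Ar_step hb hi]
  have e3 : CLJ b c u l (Ht b + b.H + i + 1 - 1) = u i := by
    rw [show Ht b + b.H + i + 1 - 1 = Ht b + (b.H + i) by ring, CLJ_up (by omega),
      clD_step (by omega)]
    congr 1
    omega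
  rw [e0]
  unfold nm
  have hcol : col (cdJ b c u l hb hd hc) c0 (Ht b + b.H + i + 1) = u i := by
    unfold col
    rw [cdJ_H, if_neg (by omega), if_neg (by omega), if_pos (by omega), cdJ_CL, e3]
  have q2 : qy (cdJ b c u l hb hd hc) (Ht b + b.H + i + 1) = Ht b + b.H + i + 1 := by
    unfold qy
    rw [cdJ_H, if_neg (by omega), if_neg (by omega)]
  rcases Nat.lt_or_ge (i + 1) b.K with h1 | h1
  · have e2 : AJ b (Ht b + b.H + i + 1) = b.st (i + 1) := by
      have := Ar_step hb h1
      rw [show Ht b + b.H + i + 1 = Ht b + (b.H + ((i + 1 : ℕ) : ℤ)) by push_cast; ring, AJ_up, this]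
    have hlt := hb.st_mono i h1
    have q1 : qx (cdJ b c u l hb hd hc) (Ht b + b.H + i + 1) = b.st i := by
      unfold qx
      rw [cdJ_H, if_neg (by omega), if_neg (by omega), if_neg (by omega), cdJ_A, cdJ_A, e1, e2,
        min_eq_left hlt.le]
    have q3 : wd (cdJ b c u l hb hd hc) c0 (Ht b + b.H + i + 1) = if u i = false then 3 else 0 := by
      unfold wd
      rw [cdJ_H, if_neg (by omega), if_neg (by omega), if_pos (by omega), cdJ_A, cdJ_A, e1, e2,
        if_pos hlt, hcol]
    rw [q1, q2, q3]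
  · have e5 : (Ht b + b.H + i + 1 : ℤ) = 2 * Ht b := by omega
    have q1 : qx (cdJ b c u l hb hd hc) (Ht b + b.H + i + 1) = b.st i := by
      unfold qx
      rw [cdJ_H, if_neg (by omega), if_neg (by omega), if_pos e5, cdJ_A, ← e5, e1]
    have q3 : wd (cdJ b c u l hb hd hc) c0 (Ht b + b.H + i + 1) = if u i = false then 3 else 0 := by
      unfold wd
      rw [cdJ_H, if_neg (by omega), if_neg (by omega), if_neg (by omega), if_pos e5, hcol]
    rw [q1, q2, q3]

/-- the named end at the corner `i` of the floor -/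
theorem nm_knL {i : ℕ} (hi : i < b.K) : nm (cdJ b c u l hb hd hc) c0 n (kn b (false, i)) =
    sdp (n * b.st i) (n * (Ht b - b.H - i - 1)) (if l (i + 1) = false then 1 else 3) := by
  have hHt : Ht b = b.H + b.K := rfl
  have hH : (0 : ℤ) < b.H := by exact_mod_cast hb.H0
  have e0 : kn b (false, i) = Ht b - b.H - i - 1 := by unfold kn; rw [if_neg (by simp)]
  have e1 : AJ b (Ht b - b.H - i - 1) = b.st i := by
    rw [show Ht b - b.H - i - 1 = Ht b - 1 - (b.H + i) by ring, AJ_dn, Ar_step hb hi]
  rw [e0]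
  unfold nm
  have q2 : qy (cdJ b c u l hb hd hc) (Ht b - b.H - i - 1) = Ht b - b.H - i - 1 := by
    unfold qy
    rw [cdJ_H, if_neg (by omega), if_neg (by omega)]
  rcases Nat.lt_or_ge (i + 1) b.K with h1 | h1
  · have e2 : AJ b (Ht b - b.H - i - 1 - 1) = b.st (i + 1) := by
      have := Ar_step hb h1
      rw [show Ht b - b.H - i - 1 - 1 = Ht b - 1 - (b.H + ((i + 1 : ℕ) : ℤ)) by push_cast; ring,
        AJ_dn, this]
    have e3 : CLJ b c u l (Ht b - b.H - i - 1 - 1) = l (i + 1) := by
      rw [show Ht b - b.H - i - 1 - 1 = Ht b - 1 - (b.H + ((i + 1 : ℕ) : ℤ)) by push_cast; ring,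
        CLJ_dn (by omega), clD_step (by omega)]
      congr 1
      omega
    have hlt := hb.st_mono i h1
    have q1 : qx (cdJ b c u l hb hd hc) (Ht b - b.H - i - 1) = b.st i := by
      unfold qx
      rw [cdJ_H, if_neg (by omega), if_neg (by omega), if_neg (by omega), cdJ_A, cdJ_A, e1, e2,
        min_eq_right hlt.le]
    have q3 : wd (cdJ b c u l hb hd hc) c0 (Ht b - b.H - i - 1) =
        if l (i + 1) = false then 1 else 3 := by
      have hcol : col (cdJ b c u l hb hd hc) c0 (Ht b - b.H - i - 1) = l (i + 1) := by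
        unfold col
        rw [cdJ_H, if_neg (by omega), if_neg (by omega), if_pos (by omega), cdJ_CL, e3]
      unfold wd
      rw [cdJ_H, if_neg (by omega), if_neg (by omega), if_pos (by omega), cdJ_A, cdJ_A, e1, e2,
        if_neg (by omega), hcol]
    rw [q1, q2, q3]
  · have e5 : (Ht b - b.H - i - 1 : ℤ) = 0 := by omega
    have q1 : qx (cdJ b c u l hb hd hc) (Ht b - b.H - i - 1) = b.st i := by
      unfold qx
      rw [cdJ_H, if_neg (by omega), if_pos e5, cdJ_A, ← e5, e1]
    have e6 : b.K = i + 1 := by omega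
    have q3 : wd (cdJ b c u l hb hd hc) c0 (Ht b - b.H - i - 1) =
        if l (i + 1) = false then 1 else 3 := by
      have hcol : col (cdJ b c u l hb hd hc) c0 (Ht b - b.H - i - 1) = l (i + 1) := by
        unfold col
        rw [if_neg (by omega), if_pos e5, ← e6]
        rfl
      unfold wd
      rw [if_neg (by omega), if_pos e5, hcol]
    rw [q1, q2, q3]

end names

/-! ### In the coordinates of the box -/

lemma sdp_tr (s X Y : ℤ) (d : Fin 4) : tr (-s) s (sdp X Y d) = sdp X (Y + s) d := by
  unfold sdp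
  split_ifs
  · rw [← Pool.Agent.H45.W.eW_tr, tr_lt]
  · rw [← Pool.Agent.H45.W.eW_tr, tr_lt]
    congr 3; ring
  · rw [← tr_lt, Pool.Agent.H45.W.eS_tr]
  · rw [← tr_lt, Pool.Agent.H45.W.eS_tr]

section box

variable (hb : b.Ok δ σ) (hd : δ ≤ 1) (hc : c true 0 = c false 0)

/-- **upper corner of the gap `i`**, in the box -/
theorem nmJ_gapU {i : ℕ} (hi : i < nP b) :
    tr (-(-(n * Ht b))) (-(n * Ht b)) (nm (cdJ b c u l hb hd hc) c0 n (gapU b i)) =
      if c true i = false then eW (lt (-(((i : ℤ) + 1) * b.M * n), (b.τ + i) * n - 1))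
      else eS (lt (-(((i : ℤ) + 1) * b.M * n) - 1, (b.τ + i) * n)) := by
  rw [nm_gapU hb hd hc hi, sdp_tr]
  have e1 : n * -(((i : ℤ) + 1) * b.M) = -(((i : ℤ) + 1) * b.M * n) := by ring
  have e2 : n * (Ht b + b.τ + i) + -(n * Ht b) = (b.τ + i) * n := by ring
  rw [e1, e2]
  split_ifs <;> rfl

/-- **lower corner of the gap `i`**, in the box -/
theorem nmJ_gapL {i : ℕ} (hi : i < nP b) :
    tr (-(-(n * Ht b))) (-(n * Ht b)) (nm (cdJ b c u l hb hd hc) c0 n (gapL b i)) =
      if Pool.Agent.H61.W.cf b (c false) l (i + 1) = false then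
        eS (lt (-(((i : ℤ) + 1) * b.M * n) - 1, -((b.τ + i) * n)))
      else eW (lt (-(((i : ℤ) + 1) * b.M * n), -((b.τ + i) * n))) := by
  rw [nm_gapL hb hd hc hi, sdp_tr]
  have e1 : n * -(((i : ℤ) + 1) * b.M) = -(((i : ℤ) + 1) * b.M * n) := by ring
  have e2 : n * (Ht b - b.τ - i) + -(n * Ht b) = -((b.τ + i) * n) := by ring
  rw [e1, e2]
  split_ifs <;> rfl

/-- **corner of the ceiling**, in the box -/
theorem nmJ_knU {i : ℕ} (hi : i < b.K) :
    tr (-(-(n * Ht b))) (-(n * Ht b)) (nm (cdJ b c u l hb hd hc) c0 n (kn b (true, i))) =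
      if u i = false then f2 b n (true, i) else f1 b n (true, i) := by
  rw [nm_knU hb hd hc hi, sdp_tr]
  have e1 : n * b.st i = b.st i * n := by ring
  have e2 : n * (Ht b + b.H + i + 1) + -(n * Ht b) = (b.H + i + 1) * n := by ring
  rw [e1, e2]
  have g1 : f1 b n (true, i) = eW (lt (b.st i * n, (b.H + i + 1) * n)) := by
    unfold f1 dgt cpt
    simp only [if_true]
    unfold eE eW lt
    refine Prod.ext ?_ ?_ <;> simp only <;> ring
  have g2 : f2 b n (true, i) = eS (lt (b.st i * n - 1, (b.H + i + 1) * n)) := by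
    unfold f2 dgt cpt
    simp only [if_true]
  rw [g1, g2]
  split_ifs <;> rfl

/-- **corner of the floor**, in the box -/
theorem nmJ_knL {i : ℕ} (hi : i < b.K) :
    tr (-(-(n * Ht b))) (-(n * Ht b)) (nm (cdJ b c u l hb hd hc) c0 n (kn b (false, i))) =
      if l (i + 1) = false then f1 b n (false, i) else f2 b n (false, i) := by
  rw [nm_knL hb hd hc hi, sdp_tr]
  have e1 : n * b.st i = b.st i * n := by ring
  have e2 : n * (Ht b - b.H - i - 1) + -(n * Ht b) = -((b.H + i + 1) * n) := by ring
  rw [e1, e2]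
  have g1 : f1 b n (false, i) = eW (lt (b.st i * n, -((b.H + i + 1) * n) - 1)) := by
    unfold f1 dgt cpt
    simp only [Bool.false_eq_true, if_false]
    unfold eE eW lt
    refine Prod.ext ?_ ?_ <;> simp only <;> ring
  have g2 : f2 b n (false, i) = eS (lt (b.st i * n - 1, -((b.H + i + 1) * n))) := by
    unfold f2 dgt cpt
    simp only [Bool.false_eq_true, if_false]
    unfold eN eS lt
    refine Prod.ext ?_ ?_ <;> simp only <;> ring
  rw [g1, g2]
  split_ifs <;> rfl

/-- **the named end at a mark is `f1` or `f2`** -/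
theorem nmJ_mark {q : Bool × ℕ} (hq : q.2 < b.K) :
    tr (-(-(n * Ht b))) (-(n * Ht b)) (nm (cdJ b c u l hb hd hc) c0 n (kn b q)) = f1 b n q ∨
      tr (-(-(n * Ht b))) (-(n * Ht b)) (nm (cdJ b c u l hb hd hc) c0 n (kn b q)) = f2 b n q := by
  obtain ⟨s, i⟩ := q
  cases s
  · rw [nmJ_knL hb hd hc hq]
    split_ifs
    · exact Or.inl rfl
    · exact Or.inr rfl
  · rw [nmJ_knU hb hd hc hq]
    split_ifs
    · exact Or.inr rfl
    · exact Or.inl rfl

end box

/-! ### Right wall, list of the marks -/

/-- colour of the right wall below the exit, for the colours `colM` -/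
def c0M (base : Bool) (M : Finset (Bool × ℕ)) : Bool :=
  base ^^ par (M.filter fun c => c.1 = true).card ^^ true

lemma c0M_X (w : Bool) : c0M (bs w) M = c0X w M := rfl

lemma cr_crz {base : Bool} (m : ℤ) :
    (fun y => (colM base M (some r)).cr (y - m)) = crz (c0M base M) (r + m) := by
  funext y
  unfold crz c0M colM
  simp only
  by_cases h1 : y < r + m
  · rw [if_pos h1, decide_eq_true (by omega)]
  · rw [if_neg h1, decide_eq_false (by omega)]
    generalize par _ = p
    cases base <;> cases p <;> rfl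

/-- **List of the marks of `cdJ` for the colours `colM`.** -/
theorem Mk_J (hb : b.Ok δ σ) (hd : δ ≤ 1) (hc : c true 0 = c false 0) {base : Bool}
    (hi : ∀ q ∈ M, q.2 < b.K) (k : ℤ) :
    Mk (cdJ b c (colM base M (some r)).u (colM base M (some r)).l hb hd hc) (c0M base M) k ↔
      (∃ i < nP b, k = gapU b i ∧ Pool.Agent.H61.W.cf b (c true) (colM base M (some r)).u i ≠
        Pool.Agent.H61.W.cf b (c true) (colM base M (some r)).u (i + 1)) ∨
      (∃ i < nP b, k = gapL b i ∧ Pool.Agent.H61.W.cf b (c false) (colM base M (some r)).l i ≠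
        Pool.Agent.H61.W.cf b (c false) (colM base M (some r)).l (i + 1)) ∨
      ∃ q ∈ M, k = kn b q := by
  classical
  have hHt := Ht_pos hb
  have hHt' : Ht b = b.H + b.K := rfl
  have hth := thick hb hd
  have hτ : (0 : ℤ) < b.τ := by exact_mod_cast hb.τ0
  have hH : (0 : ℤ) < b.H := by exact_mod_cast hb.H0
  by_cases hk : 0 ≤ k ∧ k ≤ 2 * Ht b
  · have h1 := col_eq (cdJ b c (colM base M (some r)).u (colM base M (some r)).l hb hd hc)
      (c0M base M) hk.1 (by rw [cdJ_H]; omega)
    have h2 := col_eq (cdJ b c (colM base M (some r)).u (colM base M (some r)).l hb hd hc)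
      (c0M base M) (k := k + 1) (by omega) (by rw [cdJ_H]; omega)
    rw [add_sub_cancel_right] at h2
    have h3 := colE_change (c := c) (u := (colM base M (some r)).u)
      (l := (colM base M (some r)).l) hb hd hc hk.1 (by unfold HJ; exact hk.2)
    unfold Mk
    rw [h1, h2]
    constructor
    · rintro ⟨-, -, h⟩
      rcases h3.1 h with h | h | ⟨i, g1, g2, g3⟩ | ⟨i, g1, g2, g3⟩
      · exact Or.inl h
      · exact Or.inr (Or.inl h)
      · exact Or.inr (Or.inr ⟨_, (colM_u i).1 g3, g2⟩)
      · exact Or.inr (Or.inr ⟨_, (colM_l i).1 g3, g2⟩)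
    · intro h
      refine ⟨by omega, by rw [cdJ_H]; omega, h3.2 ?_⟩
      rcases h with h | h | ⟨⟨s, i⟩, g1, g2⟩
      · exact Or.inl h
      · exact Or.inr (Or.inl h)
      · cases s
        · exact Or.inr (Or.inr (Or.inr ⟨i, hi _ g1, g2, (colM_l i).2 g1⟩))
        · exact Or.inr (Or.inr (Or.inl ⟨i, hi _ g1, g2, (colM_u i).2 g1⟩))
  · constructor
    · rintro ⟨h1, h2, h3⟩
      exfalso
      rw [cdJ_H] at h2
      have : k = -1 ∨ k = 2 * Ht b + 1 := by omega
      rcases this with rfl | rfl
      · apply h3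
        have e1 : col (cdJ b c (colM base M (some r)).u (colM base M (some r)).l hb hd hc)
            (c0M base M) (-1) = c0M base M := by
          unfold col; rw [if_pos (by omega)]
        have e2 : col (cdJ b c (colM base M (some r)).u (colM base M (some r)).l hb hd hc)
            (c0M base M) (-1 + 1) = (colM base M (some r)).l b.K := by
          unfold col; rw [if_neg (by omega), if_pos (by omega)]; rfl
        rw [e1, e2]
        have e3 : (M.filter fun c => c.1 = false ∧ b.K ≤ c.2) = ∅ := by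
          rw [filter_eq_empty_iff]
          rintro q hq ⟨-, h⟩
          exact absurd (hi q hq) (not_lt.2 h)
        show _ = (base ^^ par (M.filter fun c => c.1 = true).card ^^ true ^^
          par (M.filter fun c => c.1 = false ∧ b.K ≤ c.2).card)
        rw [e3]
        unfold c0M
        cases base <;> cases par (M.filter fun c => c.1 = true).card <;> rfl
      · apply h3
        have e1 : col (cdJ b c (colM base M (some r)).u (colM base M (some r)).l hb hd hc)
            (c0M base M) (2 * Ht b + 1) = (colM base M (some r)).u b.K := by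
          unfold col
          rw [if_neg (by omega), if_neg (by omega), if_neg (by rw [cdJ_H]; omega),
            if_pos (by rw [cdJ_H])]
          rfl
        have e2 : col (cdJ b c (colM base M (some r)).u (colM base M (some r)).l hb hd hc)
            (c0M base M) (2 * Ht b + 1 + 1) = !c0M base M := by
          unfold col
          rw [if_neg (by omega), if_neg (by omega), if_neg (by rw [cdJ_H]; omega),
            if_neg (by rw [cdJ_H]; omega)]
        rw [e1, e2]
        have e3 : (M.filter fun c => c.1 = true ∧ c.2 < b.K) = M.filter fun c => c.1 = true := by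
          apply filter_congr
          intro q hq
          exact ⟨fun h => h.1, fun h => ⟨h, hi q hq⟩⟩
        show (base ^^ par (M.filter fun c => c.1 = true ∧ c.2 < b.K).card) = _
        rw [e3]
        unfold c0M
        cases base <;> cases par (M.filter fun c => c.1 = true).card <;> rfl
    · intro h
      exfalso
      apply hk
      rcases h with ⟨i, h1, h2, -⟩ | ⟨i, h1, h2, -⟩ | ⟨q, h1, rfl⟩
      · unfold gapU at h2
        omega
      · unfold gapL at h2
        omega
      · have := hi q h1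
        unfold kn
        split_ifs <;> omega

/-! ### The `Y` colours -/

/-- colours of the plates and of the left wall without a mark on `P` -/
def cfX (b : JBox) (w o : Bool) (cl : Fin (nP b) → Bool) (i : ℕ) : Bool :=
  if i < nP b then cPl b o cl i else bs w

lemma colM_u0 {base : Bool} {ex : Option ℤ} : (colM base M ex).u 0 = base := by
  have e : (M.filter fun c => c.1 = true ∧ c.2 < 0) = ∅ := by
    rw [filter_eq_empty_iff]
    rintro q _ ⟨-, h⟩
    omega
  show (base ^^ par (M.filter fun c => c.1 = true ∧ c.2 < 0).card) = base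
  rw [e]
  cases base <;> rfl

lemma colM_l0 {base : Bool} (hM : M.card = 2) : (colM base M (some r)).l 0 = !base := by
  rw [colM_foot, colM_u0, hM]
  cases base <;> rfl

/-- upper bank in `GY` -/
lemma cfY_true (w : Bool) (hM : M.card = 2) (hk : k ≤ nP b) (i : ℕ) :
    Pool.Agent.H61.W.cf b (cY b o cl s k true) (colM (bsP w s) M (some r)).u (min i (nP b)) =
      (cfX b w o cl (min i (nP b)) ^^ (s && decide (k ≤ i))) := by
  unfold Pool.Agent.H61.W.cf cfX cY
  rw [colM_u0]
  unfold bsP bs
  by_cases h1 : i < nP b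
  · rw [min_eq_left h1.le, if_pos h1, if_pos h1]
    cases s
    · rw [decide_eq_false (by simp)]; rfl
    · by_cases h2 : k ≤ i
      · simp [h2]
      · simp [h2]
  · rw [min_eq_right (by omega), if_neg (lt_irrefl _), if_neg (lt_irrefl _),
      decide_eq_true (show k ≤ i by omega)]
    cases s <;> cases w <;> rfl

/-- lower bank in `GY` -/
lemma cfY_false (w : Bool) (hM : M.card = 2) (hk : k ≤ nP b) (i : ℕ) :
    Pool.Agent.H61.W.cf b (cY b o cl s k false) (colM (bsP w s) M (some r)).l (min i (nP b)) =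
      (cfX b w o cl (min i (nP b)) ^^ (!s && decide (k ≤ i))) := by
  unfold Pool.Agent.H61.W.cf cfX cY
  rw [colM_l0 hM]
  unfold bsP bs
  by_cases h1 : i < nP b
  · rw [min_eq_left h1.le, if_pos h1, if_pos h1]
    cases s
    · by_cases h2 : k ≤ i
      · simp [h2]
      · simp [h2]
    · rw [decide_eq_false (by simp)]; rfl
  · rw [min_eq_right (by omega), if_neg (lt_irrefl _), if_neg (lt_irrefl _),
      decide_eq_true (show k ≤ i by omega)]
    cases s <;> cases w <;> rfl

/-- the bank on which the gap `k - 1` (the mark on `P`) is alive in `GY` -/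
def bnk (b : JBox) (w o : Bool) (cl : Fin (nP b) → Bool) (s : Bool) (k : ℕ) : Bool :=
  if cfX b w o cl (k - 1) = cfX b w o cl k then s else !s

/-- inside the chunk `P` the mark is alive on its bank `s` -/
lemma bnk_s (w : Bool) (hk : k < b.m) (hm : b.m ≤ nP b) : bnk b w o cl s k = s := by
  have key : ∀ i, i < b.m → cfX b w o cl i = o := by
    intro i hi
    unfold cfX cPl
    rw [if_pos (by omega), if_pos hi]
  unfold bnk
  rw [key _ (by omega), key _ hk, if_pos rfl]

/-- **List of the marks of `cdY`.** Gap `i ≠ k - 1` : both corners or none; gap `k - 1` : exactly one. -/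
theorem MkY_iff (hb : b.Ok δ σ) (hd : δ ≤ 1) (w : Bool) (hk : 1 ≤ k) (hk' : k ≤ nP b) (hM : M.card = 2)
    (hi : ∀ q ∈ M, q.2 < b.K) (j : ℤ) :
    Mk (cdY hb hd w s hk M r o cl) (c0M (bsP w s) M) j ↔
      (∃ i < nP b, i ≠ k - 1 ∧ (j = gapU b i ∨ j = gapL b i) ∧
        cfX b w o cl i ≠ cfX b w o cl (i + 1)) ∨
      (j = if bnk b w o cl s k then gapU b (k - 1) else gapL b (k - 1)) ∨
      ∃ q ∈ M, j = kn b q := by
  have hY := Mk_J (r := r) (c := cY b o cl s k) (base := bsP w s) hb hd (cY_zero hk) hi j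
  have key1 : ∀ i < nP b, (Pool.Agent.H61.W.cf b (cY b o cl s k true) (colM (bsP w s) M (some r)).u i ≠
      Pool.Agent.H61.W.cf b (cY b o cl s k true) (colM (bsP w s) M (some r)).u (i + 1)) ↔
      ((cfX b w o cl i ^^ (s && decide (k ≤ i))) ≠ (cfX b w o cl (i + 1) ^^ (s && decide (k ≤ i + 1)))) := by
    intro i hi
    have e1 := cfY_true (o := o) (cl := cl) (s := s) (r := r) w hM hk' i
    have e2 := cfY_true (o := o) (cl := cl) (s := s) (r := r) w hM hk' (i + 1)
    rw [min_eq_left hi.le] at e1
    rw [min_eq_left (show i + 1 ≤ nP b by omega)] at e2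
    rw [e1, e2]
  have key2 : ∀ i < nP b, (Pool.Agent.H61.W.cf b (cY b o cl s k false) (colM (bsP w s) M (some r)).l i ≠
      Pool.Agent.H61.W.cf b (cY b o cl s k false) (colM (bsP w s) M (some r)).l (i + 1)) ↔
      ((cfX b w o cl i ^^ (!s && decide (k ≤ i))) ≠
        (cfX b w o cl (i + 1) ^^ (!s && decide (k ≤ i + 1)))) := by
    intro i hi
    have e1 := cfY_false (o := o) (cl := cl) (s := s) (r := r) w hM hk' i
    have e2 := cfY_false (o := o) (cl := cl) (s := s) (r := r) w hM hk' (i + 1)
    rw [min_eq_left hi.le] at e1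
    rw [min_eq_left (show i + 1 ≤ nP b by omega)] at e2
    rw [e1, e2]
  have off : ∀ i, i ≠ k - 1 → (decide (k ≤ i) = decide (k ≤ i + 1)) := by
    intro i h
    congr 1
    apply propext
    omega
  refine hY.trans ?_
  constructor
  · rintro (⟨i, g1, g2, g3⟩ | ⟨i, g1, g2, g3⟩ | h)
    · rw [key1 i g1] at g3
      by_cases h1 : i = k - 1
      · right; left
        have e1 : decide (k ≤ i) = false := decide_eq_false (by omega)
        have e2 : decide (k ≤ i + 1) = true := decide_eq_true (by omega)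
        rw [e1, e2, h1, Nat.sub_add_cancel hk] at g3
        have e3 : bnk b w o cl s k = true := by
          unfold bnk
          revert g3
          cases s <;> cases cfX b w o cl (k - 1) <;> cases cfX b w o cl k <;> simp
        rw [e3, if_pos rfl, ← h1]; exact g2
      · left
        refine ⟨i, g1, h1, Or.inl g2, ?_⟩
        rw [off i h1] at g3
        intro h; rw [h] at g3; exact g3 rfl
    · rw [key2 i g1] at g3
      by_cases h1 : i = k - 1
      · right; left
        have e1 : decide (k ≤ i) = false := decide_eq_false (by omega)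
        have e2 : decide (k ≤ i + 1) = true := decide_eq_true (by omega)
        rw [e1, e2, h1, Nat.sub_add_cancel hk] at g3
        have e3 : bnk b w o cl s k = false := by
          unfold bnk
          revert g3
          cases s <;> cases cfX b w o cl (k - 1) <;> cases cfX b w o cl k <;> simp
        rw [e3, if_neg (by simp), ← h1]; exact g2
      · left
        refine ⟨i, g1, h1, Or.inr g2, ?_⟩
        rw [off i h1] at g3
        intro h; rw [h] at g3; exact g3 rfl
    · exact Or.inr (Or.inr h)
  · rintro (⟨i, g1, h1, g2, g3⟩ | g2 | h)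
    · rcases g2 with g2 | g2
      · left
        refine ⟨i, g1, g2, (key1 i g1).2 ?_⟩
        rw [off i h1]
        intro h
        exact g3 (Bool.xor_left_inj.1 h)
      · right; left
        refine ⟨i, g1, g2, (key2 i g1).2 ?_⟩
        rw [off i h1]
        intro h
        exact g3 (Bool.xor_left_inj.1 h)
    · have hk1 : k - 1 < nP b := by omega
      have e1 : decide (k ≤ k - 1) = false := decide_eq_false (by omega)
      have e2 : decide (k ≤ k - 1 + 1) = true := decide_eq_true (by omega)
      cases hbk : bnk b w o cl s k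
      · rw [hbk, if_neg (by simp)] at g2
        right; left
        refine ⟨k - 1, hk1, g2, (key2 _ hk1).2 ?_⟩
        rw [e1, e2, Nat.sub_add_cancel hk]
        revert hbk
        unfold bnk
        cases s <;> cases cfX b w o cl (k - 1) <;> cases cfX b w o cl k <;> simp
      · rw [hbk, if_pos rfl] at g2
        left
        refine ⟨k - 1, hk1, g2, (key1 _ hk1).2 ?_⟩
        rw [e1, e2, Nat.sub_add_cancel hk]
        revert hbk
        unfold bnk
        cases s <;> cases cfX b w o cl (k - 1) <;> cases cfX b w o cl k <;> simp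
    · exact Or.inr (Or.inr h)

end Pool.Agent.H21.W
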