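import Mathlib
import Pool.Agent.H72.W.MonoWalk
import Pool.Agent.H58.W.SCBox
import Pool.Agent.H98.W.A4Arm
import Pool.Agent.H65.Dom.Dec

set_option autoImplicit false
open Finset

/-! # A square box around one label: both arms of a pivotal label

`NB t K` : the labels of a square of tiles of half side `K` around the tile of the label `t` (the floor is
lowered by one if necessary, so that the lower left corner is a vertex). `arm_open`, `arm_dual` : if the label
`t` changes the partition of the boundary vertices of the box (`A4`), then there are an open and a dual arm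
from `t` to the distance `K / 2 - 1`. -/

namespace Pool.Agent.H21.W

open Pool.Agent.H75.Perc hiding dl
open Pool.Agent.H75.TwoArm Pool.Agent.H75.Four Pool.Agent.H75.Four.PivAux
open Pool.Agent.H41.W
open Pool.Agent.H33.Q1 (lt tt lt_odd tt_lt lt_tt lt_inj)
open Pool.Agent.H72.W (MReg gv gf OkStep TWalk)
open Pool.Agent.H58.W (SC TRect sc_trect)
open Pool.Agent.H65.Dom (Arm)

/-- the labels of a square of tiles around the tile of `t` -/
noncomputable def NB (t : ℤ × ℤ) (K : ℤ) : Finset (ℤ × ℤ) :=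
  (Ico ((tt t).1 - K) ((tt t).1 + K) ×ˢ
    Ico ((tt t).2 - K - ((tt t).1 + (tt t).2) % 2) ((tt t).2 + K)).image lt

variable {t e : ℤ × ℤ} {K R : ℤ} {ω : Finset (ℤ × ℤ)}

lemma trect_NB (t : ℤ × ℤ) (K : ℤ) : TRect (NB t K) ((tt t).1 - K) ((tt t).1 + K)
    ((tt t).2 - K - ((tt t).1 + (tt t).2) % 2) ((tt t).2 + K) := by
  intro p
  unfold NB
  rw [mem_image]
  constructor
  · rintro ⟨q, hq, h⟩
    rw [lt_inj h, mem_product, mem_Ico, mem_Ico] at hq
    exact hq
  · intro h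
    exact ⟨p, by rw [mem_product, mem_Ico, mem_Ico]; exact h, rfl⟩

lemma mem_NB : e ∈ NB t K ↔ (e.1 + e.2) % 2 = 1 ∧
    (-K ≤ (tt e).1 - (tt t).1 ∧ (tt e).1 - (tt t).1 < K) ∧
    (-K - ((tt t).1 + (tt t).2) % 2 ≤ (tt e).2 - (tt t).2 ∧ (tt e).2 - (tt t).2 < K) := by
  constructor
  · intro h
    have ho : (e.1 + e.2) % 2 = 1 := by
      unfold NB at h
      rw [mem_image] at h
      obtain ⟨q, -, rfl⟩ := h
      exact lt_odd q
    have h' := h
    rw [← lt_tt ho, trect_NB t K (tt e)] at h'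
    exact ⟨ho, by omega, by omega⟩
  · rintro ⟨ho, h1, h2⟩
    rw [← lt_tt ho, trect_NB t K (tt e)]
    omega

lemma odd_NB (h : e ∈ NB t K) : (e.1 + e.2) % 2 = 1 := (mem_NB.1 h).1

theorem sc_NB (t : ℤ × ℤ) (K : ℤ) : SC (NB t K) := sc_trect (trect_NB t K)

lemma self_NB (ht : (t.1 + t.2) % 2 = 1) (hK : 1 ≤ K) : t ∈ NB t K := by
  rw [mem_NB]
  omega

/-- the region of the box -/
def NR (t : ℤ × ℤ) (K : ℤ) (hK : 1 ≤ K) : MReg where
  A := (tt t).1 - K
  B := (tt t).1 + K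
  lo := fun _ => (tt t).2 - K - ((tt t).1 + (tt t).2) % 2
  hi := fun _ => (tt t).2 + K
  AB := by omega
  hlo := fun _ _ _ => le_rfl
  hhi := fun _ _ _ => le_rfl
  lt0 := by omega

lemma NB_eq (hK : 1 ≤ K) : (NR t K hK).T.image lt = NB t K := by
  unfold NB
  congr 1
  ext ⟨x, y⟩
  rw [MReg.mem_T, mem_product, mem_Ico, mem_Ico]
  exact Iff.rfl

/-- a point of the boundary walk lies on a side -/
lemma side_of {x y x' y' : ℤ} {K : ℤ} {hK : 1 ≤ K} (h : OkStep (NR t K hK).T (x, y) (x', y')) :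
    x ≤ (tt t).1 - K ∨ (tt t).1 + K ≤ x ∨ y ≤ (tt t).2 - K ∨ (tt t).2 + K ≤ y := by
  have key : ∀ u v : ℤ, (u, v) ∉ (NR t K hK).T → (x - 1 ≤ u ∧ u ≤ x) → (y - 1 ≤ v ∧ v ≤ y) →
      x ≤ (tt t).1 - K ∨ (tt t).1 + K ≤ x ∨ y ≤ (tt t).2 - K ∨ (tt t).2 + K ≤ y := by
    intro u v h1 h2 h3
    rw [MReg.mem_T] at h1
    have h4 : ¬ (((tt t).1 - K ≤ u ∧ u < (tt t).1 + K) ∧
      (tt t).2 - K - ((tt t).1 + (tt t).2) % 2 ≤ v ∧ v < (tt t).2 + K) := h1
    omega
  unfold OkStep at h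
  rcases h with ⟨-, -, h⟩ | ⟨-, -, h⟩ | ⟨-, -, h⟩ | ⟨-, -, h⟩ <;>
    exact key _ _ h (by constructor <;> simp only <;> omega) (by constructor <;> simp only <;> omega)

/-- **the open arm of a pivotal label** -/
theorem arm_open (ht : (t.1 + t.2) % 2 = 1) (hR : 2 * R + 2 ≤ K)
    (h : A4 (NB t K) {t} ω) : Arm (t.1 / 2, t.2 / 2) 1 R ((ω ∩ NB t K) \ {t}) := by
  obtain ⟨x, p, p', ⟨q, g1, g2⟩, h2, h3, h4⟩ := Pool.Agent.H98.W.A4_split h
  rw [mem_singleton] at h4
  refine ⟨p, x, ?_, ?_, ?_, h2.symm⟩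
  · have hu := unit_cases h3
    have e1 : p.1 + p'.1 = t.1 := by rw [← h4]; rfl
    simp only
    rw [abs_le]
    omega
  · have hu := unit_cases h3
    have e1 : p.2 + p'.2 = t.2 := by rw [← h4]; rfl
    simp only
    rw [abs_le]
    omega
  · have hu := unit_cases g1
    rw [mem_NB] at g2
    unfold tt at g2
    simp only [Prod.fst_add, Prod.snd_add] at g2
    simp only
    rw [le_abs, le_abs]
    by_contra hcon
    apply g2
    omega

/-- **the dual arm of a pivotal label** -/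
theorem arm_dual (ht : (t.1 + t.2) % 2 = 1) (hK : 1 ≤ K) (hR : 2 * R + 2 ≤ K)
    (h : A4 (NB t K) {t} ω) : Arm (t.1 / 2, t.2 / 2) 1 R (du (NB t K) (ω ∩ NB t K ∪ {t})) := by
  have hev : ((NR t K hK).A + (NR t K hK).lo (NR t K hK).A) % 2 = 0 := by
    show ((tt t).1 - K + ((tt t).2 - K - ((tt t).1 + (tt t).2) % 2)) % 2 = 0
    omega
  have W := (NR t K hK).twalk hev
  have D := W.disc
  rw [NB_eq] at D
  have hP : {t} ⊆ NB t K := singleton_subset_iff.2 (self_NB ht hK)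
  obtain ⟨x, y, h1, h2⟩ := D.of_A4 hP h
  obtain ⟨a0, b0, a1, b1, a2, b2, a3, b3, -, -, -, -, -, ⟨s, -, ⟨p, hp, hc⟩, -⟩, -, -⟩ :=
    D.four hP inter_subset_right h1 h2
  refine ⟨p, _, ?_, ?_, ?_, hc.symm⟩
  · obtain ⟨q, hq, hm⟩ := hp
    obtain ⟨l, hl, hl'⟩ := mem_map.1 hm
    rw [mem_singleton] at hl
    subst hl
    have hu := unit_cases hq
    have e1 : l.1 + 1 = p.1 + q.1 := congrArg Prod.fst hl'
    simp only
    rw [abs_le]
    omega
  · obtain ⟨q, hq, hm⟩ := hp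
    obtain ⟨l, hl, hl'⟩ := mem_map.1 hm
    rw [mem_singleton] at hl
    subst hl
    have hu := unit_cases hq
    have e1 : l.2 + 1 = p.2 + q.2 := congrArg Prod.snd hl'
    simp only
    rw [abs_le]
    omega
  · have st := W.step (2 * s - 1)
    have pr := W.par_int (2 * s - 1)
    simp only at st pr ⊢
    set u := (NR t K hK).cw (-(2 * s - 1)) with hu
    have sd := side_of (x := u.1) (y := u.2) st
    unfold gf
    unfold tt at sd
    simp only at sd ⊢
    rw [le_abs, le_abs]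
    omega

end Pool.Agent.H21.W
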