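import Mathlib
import Pool.Agent.H21.W.RoomIn

set_option autoImplicit false
open Finset

/-! # The colour of the right wall at the row of the string does not matter -/

namespace Pool.Agent.H21.W

open Pool.Agent.H75.Perc Pool.Agent.H75.TwoArm Pool.Agent.H13.W Pool.Agent.H33.Q1
open Pool.Agent.H54.W (CD)

variable {C : CD} {n : ℤ} {cr cr' : ℤ → Bool} {x y x0 r : ℤ} {ω : Finset (ℤ × ℤ)}

lemma RDg_cr (hn : 0 < n) (h0 : cr 0 = cr' 0) (h1 : cr (n * C.H - 1) = cr' (n * C.H - 1))
    (h : RDg C n cr x y) : RDg C n cr' x y := by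
  obtain ⟨a1, a2, i, j, hi, hj, a3, a4, a5⟩ := h
  have a6 : ¬ RP C n (x + 1) y ∧ ¬ RP C n (x - 1) y := by
    unfold RL1 at a2; tauto
  have a7 := a3.box hn
  have a8 : ∀ y, 0 ≤ y → y < n * C.H → n * C.A (y / n) ≤ n * C.W - n := by
    intro y h1 h2
    have hr := Pool.Agent.H54.W.CD.row_of (C := C) hn h1 h2
    have := C.AW _ hr.1 hr.2
    nlinarith
  have a9 : ¬ RP C n (x + i) y := by
    rcases hi with rfl | rfl
    · exact a6.1
    · rw [← sub_eq_add_neg]; exact a6.2
  refine ⟨a1, a2, i, j, hi, hj, a3, ?_, ?_⟩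
  · rw [← a4]
    unfold fillC
    by_cases c1 : y < 0
    · rw [if_pos c1, if_pos c1]
    by_cases c2 : n * C.H ≤ y
    · rw [if_neg c1, if_pos c2, if_neg c1, if_pos c2]
    rw [if_neg c1, if_neg c2, if_neg c1, if_neg c2]
    by_cases c3 : x + i < n * C.A (y / n)
    · rw [if_pos c3, if_pos c3]
    · exfalso
      exact a9 ⟨by omega, by omega, by omega, a7.2.2.2⟩
  · rw [← a5]
    have key : ∀ cr : ℤ → Bool, fillC C n cr x (y + j) =
        if x < n * C.A ((y + j) / n) then C.CL ((y + j) / n) else cr (y + j) := by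
      intro cr
      unfold fillC
      rw [if_neg (by omega), if_neg (by omega)]
    rw [key, key]
    by_cases c3 : x < n * C.A ((y + j) / n)
    · rw [if_pos c3, if_pos c3]
    rw [if_neg c3, if_neg c3]
    have c4 : n * C.W ≤ x := by
      by_contra c5
      have c6 : RP C n x (y + j) := ⟨by omega, by omega, by omega, by omega⟩
      apply a2
      refine ⟨a1, ?_⟩
      rcases hj with rfl | rfl
      · exact Or.inr (Or.inr (Or.inl c6))
      · exact Or.inr (Or.inr (Or.inr (by rw [sub_eq_add_neg]; exact c6)))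
    have c5 : y + j = 0 ∨ y + j = n * C.H - 1 := by
      by_contra c6
      have c7 : 0 ≤ y ∧ y < n * C.H := by omega
      have c8 := a8 y c7.1 c7.2
      exact a9 ⟨c7.1, c7.2, by omega, a7.2.2.2⟩
    rcases c5 with c5 | c5
    · rw [c5, h0]
    · rw [c5, h1]

lemma RT_cr (hn : 0 < n) (h0 : cr 0 = cr' 0) (h1 : cr (n * C.H - 1) = cr' (n * C.H - 1)) :
    RT C n cr x y ↔ RT C n cr' x y := by
  unfold RT
  have e1 := RDg_cr (C := C) (x := x) (y := y) hn h0 h1
  have e2 := RDg_cr (C := C) (x := x) (y := y) hn h0.symm h1.symm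
  tauto

/-- the room graph depends on `cr` only off the row of the string -/
theorem SG_cr (hn : 0 < n) (hx : x0 ≤ n * C.W) (h : ∀ y, y ≠ r → cr y = cr' y) (h0 : r ≠ 0)
    (h1 : r ≠ n * C.H - 1) : SG (LR C n cr) (DR x0 r) (WR0 C n cr ∪ ω) =
      SG (LR C n cr') (DR x0 r) (WR0 C n cr' ∪ ω) := by
  have e0 := h 0 (Ne.symm h0)
  have e1 := h _ (Ne.symm h1)
  have hL : LR C n cr = LR C n cr' := by
    ext e
    constructor
    · rintro ⟨x, y, rfl, h2⟩
      exact ⟨x, y, rfl, (RT_cr hn e0 e1).1 h2⟩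
    · rintro ⟨x, y, rfl, h2⟩
      exact ⟨x, y, rfl, (RT_cr hn e0 e1).2 h2⟩
  rw [hL]
  refine SG_congr (fun e _ => Iff.rfl) (fun e he hD => ?_)
  obtain ⟨x, y, rfl, h2⟩ := he
  rw [mem_DR] at hD
  rw [mem_union, mem_union, mem_WR0 hn, mem_WR0 hn, RT_cr hn e0 e1]
  refine or_congr (and_congr_right fun _ => and_congr_right fun h3 => ?_) Iff.rfl
  have e : fillC C n cr x y = fillC C n cr' x y := by
    unfold fillC
    by_cases c1 : y < 0
    · rw [if_pos c1, if_pos c1]
    by_cases c2 : n * C.H ≤ y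
    · rw [if_neg c1, if_pos c2, if_neg c1, if_pos c2]
    rw [if_neg c1, if_neg c2, if_neg c1, if_neg c2]
    by_cases c3 : x < n * C.A (y / n)
    · rw [if_pos c3, if_pos c3]
    rw [if_neg c3, if_neg c3]
    apply h
    intro hr
    apply hD
    refine ⟨hr, ?_⟩
    by_contra c4
    exact h3 ⟨by omega, by omega, by omega, by omega⟩
  rw [e]

end Pool.Agent.H21.W
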