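import Mathlib

set_option autoImplicit false

/-!
# Position functions of the line

Rows `p ≤ y < q` are the intervals `[a y, w)`.  A position of the line is a function `τ` with
`a y ≤ τ y ≤ w`; the part of the room that is already swept is `{(x, y) : τ y ≤ x < w}`.  The
position is allowed iff every maximal vertical interval of a column of the room is either swept or
not swept (`okT_iff`).  This file holds the combinatorics of allowed positions, for an arbitrary
function `a`: lattice operations, steps (one maximal vertical interval of one column is swept) and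
chains of steps.  `Pos` and `HPos` of `H54/W` are instances (file `TauPos`).
-/

namespace Pool.Agent.H21.W.Tau

/-- the allowed positions of the line -/
structure OkT (a : ℤ → ℤ) (w p q : ℤ) (τ : ℤ → ℤ) : Prop where
  lo : ∀ y, p ≤ y → y < q → a y ≤ τ y
  hi : ∀ y, p ≤ y → y < q → τ y ≤ w
  up : ∀ y, p ≤ y → y + 1 < q → τ y < τ (y + 1) → τ (y + 1) = a (y + 1)
  dn : ∀ y, p ≤ y → y + 1 < q → τ (y + 1) < τ y → τ y = a y

variable {a : ℤ → ℤ} {w p q : ℤ} {τ σ : ℤ → ℤ}

/-- the swept set contains both or none of two neighbouring tiles of one column of the room -/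
lemma OkT.col (hO : OkT a w p q τ) {y x : ℤ} (h0 : p ≤ y) (h1 : y + 1 < q) (hx : a y ≤ x)
    (hx' : a (y + 1) ≤ x) : τ y ≤ x ↔ τ (y + 1) ≤ x := by
  rcases lt_trichotomy (τ y) (τ (y + 1)) with h | h | h
  · have := hO.up y h0 h1 h
    constructor <;> intro <;> omega
  · rw [h]
  · have := hO.dn y h0 h1 h
    constructor <;> intro <;> omega

lemma okT_iff : OkT a w p q τ ↔ (∀ y, p ≤ y → y < q → a y ≤ τ y) ∧ (∀ y, p ≤ y → y < q → τ y ≤ w) ∧
    ∀ y, p ≤ y → y + 1 < q → ∀ x, a y ≤ x → a (y + 1) ≤ x → (τ y ≤ x ↔ τ (y + 1) ≤ x) := by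
  constructor
  · intro hO
    exact ⟨hO.lo, hO.hi, fun y h0 h1 x hx hx' => hO.col h0 h1 hx hx'⟩
  · rintro ⟨h1, h2, h3⟩
    refine ⟨h1, h2, fun y hy0 hy1 h => ?_, fun y hy0 hy1 h => ?_⟩
    · have k0 := h1 y hy0 (by omega)
      have k1 := h1 (y + 1) (by omega) hy1
      by_contra hne
      have := (h3 y hy0 hy1 (τ (y + 1) - 1) (by omega) (by omega)).1 (by omega)
      omega
    · have k0 := h1 y hy0 (by omega)
      have k1 := h1 (y + 1) (by omega) hy1
      by_contra hne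
      have := (h3 y hy0 hy1 (τ y - 1) (by omega) (by omega)).2 (by omega)
      omega

/-- the swept set contains a vertical interval of a column or is disjoint from it -/
lemma OkT.seg (hO : OkT a w p q τ) {x y y' : ℤ} (h0 : p ≤ y) (hy : y ≤ y') (h1 : y' < q)
    (hx : ∀ v, y ≤ v → v ≤ y' → a v ≤ x) : τ y ≤ x ↔ τ y' ≤ x := by
  obtain ⟨n, rfl⟩ : ∃ n : ℕ, y' = y + n := ⟨(y' - y).toNat, by omega⟩
  induction n with
  | zero => simp
  | succ n ih =>
      have e : y + ((n + 1 : ℕ) : ℤ) = (y + n) + 1 := by push_cast; ring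
      rw [ih (by omega) (by push_cast at h1; omega) (fun v hv hv' => hx v hv (by push_cast; omega)), e]
      exact hO.col (by omega) (by push_cast at h1; omega) (hx _ (by omega) (by push_cast; omega))
        (hx _ (by omega) (by push_cast; omega))

/-- the same for two rows in any order -/
lemma OkT.seg' (hO : OkT a w p q τ) {x y y' : ℤ} (h0 : p ≤ y) (h1 : y < q) (h0' : p ≤ y')
    (h1' : y' < q) (hx : ∀ v, min y y' ≤ v → v ≤ max y y' → a v ≤ x) : τ y ≤ x ↔ τ y' ≤ x := by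
  rcases le_total y y' with h | h
  · exact hO.seg h0 h h1' fun v hv hv' => hx v (by omega) (by omega)
  · exact (hO.seg h0' h h1 fun v hv hv' => hx v (by omega) (by omega)).symm

/-- only the rows `[p, q)` matter -/
lemma OkT.congr (hO : OkT a w p q τ) (he : ∀ y, p ≤ y → y < q → σ y = τ y) : OkT a w p q σ where
  lo y h0 h1 := by rw [he y h0 h1]; exact hO.lo y h0 h1
  hi y h0 h1 := by rw [he y h0 h1]; exact hO.hi y h0 h1
  up y h0 h1 := by rw [he y h0 (by omega), he (y + 1) (by omega) h1]; exact hO.up y h0 h1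
  dn y h0 h1 := by rw [he y h0 (by omega), he (y + 1) (by omega) h1]; exact hO.dn y h0 h1

/-- the left arc -/
lemma okT_left (haw : ∀ y, p ≤ y → y < q → a y ≤ w) : OkT a w p q a :=
  okT_iff.2 ⟨fun _ _ _ => le_rfl, haw, fun _ _ _ _ hx hx' => ⟨fun _ => hx', fun _ => hx⟩⟩

/-- the right arc -/
lemma okT_right (haw : ∀ y, p ≤ y → y < q → a y ≤ w) : OkT a w p q (fun _ => w) :=
  okT_iff.2 ⟨haw, fun _ _ _ => le_rfl, fun _ _ _ _ _ _ => Iff.rfl⟩

/-- the straight positions -/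
lemma okT_straight (haw : ∀ y, p ≤ y → y < q → a y ≤ w) {i : ℤ} (hi : i ≤ w) :
    OkT a w p q (fun y => max i (a y)) :=
  okT_iff.2 ⟨fun _ _ _ => le_max_right _ _, fun y h0 h1 => max_le hi (haw y h0 h1),
    fun _ _ _ _ hx hx' => by rw [max_le_iff, max_le_iff]; tauto⟩

lemma OkT.max (hO : OkT a w p q τ) (hO' : OkT a w p q σ) :
    OkT a w p q (fun y => max (τ y) (σ y)) :=
  okT_iff.2 ⟨fun y h0 h1 => le_max_of_le_left (hO.lo y h0 h1),
    fun y h0 h1 => max_le (hO.hi y h0 h1) (hO'.hi y h0 h1), fun y h0 h1 x hx hx' => by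
      rw [max_le_iff, max_le_iff, hO.col h0 h1 hx hx', hO'.col h0 h1 hx hx']⟩

lemma OkT.min (hO : OkT a w p q τ) (hO' : OkT a w p q σ) :
    OkT a w p q (fun y => min (τ y) (σ y)) :=
  okT_iff.2 ⟨fun y h0 h1 => le_min (hO.lo y h0 h1) (hO'.lo y h0 h1),
    fun y h0 h1 => min_le_of_left_le (hO.hi y h0 h1), fun y h0 h1 x hx hx' => by
      rw [min_le_iff, min_le_iff, hO.col h0 h1 hx hx', hO'.col h0 h1 hx hx']⟩

/-- `[y₁, y₂)` is a maximal interval of rows which reach the column `i` -/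
structure CompT (a : ℤ → ℤ) (p q i y₁ y₂ : ℤ) : Prop where
  y0 : p ≤ y₁
  y12 : y₁ < y₂
  yh : y₂ ≤ q
  room : ∀ y, y₁ ≤ y → y < y₂ → a y ≤ i
  bot : p < y₁ → i < a (y₁ - 1)
  top : y₂ < q → i < a y₂

/-- two components of the same column are equal or disjoint -/
lemma CompT.eq_of_mem {i y₁ y₂ z₁ z₂ v : ℤ} (h : CompT a p q i y₁ y₂) (h' : CompT a p q i z₁ z₂)
    (hv : y₁ ≤ v) (hv' : v < y₂) (hz : z₁ ≤ v) (hz' : v < z₂) : y₁ = z₁ ∧ y₂ = z₂ := by
  have f1 := h.y0
  have f2 := h.yh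
  have g1 := h'.y0
  have g2 := h'.yh
  constructor
  · rcases lt_trichotomy y₁ z₁ with hh | hh | hh
    · have k1 := h'.bot (by omega)
      have k2 := h.room (z₁ - 1) (by omega) (by omega)
      omega
    · exact hh
    · have k1 := h.bot (by omega)
      have k2 := h'.room (y₁ - 1) (by omega) (by omega)
      omega
  · rcases lt_trichotomy y₂ z₂ with hh | hh | hh
    · have k1 := h.top (by omega)
      have k2 := h'.room y₂ (by omega) (by omega)
      omega
    · exact hh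
    · have k1 := h'.top (by omega)
      have k2 := h.room z₂ (by omega) (by omega)
      omega

/-- the components of a smaller column are contained in the components of a larger one -/
lemma CompT.sub {i j y₁ y₂ z₁ z₂ v : ℤ} (h : CompT a p q i y₁ y₂) (h' : CompT a p q j z₁ z₂)
    (hij : i ≤ j) (hv : y₁ ≤ v) (hv' : v < y₂) (hz : z₁ ≤ v) (hz' : v < z₂) :
    z₁ ≤ y₁ ∧ y₂ ≤ z₂ := by
  have f1 := h.y0
  have f2 := h.yh
  constructor
  · by_contra hh
    have k1 := h'.bot (by omega)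
    have k2 := h.room (z₁ - 1) (by omega) (by omega)
    omega
  · by_contra hh
    have k1 := h'.top (by omega)
    have k2 := h.room z₂ (by omega) (by omega)
    omega

/-- the maximal interval of rows around `y` on which a predicate holds: upper end -/
lemma exists_top (P : ℤ → Prop) {y h : ℤ} (hy : y < h) (hP : P y) :
    ∃ y₂, y < y₂ ∧ y₂ ≤ h ∧ (∀ v, y ≤ v → v < y₂ → P v) ∧ (y₂ = h ∨ ¬ P y₂) := by
  classical
  by_cases H : ∃ n : ℕ, y + n < h ∧ ¬ P (y + n)
  · refine ⟨y + (Nat.find H : ℕ), ?_, (Nat.find_spec H).1.le, fun v hv hv' => ?_,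
      Or.inr (Nat.find_spec H).2⟩
    · rcases Nat.eq_zero_or_pos (Nat.find H) with h0 | h0
      · exfalso
        have := (Nat.find_spec H).2
        rw [h0] at this
        exact this (by simpa using hP)
      · omega
    · obtain ⟨n, rfl⟩ : ∃ n : ℕ, v = y + n := ⟨(v - y).toNat, by omega⟩
      by_contra hn
      exact Nat.find_min H (m := n) (by omega) ⟨by have := (Nat.find_spec H).1; omega, hn⟩
  · refine ⟨h, hy, le_rfl, fun v hv hv' => ?_, Or.inl rfl⟩
    obtain ⟨n, rfl⟩ : ∃ n : ℕ, v = y + n := ⟨(v - y).toNat, by omega⟩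
    by_contra hn
    exact H ⟨n, hv', hn⟩

lemma exists_bot (P : ℤ → Prop) {y b : ℤ} (hy : b ≤ y) (hP : P y) :
    ∃ y₁, y₁ ≤ y ∧ b ≤ y₁ ∧ (∀ v, y₁ ≤ v → v ≤ y → P v) ∧ (y₁ = b ∨ ¬ P (y₁ - 1)) := by
  obtain ⟨z, h1, h2, h3, h4⟩ := exists_top (fun v => P (-v)) (y := -y) (h := -b + 1) (by omega)
    (by simpa using hP)
  refine ⟨-z + 1, by omega, by omega, fun v hv hv' => ?_, ?_⟩
  · have := h3 (-v) (by omega) (by omega)
    simpa using this
  · rcases h4 with h4 | h4
    · left; omega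
    · right
      have e : -z + 1 - 1 = -z := by ring
      rw [e]; exact h4

/-- the component of a tile of the room -/
lemma exists_comp {i y : ℤ} (h0 : p ≤ y) (h1 : y < q) (ha : a y ≤ i) :
    ∃ y₁ y₂, CompT a p q i y₁ y₂ ∧ y₁ ≤ y ∧ y < y₂ := by
  obtain ⟨y₂, ht1, ht2, ht3, ht4⟩ := exists_top (fun v => a v ≤ i) h1 ha
  obtain ⟨y₁, hb1, hb2, hb3, hb4⟩ := exists_bot (fun v => a v ≤ i) h0 ha
  refine ⟨y₁, y₂, ⟨hb2, by omega, ht2, fun v hv hv' => ?_, fun h => ?_, fun h => ?_⟩, hb1, ht1⟩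
  · rcases le_total y v with hyv | hyv
    · exact ht3 v hyv hv'
    · exact hb3 v hv hyv
  · rcases hb4 with hb4 | hb4
    · omega
    · simpa using hb4
  · rcases ht4 with ht4 | ht4
    · omega
    · simpa using ht4

/-- on a component of the column `i` the swept set is constant -/
lemma OkT.comp (hO : OkT a w p q τ) {i y₁ y₂ y y' : ℤ} (hC : CompT a p q i y₁ y₂) (hy : y₁ ≤ y)
    (hy2 : y < y₂) (hy' : y₁ ≤ y') (hy2' : y' < y₂) : τ y ≤ i ↔ τ y' ≤ i := by
  have f1 := hC.y0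
  have f2 := hC.yh
  exact hO.seg' (by omega) (by omega) (by omega) (by omega) fun v hv hv' =>
    hC.room v (by omega) (by omega)

/-- the strip `[y₁, y₂)` of the column `i` can be swept from the position `τ` -/
structure Stp (a : ℤ → ℤ) (p q : ℤ) (τ : ℤ → ℤ) (i y₁ y₂ : ℤ) : Prop extends
    CompT a p q i y₁ y₂ where
  tau : ∀ y, y₁ ≤ y → y < y₂ → τ y = i + 1

/-- the position after the step -/
def push (τ : ℤ → ℤ) (i y₁ y₂ : ℤ) : ℤ → ℤ := fun y => if y₁ ≤ y ∧ y < y₂ then i else τ y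

lemma push_in {i y₁ y₂ y : ℤ} (h1 : y₁ ≤ y) (h2 : y < y₂) : push τ i y₁ y₂ y = i := if_pos ⟨h1, h2⟩

lemma push_out {i y₁ y₂ y : ℤ} (h1 : y < y₁ ∨ y₂ ≤ y) : push τ i y₁ y₂ y = τ y :=
  if_neg (by omega)

lemma Stp.ok (hO : OkT a w p q τ) {i y₁ y₂ : ℤ} (hS : Stp a p q τ i y₁ y₂) :
    OkT a w p q (push τ i y₁ y₂) := by
  have f1 := hS.y0
  have f2 := hS.yh
  refine okT_iff.2 ⟨fun y h0 h1 => ?_, fun y h0 h1 => ?_, fun y h0 h1 x hx hx' => ?_⟩
  · by_cases hy : y₁ ≤ y ∧ y < y₂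
    · rw [push_in hy.1 hy.2]; exact hS.room y hy.1 hy.2
    · rw [push_out (by omega)]; exact hO.lo y h0 h1
  · by_cases hy : y₁ ≤ y ∧ y < y₂
    · rw [push_in hy.1 hy.2]
      have := hO.hi y h0 h1
      have := hS.tau y hy.1 hy.2
      omega
    · rw [push_out (by omega)]; exact hO.hi y h0 h1
  · have hc := hO.col h0 h1 hx hx'
    by_cases hy : y₁ ≤ y ∧ y < y₂
    · rw [push_in hy.1 hy.2]
      by_cases hy' : y + 1 < y₂
      · rw [push_in (by omega) hy']
      · rw [push_out (by omega)]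
        have e : y + 1 = y₂ := by omega
        have ht := hS.tau y hy.1 hy.2
        have hh := hS.top (by omega)
        rw [e] at hx' hc ⊢
        rw [ht] at hc
        rw [← hc]
        constructor <;> intro <;> omega
    · rw [push_out (by omega)]
      by_cases hy' : y₁ ≤ y + 1 ∧ y + 1 < y₂
      · rw [push_in hy'.1 hy'.2]
        have e : y + 1 = y₁ := by omega
        have ht := hS.tau (y + 1) hy'.1 hy'.2
        have hh := hS.bot (by omega)
        have e2 : y₁ - 1 = y := by omega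
        rw [e2] at hh
        rw [ht] at hc
        rw [hc]
        constructor <;> intro <;> omega
      · rw [push_out (by omega)]; exact hc

/-- from an allowed position one step towards a smaller allowed position; the column of the step is
not smaller than any given column of the difference -/
lemma exists_step (hO : OkT a w p q τ) (hO' : OkT a w p q σ)
    (hle : ∀ y, p ≤ y → y < q → σ y ≤ τ y) {y : ℤ} (h0 : p ≤ y) (h1 : y < q) (hlt : σ y < τ y) :
    ∃ i y₁ y₂, Stp a p q τ i y₁ y₂ ∧ (∀ v, y₁ ≤ v → v < y₂ → σ v ≤ i) ∧ τ y ≤ i + 1 := by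
  classical
  obtain ⟨y, ⟨h0, h1, hlt⟩, hmax, hge⟩ : ∃ v, (p ≤ v ∧ v < q ∧ σ v < τ v) ∧
      (∀ u, p ≤ u ∧ u < q ∧ σ u < τ u → τ u ≤ τ v) ∧ τ y ≤ τ v := by
    have hne : ((Finset.Ico p q).filter (fun v => σ v < τ v)).Nonempty :=
      ⟨y, by simp [h0, h1, hlt]⟩
    obtain ⟨v, hv, hm⟩ := Finset.exists_max_image _ τ hne
    rw [Finset.mem_filter, Finset.mem_Ico] at hv
    refine ⟨v, ⟨hv.1.1, hv.1.2, hv.2⟩, fun u hu => hm u ?_, hm y ?_⟩
    · rw [Finset.mem_filter, Finset.mem_Ico]; exact ⟨⟨hu.1, hu.2.1⟩, hu.2.2⟩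
    · rw [Finset.mem_filter, Finset.mem_Ico]; exact ⟨⟨h0, h1⟩, hlt⟩
  have ha : a y ≤ τ y - 1 := by have := hO'.lo y h0 h1; omega
  obtain ⟨y₁, y₂, hC, hy1, hy2⟩ := exists_comp h0 h1 ha
  have f1 := hC.y0
  have f2 := hC.yh
  have hs : ∀ v, y₁ ≤ v → v < y₂ → σ v ≤ τ y - 1 := fun v hv hv' =>
    (hO'.comp hC hy1 hy2 hv hv').1 (by omega)
  have ht : ∀ v, y₁ ≤ v → v < y₂ → τ v = τ y - 1 + 1 := fun v hv hv' => by
    have h3 : ¬ τ v ≤ τ y - 1 := by
      rw [← hO.comp hC hy1 hy2 hv hv']; omega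
    have h4 := hmax v ⟨by omega, by omega, by have := hs v hv hv'; omega⟩
    omega
  exact ⟨τ y - 1, y₁, y₂, ⟨hC, ht⟩, hs, by omega⟩

/-- **Chains.** A property of positions that is kept by the steps between `τ` and `σ ≤ τ` and by
changes outside of the rows of the room passes from `τ` to `σ`. -/
theorem chain_induction {P : (ℤ → ℤ) → Prop} (hO : OkT a w p q τ) (hO' : OkT a w p q σ)
    (hle : ∀ y, p ≤ y → y < q → σ y ≤ τ y) (h0 : P τ)
    (hcongr : ∀ ρ ρ', (∀ y, p ≤ y → y < q → ρ' y = ρ y) → P ρ → P ρ')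
    (hstep : ∀ ρ i y₁ y₂, OkT a w p q ρ → (∀ y, p ≤ y → y < q → σ y ≤ ρ y ∧ ρ y ≤ τ y) → P ρ →
      Stp a p q ρ i y₁ y₂ → (∀ v, y₁ ≤ v → v < y₂ → σ v ≤ i) → P (push ρ i y₁ y₂)) : P σ := by
  classical
  suffices H : ∀ n : ℕ, ∀ ρ, OkT a w p q ρ → (∀ y, p ≤ y → y < q → σ y ≤ ρ y ∧ ρ y ≤ τ y) →
      P ρ → ∑ y ∈ Finset.Ico p q, (ρ y - σ y) ≤ n → P σ from
    H (∑ y ∈ Finset.Ico p q, (τ y - σ y)).toNat τ hO
      (fun y hy hy' => ⟨hle y hy hy', le_rfl⟩) h0 (by omega)
  intro n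
  induction n with
  | zero =>
      intro ρ hρ hb hP hs
      refine hcongr ρ σ (fun y hy hy' => ?_) hP
      have h1 : ρ y - σ y ≤ ∑ y ∈ Finset.Ico p q, (ρ y - σ y) :=
        Finset.single_le_sum (f := fun y => ρ y - σ y) (fun v hv => by
          rw [Finset.mem_Ico] at hv
          have := (hb v hv.1 hv.2).1
          show 0 ≤ ρ v - σ v
          omega) (Finset.mem_Ico.2 ⟨hy, hy'⟩)
      have h2 := (hb y hy hy').1
      push_cast at hs
      omega
  | succ n ih =>
      intro ρ hρ hb hP hs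
      by_cases hex : ∃ y, p ≤ y ∧ y < q ∧ σ y < ρ y
      · obtain ⟨y, hy0, hy1, hlt⟩ := hex
        obtain ⟨i, y₁, y₂, hS, hs', -⟩ := exists_step hρ hO' (fun y hy hy' => (hb y hy hy').1)
          hy0 hy1 hlt
        have f1 := hS.y0
        have f2 := hS.yh
        have f3 := hS.y12
        refine ih (push ρ i y₁ y₂) (hS.ok hρ) (fun v hv hv' => ?_) (hstep ρ i y₁ y₂ hρ hb hP hS hs')
          ?_
        · have := hb v hv hv'
          by_cases hvv : y₁ ≤ v ∧ v < y₂
          · rw [push_in hvv.1 hvv.2]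
            have h1 := hS.tau v hvv.1 hvv.2
            exact ⟨hs' v hvv.1 hvv.2, by omega⟩
          · rw [push_out (by omega)]; exact this
        · have hlt' : ∑ v ∈ Finset.Ico p q, (push ρ i y₁ y₂ v - σ v) <
              ∑ v ∈ Finset.Ico p q, (ρ v - σ v) := by
            refine Finset.sum_lt_sum (fun v _ => ?_) ⟨y₁, ?_, ?_⟩
            · by_cases hv : y₁ ≤ v ∧ v < y₂
              · rw [push_in hv.1 hv.2, hS.tau v hv.1 hv.2]; omega
              · rw [push_out (by omega)]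
            · rw [Finset.mem_Ico]; exact ⟨f1, by omega⟩
            · rw [push_in le_rfl f3, hS.tau y₁ le_rfl f3]; omega
          push_cast at hs
          omega
      · push Not at hex
        exact hcongr ρ σ (fun y hy hy' => le_antisymm (hb y hy hy').1 (hex y hy hy')) hP

/-- a step, between functions on the rows of the room -/
def Step (a : ℤ → ℤ) (p q : ℤ) (τ σ : ℤ → ℤ) : Prop :=
  ∃ i y₁ y₂, Stp a p q τ i y₁ y₂ ∧ σ = push τ i y₁ y₂

/-- every allowed position below an allowed position is reached by steps -/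
theorem exists_chain (hO : OkT a w p q τ) (hO' : OkT a w p q σ)
    (hle : ∀ y, p ≤ y → y < q → σ y ≤ τ y) :
    ∃ σ', Relation.ReflTransGen (Step a p q) τ σ' ∧ ∀ y, p ≤ y → y < q → σ' y = σ y := by
  refine chain_induction (P := fun ρ => ∃ σ', Relation.ReflTransGen (Step a p q) τ σ' ∧
    ∀ y, p ≤ y → y < q → σ' y = ρ y) hO hO' hle ⟨τ, Relation.ReflTransGen.refl, fun _ _ _ => rfl⟩
    ?_ ?_
  · rintro ρ ρ' he ⟨σ', h1, h2⟩
    exact ⟨σ', h1, fun y hy hy' => by rw [h2 y hy hy', he y hy hy']⟩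
  · rintro ρ i y₁ y₂ hρ hb ⟨σ', h1, h2⟩ hS hs
    have f1 := hS.y0
    have f2 := hS.yh
    refine ⟨push σ' i y₁ y₂, h1.tail ⟨i, y₁, y₂, ⟨hS.toCompT, fun y hy hy' => ?_⟩, rfl⟩,
      fun y hy hy' => ?_⟩
    · rw [h2 y (by omega) (by omega)]; exact hS.tau y hy hy'
    · by_cases hv : y₁ ≤ y ∧ y < y₂
      · rw [push_in hv.1 hv.2, push_in hv.1 hv.2]
      · rw [push_out (by omega), push_out (by omega)]; exact h2 y hy hy'

end Pool.Agent.H21.W.Tau
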